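import Pool.Agent.Helper35.FP.MT
import Pool.Agent.Helper16.FP.Vac

/-!
# Project FP, block CF: constant fields of operators compressed to `Kt`

`A : L → L'` commuting with `𝕂`: the constant field `A` on the bundle of the symmetric spaces acts on `H ⊗ L` by compression: `XiA : Kt ρ → Kt ρ'`,
`⟪τ F' x', XiA (τ F x)⟫ = ⟪x', Xi ⟪F', A F⟫ x⟫`, `‖XiA‖ ≤ ‖A‖`. `XM w`: the element of `MM B ρ` given by a `𝕂`-fixed vector `w`. `push T ∘ (XM w ⊗ 1) = XiA (v ↦ T (w ⊗ v))`.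
`XiA_tendsto`: if `A n → 1` strongly, `‖A n‖ ≤ C`, then `XiA (A n) → 1` weakly.
-/

set_option autoImplicit false
set_option linter.unusedSectionVars false

open Filter Topology

namespace Pool.Agent.Helper89.FP

open Pool.Agent.Helper35.FP Pool.Agent.Helper16.FP

variable {𝔾 𝕊 : Type} [Group 𝔾] [TopologicalSpace 𝔾] [IsTopologicalGroup 𝔾] [Group 𝕊] [TopologicalSpace 𝕊] [IsTopologicalGroup 𝕊]
  {𝕂 : Subgroup 𝕊} {geo : Geo 𝔾 𝕊 𝕂} {G S' H U : Type} [Group G] [Group S'] [TopologicalSpace S'] [IsTopologicalGroup S']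
  [NormedAddCommGroup H] [InnerProductSpace ℂ H] [CompleteSpace H]
  [NormedAddCommGroup U] [InnerProductSpace ℂ U] [CompleteSpace U]

variable (B : BD geo G S' H U) {L L' L'' : Type} [NormedAddCommGroup L] [InnerProductSpace ℂ L]
  [NormedAddCommGroup L'] [InnerProductSpace ℂ L'] [NormedAddCommGroup L''] [InnerProductSpace ℂ L'']
  {ρ : Rp 𝕊 L} {ρ' : Rp 𝕊 L'} {ρ'' : Rp 𝕊 L''}

/-- Operators commuting with `𝕂` act on the bounded sections. -/
def apB {A : L →L[ℂ] L'} (hA : ItK 𝕂 ρ ρ' A) (a : BS geo ρ) : BS geo ρ' :=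
  ⟨fun g => A ((a : 𝔾 → L) g), A.continuous.comp a.2.1, fun g q hq => by
    simp only
    rw [a.2.2.1 g q hq, hA _ (𝕂.inv_mem hq)], by
    obtain ⟨C, hC⟩ := a.2.2.2
    exact ⟨‖A‖ * C, fun g => (A.le_opNorm _).trans (mul_le_mul_of_nonneg_left (hC g) (norm_nonneg _))⟩⟩

theorem apB_apply {A : L →L[ℂ] L'} (hA : ItK 𝕂 ρ ρ' A) (a : BS geo ρ) (g : 𝔾) :
    (apB hA a : 𝔾 → L') g = A ((a : 𝔾 → L) g) := rfl

/-- Fields act on the bounded sections. -/
def apF (o : Fd geo ρ ρ') (a : BS geo ρ) : BS geo ρ' :=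
  ⟨fun g => o.O g ((a : 𝔾 → L) g), o.cont2 a.2.1, fun g q hq => by
    simp only
    rw [a.2.2.1 g q hq, o.inv], by
    obtain ⟨C, hC⟩ := a.2.2.2
    obtain ⟨D, hD0, hD⟩ := o.bdd
    exact ⟨D * C, fun g => ((o.O g).le_opNorm _).trans
      (mul_le_mul (hD g) (hC g) (norm_nonneg _) hD0)⟩⟩

theorem apF_apply (o : Fd geo ρ ρ') (a : BS geo ρ) (g : 𝔾) : (apF o a : 𝔾 → L') g = o.O g ((a : 𝔾 → L) g) := rfl

variable {B} in
/-- fields act on the vectors `XX` -/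
theorem mulF_XX {m : (𝔾 → ℂ) → (H →L[ℂ] H)} (h : PM B m) (o : Fd geo ρ ρ') (o' : Fd geo ρ' ρ)
    (ho : ∀ g w w', (inner ℂ (o'.O g w) w' : ℂ) = inner ℂ w (o.O g w')) (a : BS geo ρ) (x : H) :
    mulF B o (XX h a x) = XX h (apF o a) x := by
  refine ext_Kt fun F x' => ?_
  rw [← inner_mulF B o' o ho, mulF_tau, inner_XX, inner_XX]
  congr 3
  funext g
  exact ho _ _ _

theorem exists_XiA {A : L →L[ℂ] L'} (hA : ItK 𝕂 ρ ρ' A) : ∃ C : Kt B ρ →L[ℂ] Kt B ρ', ‖C‖ ≤ ‖A‖ ∧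
    ∀ (F : Sec geo ρ) (x : H), C (tau B F x) = XX (PM.xi B) (apB hA (ofSec F)) x := by
  obtain ⟨K, i1, i2, i3, σ, hσ⟩ := exists_dil (PM.xi B) ρ'
  -- the isometry `Kt ρ' → K`
  obtain ⟨J, hJ⟩ := gram_isom (F := K) (tot_tau B ρ') (w := fun p : Sec geo ρ' × H => σ (ofSec p.1, p.2)) (fun p q => by
    rw [hσ, inner_tau]
    rfl)
  have hn : ∀ (s : Finset (Sec geo ρ × H)) (c : Sec geo ρ × H → ℂ),
      ‖∑ p ∈ s, c p • XX (PM.xi B) (apB hA (ofSec p.1)) p.2‖ ≤ ‖A‖ * ‖∑ p ∈ s, c p • tau B p.1 p.2‖ := by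
    intro s c
    have e1 : ∑ p ∈ s, c p • XX (PM.xi B) (apB hA (ofSec p.1)) p.2 =
        ContinuousLinearMap.adjoint J.toContinuousLinearMap (∑ p ∈ s, c p • σ (apB hA (ofSec p.1), p.2)) := by
      refine ext_Kt fun F x' => ?_
      rw [ContinuousLinearMap.adjoint_inner_right]
      change _ = (inner ℂ (J (tau B F x')) _ : ℂ)
      rw [hJ (F, x'), inner_sum, inner_sum]
      refine Finset.sum_congr rfl fun p _ => ?_
      rw [inner_smul_right, inner_smul_right, inner_XX, hσ]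
      rfl
    have e2 : ‖∑ p ∈ s, c p • σ (apB hA (ofSec p.1), p.2)‖ ^ 2 ≤ (‖A‖ * ‖∑ p ∈ s, c p • tau B p.1 p.2‖) ^ 2 := by
      have h1 := sum_gram s (fun p : Sec geo ρ × H => σ (apB hA (ofSec p.1), p.2)) c
      have h2 := sum_gram s (fun p : Sec geo ρ × H => tau B p.1 p.2) c
      set kk : Sec geo ρ × H → Sec geo ρ × H → 𝔾 → ℂ := fun p q g =>
        ((‖A‖ ^ 2 : ℝ) : ℂ) * inner ℂ ((p.1 : 𝔾 → L) g) ((q.1 : 𝔾 → L) g) +
          (-1) * inner ℂ (A ((p.1 : 𝔾 → L) g)) (A ((q.1 : 𝔾 → L) g)) with hkk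
      have hb1 : ∀ p q : Sec geo ρ × H, Bf geo fun g => (inner ℂ ((p.1 : 𝔾 → L) g) ((q.1 : 𝔾 → L) g) : ℂ) := fun p q =>
        BS.inner_bf (ofSec p.1) (ofSec q.1)
      have hb2 : ∀ p q : Sec geo ρ × H, Bf geo fun g => (inner ℂ (A ((p.1 : 𝔾 → L) g)) (A ((q.1 : 𝔾 → L) g)) : ℂ) :=
        fun p q => BS.inner_bf (apB hA (ofSec p.1)) (apB hA (ofSec q.1))
      have h3 := (PM.xi B).pos' s kk (fun p q => bfAdd (bfSmul _ (hb1 p q)) (bfSmul _ (hb2 p q))) (fun g z => by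
        have e3 : ∑ p ∈ s, ∑ q ∈ s, (starRingEnd ℂ) (z p) * kk p q g * z q =
            ((‖A‖ ^ 2 * ‖∑ p ∈ s, z p • (p.1 : 𝔾 → L) g‖ ^ 2 - ‖∑ p ∈ s, z p • A ((p.1 : 𝔾 → L) g)‖ ^ 2 : ℝ) : ℂ) := by
          rw [Complex.ofReal_sub, Complex.ofReal_mul, ← sum_gram s (fun p : Sec geo ρ × H => (p.1 : 𝔾 → L) g) z,
            ← sum_gram s (fun p : Sec geo ρ × H => A ((p.1 : 𝔾 → L) g)) z, Finset.mul_sum, ← Finset.sum_sub_distrib]
          refine Finset.sum_congr rfl fun p _ => ?_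
          rw [Finset.mul_sum, ← Finset.sum_sub_distrib]
          refine Finset.sum_congr rfl fun q _ => ?_
          simp only [hkk]
          ring
        rw [e3, Complex.ofReal_re, sub_nonneg]
        have e4 : ∑ p ∈ s, z p • A ((p.1 : 𝔾 → L) g) = A (∑ p ∈ s, z p • (p.1 : 𝔾 → L) g) := by
          rw [map_sum]
          exact Finset.sum_congr rfl fun p _ => (map_smul _ _ _).symm
        rw [e4, ← mul_pow]
        exact pow_le_pow_left₀ (norm_nonneg _) (A.le_opNorm _) 2) (fun p => c p • p.2)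
      have e5 : ∑ p ∈ s, ∑ q ∈ s, inner ℂ (c p • p.2) (B.Xi (kk p q) (c q • q.2)) =
          ((‖A‖ ^ 2 * ‖∑ p ∈ s, c p • tau B p.1 p.2‖ ^ 2 - ‖∑ p ∈ s, c p • σ (apB hA (ofSec p.1), p.2)‖ ^ 2 : ℝ) : ℂ) := by
        rw [Complex.ofReal_sub, Complex.ofReal_mul, ← h1, ← h2, Finset.mul_sum, ← Finset.sum_sub_distrib]
        refine Finset.sum_congr rfl fun p _ => ?_
        rw [Finset.mul_sum, ← Finset.sum_sub_distrib]
        refine Finset.sum_congr rfl fun q _ => ?_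
        simp only [hkk]
        rw [(PM.xi B).add _ _ (bfSmul _ (hb1 p q)) (bfSmul _ (hb2 p q)), (PM.xi B).smul _ _ (hb1 p q),
          (PM.xi B).smul _ _ (hb2 p q), inner_tau, hσ, map_smul, map_smul, inner_smul_left, inner_add_right,
          inner_smul_right, inner_smul_right, inner_smul_right, inner_smul_right]
        simp only [apB_apply, ofSec_apply]
        ring
      rw [e5, Complex.ofReal_re, sub_nonneg, ← mul_pow] at h3
      exact h3
    rw [e1]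
    have e3 : ‖ContinuousLinearMap.adjoint J.toContinuousLinearMap‖ ≤ 1 := by
      rw [LinearIsometryEquiv.norm_map]
      exact J.norm_toContinuousLinearMap_le
    refine (ContinuousLinearMap.le_of_opNorm_le _ e3 _).trans ?_
    rw [one_mul]
    exact (sq_le_sq₀ (norm_nonneg _) (by positivity)).1 e2
  obtain ⟨C, hC1, hC2⟩ := gram_clm (tot_tau B ρ) (fun p : Sec geo ρ × H => XX (PM.xi B) (apB hA (ofSec p.1)) p.2)
    (norm_nonneg A) hn
  exact ⟨C, hC1, fun F x => hC2 (F, x)⟩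

/-- The compression of the constant field `A`. -/
noncomputable def XiA {A : L →L[ℂ] L'} (hA : ItK 𝕂 ρ ρ' A) : Kt B ρ →L[ℂ] Kt B ρ' := (exists_XiA B hA).choose

theorem norm_XiA {A : L →L[ℂ] L'} (hA : ItK 𝕂 ρ ρ' A) : ‖XiA B hA‖ ≤ ‖A‖ := (exists_XiA B hA).choose_spec.1

theorem XiA_tau {A : L →L[ℂ] L'} (hA : ItK 𝕂 ρ ρ' A) (F : Sec geo ρ) (x : H) :
    XiA B hA (tau B F x) = XX (PM.xi B) (apB hA (ofSec F)) x := (exists_XiA B hA).choose_spec.2 F x

theorem inner_XiA {A : L →L[ℂ] L'} (hA : ItK 𝕂 ρ ρ' A) (F' : Sec geo ρ') (F : Sec geo ρ) (x' x : H) :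
    (inner ℂ (tau B F' x') (XiA B hA (tau B F x)) : ℂ) =
      inner ℂ x' (B.Xi (fun g => inner ℂ ((F' : 𝔾 → L') g) (A ((F : 𝔾 → L) g))) x) := by
  rw [XiA_tau, inner_XX]
  rfl

section XM

theorem XM_mem (w : L) (hw : ∀ h ∈ 𝕂, ρ.U h w = w) : XX (PM.xi B) (cst ρ w hw) ∈ MM B ρ :=
  ⟨fun _ _ => XX_W _ _ _ _, fun _ hc x => XX_lift _ _ hc x, fun _ hf x => XX_PhiK _ _ hf x⟩

/-- The element of `MM B ρ` given by a `𝕂`-fixed vector. -/
noncomputable def XM (w : L) (hw : ∀ h ∈ 𝕂, ρ.U h w = w) : MM B ρ := ⟨_, XM_mem B w hw⟩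

theorem XM_apply (w : L) (hw : ∀ h ∈ 𝕂, ρ.U h w = w) (x : H) :
    ((XM B w hw : MM B ρ) : H →L[ℂ] Kt B ρ) x = XX (PM.xi B) (cst ρ w hw) x := rfl

end XM

section Prod

variable [CompleteSpace L] [CompleteSpace L''] [CompleteSpace L']

theorem Tn.op_add (Θ : Tn ρ ρ' ρ'') (v v' : L') : Θ.op (v + v') = Θ.op v + Θ.op v' := by
  refine ContinuousLinearMap.ext fun w => ?_
  rw [add_apply, Θ.op_apply, Θ.op_apply, Θ.op_apply, map_add]

/-- The adjoint of the field `w ↦ w ⊗ F' g`. -/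
noncomputable def fdAdj (Θ : Tn ρ ρ' ρ'') (F' : Sec geo ρ') : Fd geo ρ'' ρ where
  O g := ContinuousLinearMap.adjoint (Θ.op ((F' : 𝔾 → L') g))
  cont w := by
    have h1 : Continuous fun v : L' => Θ.op v := by
      have h2 : ∀ v v' : L', ‖Θ.op v - Θ.op v'‖ ≤ ‖v - v'‖ := by
        intro v v'
        have h3 : Θ.op v - Θ.op v' = Θ.op (v - v') := by
          rw [sub_eq_iff_eq_add, ← Tn.op_add, sub_add_cancel]
        rw [h3]
        exact Θ.norm_op_le _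
      have h3 : LipschitzWith 1 fun v : L' => Θ.op v := LipschitzWith.of_dist_le_mul fun v v' => by
        rw [dist_eq_norm, dist_eq_norm, NNReal.coe_one, one_mul]
        exact h2 v v'
      exact h3.continuous
    have h2 : Continuous fun g => ContinuousLinearMap.adjoint (Θ.op ((F' : 𝔾 → L') g)) :=
      (LinearIsometryEquiv.continuous _).comp (h1.comp F'.2.1)
    exact h2.clm_apply continuous_const
  inv g q w := by
    refine ext_inner_left ℂ fun v => ?_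
    rw [ContinuousLinearMap.adjoint_inner_right, Θ.op_apply, F'.2.2]
    have h1 : v = ρ.U (geo.nb q)⁻¹ (ρ.U (geo.nb q) v) := by
      have h2 : (ρ.U (geo.nb q)⁻¹ * ρ.U (geo.nb q)) v = v := by rw [← map_mul, inv_mul_cancel, map_one]; rfl
      exact h2.symm
    conv_lhs => rw [h1]
    conv_rhs => rw [h1]
    rw [← Θ.equi, LinearIsometryEquiv.inner_map_map, LinearIsometryEquiv.inner_map_map,
      ContinuousLinearMap.adjoint_inner_right, Θ.op_apply]
  bdd := by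
    obtain ⟨C, hC0, hC⟩ := (Θ.fd F').bdd
    refine ⟨C, hC0, fun g => ?_⟩
    rw [LinearIsometryEquiv.norm_map]
    exact hC g

variable {B}

/-- `push T ∘ (XM w ⊗ 1) = XiA (v ↦ T (w ⊗ v))`. -/
theorem push_tens_XM (Θ : Tn ρ ρ' ρ'') {M : Type} [NormedAddCommGroup M] [InnerProductSpace ℂ M] [CompleteSpace M] {σ : Rp 𝕊 M}
    {T : L'' →L[ℂ] M} (hT : Itw ρ'' σ T) (w : L) (hw : ∀ h ∈ 𝕂, ρ.U h w = w) {A : L' →L[ℂ] M} (hA : ItK 𝕂 ρ' σ A)
    (hAT : ∀ v, A v = T (Θ.t w v)) (y : Kt B ρ') : push B hT (tens Θ (XM B w hw) y) = XiA B hA y := by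
  have h1 : (push B hT).comp (tens Θ (XM B w hw)) = XiA B hA := by
    refine ext_tot (tot_tau B ρ') fun p => ?_
    change push B hT (tens Θ (XM B w hw) (tau B p.1 p.2)) = XiA B hA (tau B p.1 p.2)
    rw [tens_tau, XM_apply, mulF_XX (PM.xi B) (Θ.fd p.1) (fdAdj Θ p.1) fun g w w' => ?_]
    · rw [push, mulF_XX (PM.xi B) (Fd.const hT) (Fd.const hT.adj) fun g w w' => ?_]
      · rw [XiA_tau]
        refine congrArg (fun C : H →L[ℂ] Kt B σ => C p.2) (XX_congr _ fun g => ?_)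
        exact (hAT _).symm
      · exact ContinuousLinearMap.adjoint_inner_left _ _ _
    · exact ContinuousLinearMap.adjoint_inner_left _ _ _
  exact congrArg (fun C : Kt B ρ' →L[ℂ] Kt B σ => C y) h1

end Prod

section Lim

/-- strong convergence from a total family -/
theorem tendsto_tot {ι K K' : Type} [NormedAddCommGroup K] [InnerProductSpace ℂ K] [CompleteSpace K]
    [NormedAddCommGroup K'] [NormedSpace ℂ K'] {v : ι → K} (hv : Tot v) (A : ℕ → (K →L[ℂ] K')) (A₀ : K →L[ℂ] K') {C : ℝ}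
    (hC : ∀ n, ‖A n‖ ≤ C) (h : ∀ i, Tendsto (fun n => A n (v i)) atTop (𝓝 (A₀ (v i)))) (y : K) :
    Tendsto (fun n => A n y) atTop (𝓝 (A₀ y)) := by
  have hC0 : 0 ≤ C := (norm_nonneg _).trans (hC 0)
  let S : Submodule ℂ K :=
    { carrier := {y | Tendsto (fun n => A n y) atTop (𝓝 (A₀ y))}
      add_mem' := fun {a b} ha hb => by
        have h1 : Tendsto (fun n => A n a + A n b) atTop (𝓝 (A₀ a + A₀ b)) := Tendsto.add ha hb
        simp only [Set.mem_ofPred_eq, map_add]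
        exact h1
      zero_mem' := by
        simp only [Set.mem_ofPred_eq, map_zero]
        exact tendsto_const_nhds
      smul_mem' := fun c a ha => by
        have h1 : Tendsto (fun n => c • A n a) atTop (𝓝 (c • A₀ a)) := Tendsto.const_smul ha c
        simp only [Set.mem_ofPred_eq, map_smul]
        exact h1 }
  have hS : S.topologicalClosure = ⊤ := by
    rw [Submodule.topologicalClosure_eq_top_iff, Submodule.eq_bot_iff]
    intro z hz
    exact hv z fun i => (Submodule.mem_orthogonal _ _).1 hz _ (h i)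
  have hd : Dense (S : Set K) := Submodule.dense_iff_topologicalClosure_eq_top.2 hS
  rw [Metric.tendsto_atTop]
  intro ε hε
  obtain ⟨z, hz, hzy⟩ := Metric.dense_iff.1 hd y (ε / (2 * (C + ‖A₀‖ + 1))) (by positivity)
  rw [Metric.mem_ball, dist_eq_norm] at hz
  have hz' : Tendsto (fun n => A n z) atTop (𝓝 (A₀ z)) := hzy
  obtain ⟨N, hN⟩ := Metric.tendsto_atTop.1 hz' (ε / 2) (by positivity)
  refine ⟨N, fun n hn => ?_⟩
  have h1 := hN n hn
  rw [dist_eq_norm] at h1 ⊢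
  have h2 : A n y - A₀ y = (A n z - A₀ z) - (A n (z - y) - A₀ (z - y)) := by
    rw [map_sub, map_sub]; abel
  have h3 : ‖A n (z - y) - A₀ (z - y)‖ ≤ (C + ‖A₀‖) * ‖z - y‖ := by
    refine (norm_sub_le _ _).trans ?_
    rw [add_mul]
    exact add_le_add ((A n).le_of_opNorm_le (hC n) _) (A₀.le_opNorm _)
  have h4 : (C + ‖A₀‖) * ‖z - y‖ < ε / 2 := by
    have h5 : (C + ‖A₀‖) * ‖z - y‖ ≤ (C + ‖A₀‖ + 1) * ‖z - y‖ :=
      mul_le_mul_of_nonneg_right (by linarith) (norm_nonneg _)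
    have h6 : (C + ‖A₀‖ + 1) * ‖z - y‖ < (C + ‖A₀‖ + 1) * (ε / (2 * (C + ‖A₀‖ + 1))) :=
      mul_lt_mul_of_pos_left hz (by positivity)
    have h7 : (C + ‖A₀‖ + 1) * (ε / (2 * (C + ‖A₀‖ + 1))) = ε / 2 := by
      field_simp
    linarith
  rw [h2]
  refine (norm_sub_le _ _).trans_lt ?_
  linarith

/-- strong convergence is uniform on compact sets -/
theorem tendsto_compact {K K' : Type} [NormedAddCommGroup K] [NormedSpace ℂ K]
    [NormedAddCommGroup K'] [NormedSpace ℂ K'] (A : ℕ → (K →L[ℂ] K')) {C : ℝ}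
    (hC : ∀ n, ‖A n‖ ≤ C) (h : ∀ y, Tendsto (fun n => A n y) atTop (𝓝 0)) {D : Set K} (hD : IsCompact D)
    {ε : ℝ} (hε : 0 < ε) : ∀ᶠ n in atTop, ∀ y ∈ D, ‖A n y‖ ≤ ε := by
  have hC0 : 0 ≤ C := (norm_nonneg _).trans (hC 0)
  obtain ⟨t, -, htf, ht⟩ := Metric.totallyBounded_iff.1 hD.totallyBounded (ε / (2 * (C + 1))) (by positivity) |>.imp fun t h => (⟨trivial, h⟩ : True ∧ _)
  have h1 : ∀ᶠ n in atTop, ∀ z ∈ t, ‖A n z‖ ≤ ε / 2 := by
    rw [Filter.eventually_all_finite htf]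
    intro z _
    have h2 := (h z).norm
    rw [norm_zero] at h2
    exact (h2.eventually (gt_mem_nhds (by positivity : (0 : ℝ) < ε / 2))).mono fun n hn => hn.le
  filter_upwards [h1] with n hn y hy
  have h2 := ht hy
  rw [Set.mem_iUnion₂] at h2
  obtain ⟨z, hz, hyz⟩ := h2
  rw [Metric.mem_ball, dist_eq_norm] at hyz
  have h3 : A n y = A n (y - z) + A n z := by rw [map_sub]; abel
  rw [h3]
  have h4 : ‖A n (y - z)‖ ≤ ε / 2 := by
    refine ((A n).le_of_opNorm_le (hC n) _).trans ?_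
    calc C * ‖y - z‖ ≤ (C + 1) * (ε / (2 * (C + 1))) := by
          refine mul_le_mul (by linarith) hyz.le (norm_nonneg _) (by positivity)
      _ = ε / 2 := by field_simp
  refine (norm_add_le _ _).trans ?_
  linarith [hn z hz]

/-- the values of a section over a compact set of blocks -/
theorem compact_values (F : Sec geo ρ) {D : Set 𝕊} (hD : IsCompact D) :
    ∃ E : Set L, IsCompact E ∧ ∀ g, geo.nb (geo.r g) ∈ D → (F : 𝔾 → L) g ∈ E := by
  have h1 : Continuous fun p : 𝕊 × 𝔾 => ρ.U (p.1)⁻¹ ((F : 𝔾 → L) p.2) := by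
    rw [continuous_iff_continuousAt]
    rintro ⟨t, k⟩
    have h2 : Tendsto (fun p : 𝕊 × 𝔾 => ρ.U (p.1)⁻¹ ((F : 𝔾 → L) p.2 - (F : 𝔾 → L) k)) (𝓝 (t, k)) (𝓝 0) := by
      rw [tendsto_zero_iff_norm_tendsto_zero]
      simp only [LinearIsometryEquiv.norm_map]
      rw [← tendsto_zero_iff_norm_tendsto_zero]
      have h3 : Tendsto (fun p : 𝕊 × 𝔾 => (F : 𝔾 → L) p.2) (𝓝 (t, k)) (𝓝 ((F : 𝔾 → L) k)) :=
        (F.2.1.comp continuous_snd).tendsto (t, k)
      have h4 := h3.sub_const ((F : 𝔾 → L) k)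
      rwa [sub_self] at h4
    have h3 : Tendsto (fun p : 𝕊 × 𝔾 => ρ.U (p.1)⁻¹ ((F : 𝔾 → L) k)) (𝓝 (t, k)) (𝓝 (ρ.U t⁻¹ ((F : 𝔾 → L) k))) :=
      ((ρ.cont _).comp continuous_fst.inv).tendsto (t, k)
    have h4 := h2.add h3
    rw [zero_add] at h4
    refine h4.congr fun p => ?_
    rw [map_sub, sub_add_cancel]
  refine ⟨(fun p : 𝕊 × 𝔾 => ρ.U (p.1)⁻¹ ((F : 𝔾 → L) p.2)) '' (D ×ˢ geo.K), (hD.prod geo.Kc).image h1, fun g hg => ?_⟩
  refine ⟨(geo.nb (geo.r g), g * (geo.r g : 𝔾)⁻¹), ⟨hg, geo.kr g⟩, ?_⟩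
  change ρ.U (geo.nb (geo.r g))⁻¹ ((F : 𝔾 → L) (g * (geo.r g : 𝔾)⁻¹)) = _
  rw [← F.2.2, inv_mul_cancel_right]

variable {B} in
/-- If `A n → 1` strongly then `XiA (A n) → 1` weakly. -/
theorem XiA_tendsto {A : ℕ → (L →L[ℂ] L)} (hA : ∀ n, ItK 𝕂 ρ ρ (A n)) {C : ℝ} (hC : ∀ n, ‖A n‖ ≤ C)
    (h : ∀ v, Tendsto (fun n => A n v) atTop (𝓝 v)) (y z : Kt B ρ) :
    Tendsto (fun n => (inner ℂ z (XiA B (hA n) y) : ℂ)) atTop (𝓝 (inner ℂ z y)) := by
  have hC' : ∀ n, ‖XiA B (hA n)‖ ≤ C := fun n => (norm_XiA B (hA n)).trans (hC n)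
  have hC0 : 0 ≤ C := (norm_nonneg _).trans (hC 0)
  -- the case of the total vectors
  have h1 : ∀ (F' F : Sec geo ρ) (x' x : H), Tendsto (fun n => (inner ℂ (tau B F' x') (XiA B (hA n) (tau B F x)) : ℂ)) atTop
      (𝓝 (inner ℂ (tau B F' x') (tau B F x))) := by
    intro F' F x' x
    obtain ⟨D', hD'⟩ := Sec.bdd F'
    obtain ⟨D, hD⟩ := Sec.bdd F
    have hD0' : 0 ≤ D' := (norm_nonneg _).trans (hD' 1)
    have hD0 : 0 ≤ D := (norm_nonneg _).trans (hD 1)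
    set f : ℕ → 𝔾 → ℂ := fun n g => inner ℂ ((F' : 𝔾 → L) g) (A n ((F : 𝔾 → L) g) - (F : 𝔾 → L) g) with hf
    have hfb : ∀ n, Bf geo (f n) := fun n => by
      have h2 := bfI F' (apB (hA n) (ofSec F) - ofSec F)
      exact h2
    have h2 := Xi_lim B f (D' * ((C + 1) * D)) hfb (fun n g => by
      refine (norm_inner_le_norm _ _).trans (mul_le_mul (hD' g) ?_ (norm_nonneg _) hD0')
      refine (norm_sub_le _ _).trans ?_
      rw [add_mul, one_mul]
      refine add_le_add (((A n).le_of_opNorm_le (hC n) _).trans (mul_le_mul_of_nonneg_left (hD g) hC0)) (hD g))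
      (fun E hE ε hε => by
        obtain ⟨V, hV, hV'⟩ := compact_values F hE
        have h3 := tendsto_compact (fun n => A n - ContinuousLinearMap.id ℂ L) (C := C + 1) (fun n => by
          refine (norm_sub_le _ _).trans (add_le_add (hC n) ContinuousLinearMap.norm_id_le)) (fun v => by
          have h4 := (h v).sub_const v
          rw [sub_self] at h4
          exact h4) hV (ε := ε / (D' + 1)) (by positivity)
        filter_upwards [h3] with n hn g hg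
        refine (norm_inner_le_norm _ _).trans ?_
        have h5 := hn _ (hV' g hg)
        have h6 : ‖A n ((F : 𝔾 → L) g) - (F : 𝔾 → L) g‖ ≤ ε / (D' + 1) := h5
        calc ‖(F' : 𝔾 → L) g‖ * ‖A n ((F : 𝔾 → L) g) - (F : 𝔾 → L) g‖ ≤ D' * (ε / (D' + 1)) :=
              mul_le_mul (hD' g) h6 (norm_nonneg _) hD0'
          _ ≤ (D' + 1) * (ε / (D' + 1)) := mul_le_mul_of_nonneg_right (by linarith) (by positivity)
          _ = ε := by field_simp) x
    have h3 : Tendsto (fun n => (inner ℂ x' (B.Xi (f n) x) : ℂ)) atTop (𝓝 (inner ℂ x' (0 : H))) :=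
      (continuous_const.inner continuous_id).tendsto _ |>.comp h2
    rw [inner_zero_right] at h3
    have h4 := h3.add_const (inner ℂ (tau B F' x') (tau B F x) : ℂ)
    rw [zero_add] at h4
    refine h4.congr fun n => ?_
    rw [inner_XiA, inner_tau, ← inner_add_right, ← (PM.xi B).add _ _ (hfb n) (Sec.inner_yf F' F).bf]
    congr 3
    funext g
    simp only [hf]
    rw [← inner_add_right, sub_add_cancel]
  -- all `y`
  have h2 : ∀ (F' : Sec geo ρ) (x' : H) (y : Kt B ρ), Tendsto (fun n => (inner ℂ (tau B F' x') (XiA B (hA n) y) : ℂ)) atTop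
      (𝓝 (inner ℂ (tau B F' x') y)) := by
    intro F' x' y
    refine tendsto_tot (tot_tau B ρ) (fun n => (innerSL ℂ (tau B F' x')).comp (XiA B (hA n))) (innerSL ℂ (tau B F' x'))
      (C := ‖tau B F' x'‖ * C) (fun n => ?_) (fun p => h1 F' p.1 x' p.2) y
    refine (ContinuousLinearMap.opNorm_comp_le _ _).trans ?_
    rw [innerSL_apply_norm]
    exact mul_le_mul_of_nonneg_left (hC' n) (norm_nonneg _)
  -- all `z`
  have h3 : Tendsto (fun n => (inner ℂ (XiA B (hA n) y) z : ℂ)) atTop (𝓝 (inner ℂ y z)) := by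
    refine tendsto_tot (tot_tau B ρ) (fun n => innerSL ℂ (XiA B (hA n) y)) (innerSL ℂ y) (C := C * ‖y‖) (fun n => ?_)
      (fun p => ?_) z
    · rw [innerSL_apply_norm]
      exact (XiA B (hA n)).le_of_opNorm_le (hC' n) y
    · have h4 := (Complex.continuous_conj.tendsto _).comp (h2 p.1 p.2 y)
      rw [inner_conj_symm] at h4
      refine h4.congr fun n => ?_
      exact inner_conj_symm _ _
  have h4 := (Complex.continuous_conj.tendsto _).comp h3
  rw [inner_conj_symm] at h4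
  refine h4.congr fun n => ?_
  exact inner_conj_symm _ _

end Lim

end Pool.Agent.Helper89.FP
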