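import Pool.Agent.Helper35.FP.JB
import Pool.Agent.Helper16.FP.Vac

/-!
# Project TZ, block JB (part): integrability of `aw w`, non-vanishing

`T h = v (· h)` in the Banach space of bounded continuous functions on `𝕂 \ 𝕊`, `h ↦ T h` is continuous (`v` has compact support); `Λ v = aw v` is linear and contractive, so
`∫_{C'} aw (v (· h)) dh = Λ (∫_{C'} T h dh)` has norm `≤ ‖v‖₁` for each compact set `C'`.
-/

set_option autoImplicit false
set_option linter.unusedSectionVars false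

open Filter Topology MeasureTheory
open scoped BoundedContinuousFunction ENNReal Pointwise

namespace Pool.Agent.Helper89.FP

open Pool.Agent.Helper35.FP

variable {𝔾 𝕊 : Type} [Group 𝔾] [TopologicalSpace 𝔾] [IsTopologicalGroup 𝔾] [Group 𝕊] [TopologicalSpace 𝕊] [IsTopologicalGroup 𝕊]
  {𝕂 : Subgroup 𝕊} {geo : Geo 𝔾 𝕊 𝕂} {G S' H U : Type} [Group G] [Group S'] [TopologicalSpace S'] [IsTopologicalGroup S']
  [NormedAddCommGroup H] [InnerProductSpace ℂ H] [CompleteSpace H]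
  [NormedAddCommGroup U] [InnerProductSpace ℂ U] [CompleteSpace U]

/-- the invariant functions -/
def InvK (𝕂 : Subgroup 𝕊) : Submodule ℂ (𝕊 →ᵇ ℂ) where
  carrier := {f | ∀ k ∈ 𝕂, ∀ s, f (k * s) = f s}
  add_mem' := fun {a b} ha hb k hk s => by
    rw [BoundedContinuousFunction.add_apply, BoundedContinuousFunction.add_apply, ha k hk, hb k hk]
  zero_mem' := fun k _ s => rfl
  smul_mem' := fun c a ha k hk s => by
    change c • a (k * s) = c • a s
    rw [ha k hk]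

instance completeInvK : CompleteSpace (InvK 𝕂) := by
  have h1 : IsClosed ((InvK 𝕂 : Submodule ℂ (𝕊 →ᵇ ℂ)) : Set (𝕊 →ᵇ ℂ)) := by
    change IsClosed {f : 𝕊 →ᵇ ℂ | ∀ k ∈ 𝕂, ∀ s, f (k * s) = f s}
    simp only [Set.ofPred_forall]
    refine isClosed_iInter fun k => isClosed_iInter fun _ => isClosed_iInter fun s => ?_
    exact isClosed_eq (BoundedContinuousFunction.evalCLM ℂ (k * s)).continuous (BoundedContinuousFunction.evalCLM ℂ s).continuous
  exact h1.completeSpace_coe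

/-- an invariant function as an element of `KW` -/
noncomputable def toKW (f : InvK 𝕂) : KW 𝕂 := ⟨fun s => (f : 𝕊 →ᵇ ℂ) s, (f : 𝕊 →ᵇ ℂ).continuous, fun k hk s => f.2 k hk s,
  ‖(f : 𝕊 →ᵇ ℂ)‖, norm_nonneg _, fun s => (f : 𝕊 →ᵇ ℂ).norm_coe_le_norm s⟩

/-- an element of `KW` as an invariant function -/
noncomputable def ofKW (v : KW 𝕂) : InvK 𝕂 :=
  ⟨BoundedContinuousFunction.ofNormedAddCommGroup v.w v.cont v.bdd.choose v.bdd.choose_spec.2, fun k hk s => v.inv k hk s⟩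

theorem toKW_ofKW (v : KW 𝕂) : toKW (ofKW v) = v := rfl

theorem ofKW_apply (v : KW 𝕂) (s : 𝕊) : ((ofKW v : InvK 𝕂) : 𝕊 →ᵇ ℂ) s = v.w s := rfl

theorem continuous_ofKW_tr [LocallyCompactSpace 𝕊] (v : KW 𝕂) (hv : HasCompactSupport v.w) : Continuous fun h => ofKW (v.tr h) := by
  rw [continuous_iff_continuousAt]
  intro h₀
  obtain ⟨N, hN, hN'⟩ := exists_compact_mem_nhds h₀
  set D : Set 𝕊 := (fun p : 𝕊 × 𝕊 => p.1 * (p.2)⁻¹) '' (tsupport v.w ×ˢ N) with hD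
  have hDc : IsCompact D := (hv.isCompact.prod hN).image (by fun_prop)
  have hz : ∀ h ∈ N, ∀ s, s ∉ D → v.w (s * h) = 0 := by
    intro h hh s hs
    by_contra h1
    exact hs ⟨(s * h, h), ⟨subset_tsupport _ (Function.mem_support.2 h1), hh⟩, mul_inv_cancel_right _ _⟩
  let φ : C(𝕊 × 𝕊, ℂ) := ⟨fun p => v.w (p.2 * p.1), v.cont.comp (continuous_snd.mul continuous_fst)⟩
  have h1 := (φ.curry.continuous.tendsto h₀)
  rw [ContinuousMap.tendsto_iff_forall_isCompact_tendstoUniformlyOn] at h1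
  have h2 := Metric.tendstoUniformlyOn_iff.1 (h1 D hDc)
  change Tendsto (fun h => ofKW (v.tr h)) (𝓝 h₀) (𝓝 (ofKW (v.tr h₀)))
  rw [Metric.tendsto_nhds]
  intro ε hε
  filter_upwards [h2 (ε / 2) (by positivity), hN'] with h hh hhN
  have h3 : dist (ofKW (v.tr h)) (ofKW (v.tr h₀)) ≤ ε / 2 := by
    rw [Subtype.dist_eq, BoundedContinuousFunction.dist_le (by positivity)]
    intro s
    rw [ofKW_apply, ofKW_apply]
    by_cases hs : s ∈ D
    · rw [dist_comm]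
      exact (hh s hs).le
    · change dist (v.w (s * h)) (v.w (s * h₀)) ≤ _
      rw [hz h hhN s hs, hz h₀ (mem_of_mem_nhds hN') s hs, dist_self]
      positivity
  linarith

variable [MeasurableSpace 𝕊] [BorelSpace 𝕊]
  [SecondCountableTopology 𝕊] [LocallyCompactSpace 𝕊] [T2Space 𝕊] (μ : Measure 𝕊) [μ.IsHaarMeasure] [μ.IsMulRightInvariant]

theorem mw_ext {w : KW 𝕂} {f g : Lp ℂ 2 μ} (h : (g : 𝕊 → ℂ) =ᵐ[μ] fun s => w.w s * (f : 𝕊 → ℂ) s) : mw μ w f = g :=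
  Lp.ext ((mw_apply μ w f).trans h.symm)

theorem mw_add (u v : InvK 𝕂) (f : Lp ℂ 2 μ) : mw μ (toKW (u + v)) f = mw μ (toKW u) f + mw μ (toKW v) f := by
  refine mw_ext μ ?_
  filter_upwards [Lp.coeFn_add (mw μ (toKW u) f) (mw μ (toKW v) f), mw_apply μ (toKW u) f, mw_apply μ (toKW v) f] with s h1 h2 h3
  rw [h1, Pi.add_apply, h2, h3]
  change _ = ((u : 𝕊 →ᵇ ℂ) s + (v : 𝕊 →ᵇ ℂ) s) * _
  rw [add_mul]
  rfl

theorem mw_smul (c : ℂ) (u : InvK 𝕂) (f : Lp ℂ 2 μ) : mw μ (toKW (c • u)) f = c • mw μ (toKW u) f := by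
  refine mw_ext μ ?_
  filter_upwards [Lp.coeFn_smul c (mw μ (toKW u) f), mw_apply μ (toKW u) f] with s h1 h2
  rw [h1, Pi.smul_apply, h2, smul_eq_mul]
  change _ = (c * (u : 𝕊 →ᵇ ℂ) s) * _
  rw [mul_assoc]
  rfl

variable (B : BD geo G S' H U)

/-- `Λ v = aw v` -/
noncomputable def Lam : InvK 𝕂 →L[ℂ] (Kt B (lam μ) →L[ℂ] Kt B (lam μ)) :=
  LinearMap.mkContinuous
    { toFun := fun u => aw μ B (toKW u)
      map_add' := fun u v => ContinuousLinearMap.ext fun y =>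
        XiA_add B (mw_ItK μ _) (mw_ItK μ _) (mw_ItK μ _) (fun f => mw_add μ u v f) y
      map_smul' := fun c u => ContinuousLinearMap.ext fun y =>
        XiA_smul B (mw_ItK μ _) (mw_ItK μ _) c (fun f => mw_smul μ c u f) y } 1 (fun u => by
    rw [one_mul]
    exact norm_aw μ B (toKW u) (norm_nonneg _) fun s => (u : 𝕊 →ᵇ ℂ).norm_coe_le_norm s)

theorem Lam_apply (u : InvK 𝕂) : Lam μ B u = aw μ B (toKW u) := rfl

theorem norm_Lam : ‖Lam μ B‖ ≤ 1 := LinearMap.mkContinuous_norm_le _ zero_le_one _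

theorem norm_setIntegral_ofKW (v : KW 𝕂) (hv : HasCompactSupport v.w) {D : Set 𝕊} (hD : IsCompact D) :
    ‖∫ h in D, ofKW (v.tr h) ∂μ‖ ≤ ∫ s, ‖v.w s‖ ∂μ := by
  have hc := continuous_ofKW_tr v hv
  have hi : Integrable (fun h => ofKW (v.tr h)) (μ.restrict D) := hc.continuousOn.integrableOn_compact hD
  have hM : 0 ≤ ∫ s, ‖v.w s‖ ∂μ := integral_nonneg fun _ => norm_nonneg _
  rw [Submodule.coe_norm, BoundedContinuousFunction.norm_le hM]
  intro s
  set e : InvK 𝕂 →L[ℂ] ℂ := (BoundedContinuousFunction.evalCLM ℂ s).comp (InvK 𝕂).subtypeL with he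
  have h1 : (((∫ h in D, ofKW (v.tr h) ∂μ : InvK 𝕂) : 𝕊 →ᵇ ℂ) s) = ∫ h in D, v.w (s * h) ∂μ := by
    have h2 := e.integral_comp_comm hi
    exact h2.symm
  rw [h1]
  have h3 : Integrable (fun h => ‖v.w (s * h)‖) μ := by
    have h4 : Continuous fun h => ‖v.w (s * h)‖ := by
      have := v.cont
      fun_prop
    have h5 : HasCompactSupport fun h => ‖v.w (s * h)‖ :=
      (hv.comp_homeomorph (Homeomorph.mulLeft s)).norm
    exact h4.integrable_of_hasCompactSupport h5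
  refine (norm_integral_le_integral_norm _).trans ?_
  refine (setIntegral_le_integral h3 (ae_of_all _ fun _ => norm_nonneg _)).trans ?_
  exact (integral_mul_left_eq_self (fun h => ‖v.w h‖) s).le

/-- Integrability. -/
theorem lintegral_aw (w : KW 𝕂) (hw : HasCompactSupport w.w) : ∃ C : ENNReal, C ≠ ⊤ ∧ ∀ y : Kt B (lam μ),
    ∫⁻ h, ‖WW μ B h (aw μ B w (WW μ B h⁻¹ y))‖ₑ ^ 2 ∂μ ≤ C * ‖y‖ₑ ^ 2 := by
  -- `v = |w|²`
  let v : KW 𝕂 := ⟨fun s => (starRingEnd ℂ) (w.w s) * w.w s, (Complex.continuous_conj.comp w.cont).mul w.cont,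
    fun k hk s => by rw [w.inv k hk], by
      obtain ⟨C, h0, hC⟩ := w.bdd
      refine ⟨C * C, mul_nonneg h0 h0, fun s => ?_⟩
      rw [norm_mul, RCLike.norm_conj]
      exact mul_le_mul (hC s) (hC s) (norm_nonneg _) h0⟩
  have hv : HasCompactSupport v.w := by
    have : v.w = (fun s => (starRingEnd ℂ) (w.w s)) * w.w := rfl
    rw [this]
    exact hw.mul_left
  set M : ℝ := ∫ s, ‖v.w s‖ ∂μ with hM
  have hM0 : 0 ≤ M := integral_nonneg fun _ => norm_nonneg _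
  refine ⟨ENNReal.ofReal M, ENNReal.ofReal_ne_top, fun y => ?_⟩
  have h1 : ∀ h, WW μ B h (aw μ B w (WW μ B h⁻¹ y)) = aw μ B (w.tr h) y := by
    intro h
    rw [WW_aw]
    have h2 : (WW μ B h * WW μ B h⁻¹) y = y := by rw [← map_mul, mul_inv_cancel, map_one]; rfl
    exact congrArg _ h2
  have h2 : ∀ h, ‖aw μ B (w.tr h) y‖ ^ 2 ≤ (inner ℂ y (aw μ B (v.tr h) y) : ℂ).re := by
    intro h
    refine XiA_sq B (mw_ItK μ (w.tr h)) (mw_ItK μ (v.tr h)) (fun f g => ?_) y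
    rw [L2.inner_def, L2.inner_def]
    refine integral_congr_ae ?_
    filter_upwards [mw_apply μ (w.tr h) f, mw_apply μ (w.tr h) g, mw_apply μ (v.tr h) g] with s h3 h4 h5
    rw [h3, h4, h5]
    simp only [RCLike.inner_apply, map_mul]
    change w.w (s * h) * (g : 𝕊 → ℂ) s * ((starRingEnd ℂ) (w.w (s * h)) * (starRingEnd ℂ) ((f : 𝕊 → ℂ) s)) =
      (starRingEnd ℂ) (w.w (s * h)) * w.w (s * h) * (g : 𝕊 → ℂ) s * (starRingEnd ℂ) ((f : 𝕊 → ℂ) s)
    ring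
  have hc := continuous_ofKW_tr v hv
  have key : ∀ D : Set 𝕊, IsCompact D → ∫⁻ h in D, ‖WW μ B h (aw μ B w (WW μ B h⁻¹ y))‖ₑ ^ 2 ∂μ ≤
      ENNReal.ofReal M * ‖y‖ₑ ^ 2 := by
    intro D hD
    have hi : Integrable (fun h => ofKW (v.tr h)) (μ.restrict D) := hc.continuousOn.integrableOn_compact hD
    -- the real integral
    set ψ : (InvK 𝕂) →L[ℂ] ℂ := (innerSL ℂ y).comp ((ContinuousLinearMap.apply ℂ (Kt B (lam μ)) y).comp (Lam μ B)) with hψ
    have hψi : Integrable (fun h => ψ (ofKW (v.tr h))) (μ.restrict D) := ψ.integrable_comp hi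
    have hψe : ∀ h, ψ (ofKW (v.tr h)) = inner ℂ y (aw μ B (v.tr h) y) := fun h => rfl
    have hψn : ‖∫ h in D, ψ (ofKW (v.tr h)) ∂μ‖ ≤ M * ‖y‖ ^ 2 := by
      rw [ψ.integral_comp_comm hi]
      have h3 : ψ (∫ h in D, ofKW (v.tr h) ∂μ) = inner ℂ y (Lam μ B (∫ h in D, ofKW (v.tr h) ∂μ) y) := rfl
      rw [h3]
      refine (norm_inner_le_norm _ _).trans ?_
      have h4 := (Lam μ B (∫ h in D, ofKW (v.tr h) ∂μ)).le_opNorm y
      have h5 := (Lam μ B).le_of_opNorm_le (norm_Lam μ B) (∫ h in D, ofKW (v.tr h) ∂μ)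
      have h6 := norm_setIntegral_ofKW μ v hv hD
      rw [one_mul] at h5
      calc ‖y‖ * ‖Lam μ B (∫ h in D, ofKW (v.tr h) ∂μ) y‖ ≤ ‖y‖ * (M * ‖y‖) :=
            mul_le_mul_of_nonneg_left (h4.trans (mul_le_mul_of_nonneg_right (h5.trans h6) (norm_nonneg _))) (norm_nonneg _)
        _ = _ := by ring
    have hre : Integrable (fun h => (ψ (ofKW (v.tr h))).re) (μ.restrict D) := hψi.re
    have hre0 : 0 ≤ᵐ[μ.restrict D] fun h => (ψ (ofKW (v.tr h))).re := ae_of_all _ fun h => (sq_nonneg _).trans (h2 h)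
    calc ∫⁻ h in D, ‖WW μ B h (aw μ B w (WW μ B h⁻¹ y))‖ₑ ^ 2 ∂μ ≤ ∫⁻ h in D, ENNReal.ofReal (ψ (ofKW (v.tr h))).re ∂μ := by
          refine lintegral_mono fun h => ?_
          simp only
          rw [h1 h, ← ofReal_norm, ← ENNReal.ofReal_pow (norm_nonneg _)]
          exact ENNReal.ofReal_le_ofReal (h2 h)
      _ = ENNReal.ofReal (∫ h in D, (ψ (ofKW (v.tr h))).re ∂μ) := (ofReal_integral_eq_lintegral_ofReal hre hre0).symm
      _ ≤ ENNReal.ofReal (M * ‖y‖ ^ 2) := by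
          refine ENNReal.ofReal_le_ofReal ?_
          have h7 : ∫ h in D, (ψ (ofKW (v.tr h))).re ∂μ = (∫ h in D, ψ (ofKW (v.tr h)) ∂μ).re := by
            have := integral_re hψi
            exact this
          rw [h7]
          exact (Complex.re_le_norm _).trans hψn
      _ = ENNReal.ofReal M * ‖y‖ₑ ^ 2 := by
          rw [ENNReal.ofReal_mul hM0, ENNReal.ofReal_pow (norm_nonneg _), ofReal_norm]
  set E := CompactExhaustion.choice 𝕊 with hE
  have h3 : ⋃ n, E n = Set.univ := E.iUnion_eq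
  rw [← setLIntegral_univ, ← h3, setLIntegral_iUnion_of_directed]
  · exact iSup_le fun n => key _ (E.isCompact n)
  · exact directed_of_isDirected_le fun m n hmn => E.subset hmn

omit [MeasurableSpace 𝕊] [BorelSpace 𝕊] [SecondCountableTopology 𝕊] in
/-- bump functions on `𝕂 \ 𝕊` -/
theorem exists_bump (hK : IsCompact (𝕂 : Set 𝕊)) {D : Set 𝕊} (hD : IsCompact D) :
    ∃ w : KW 𝕂, HasCompactSupport w.w ∧ (∀ s, ‖w.w s‖ ≤ 1) ∧ ∀ s ∈ D, w.w s = 1 := by
  obtain ⟨f, hf1, -, hfc, hf⟩ := exists_continuous_one_zero_of_isCompact hD isClosed_empty (Set.disjoint_empty D)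
  set w₀ : 𝕊 → ℝ := fun s => sSup ((fun k => f (k * s)) '' (𝕂 : Set 𝕊)) with hw₀
  have hcont : Continuous w₀ := by
    refine IsCompact.continuous_sSup (f := fun s k => f (k * s)) hK ?_
    exact f.continuous.comp (continuous_snd.mul continuous_fst)
  have hne : (𝕂 : Set 𝕊).Nonempty := ⟨1, 𝕂.one_mem⟩
  have hbdd : ∀ s, BddAbove ((fun k => f (k * s)) '' (𝕂 : Set 𝕊)) := fun s => ⟨1, by
    rintro _ ⟨k, -, rfl⟩
    exact (hf _).2⟩
  have h0 : ∀ s, 0 ≤ w₀ s := fun s =>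
    (hf (1 * s)).1.trans (le_csSup (hbdd s) ⟨1, 𝕂.one_mem, rfl⟩)
  have h1 : ∀ s, w₀ s ≤ 1 := fun s => csSup_le (hne.image _) (by
    rintro _ ⟨k, -, rfl⟩
    exact (hf _).2)
  have hinv : ∀ k ∈ 𝕂, ∀ s, w₀ (k * s) = w₀ s := by
    intro k hk s
    simp only [hw₀]
    congr 1
    ext z
    constructor
    · rintro ⟨k', hk', rfl⟩
      exact ⟨k' * k, 𝕂.mul_mem hk' hk, by simp only [mul_assoc]⟩
    · rintro ⟨k', hk', rfl⟩
      exact ⟨k' * k⁻¹, 𝕂.mul_mem hk' (𝕂.inv_mem hk), by simp only [mul_assoc, inv_mul_cancel_left]⟩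
  have hsupp : HasCompactSupport w₀ := by
    have h2 : IsCompact ((fun p : 𝕊 × 𝕊 => (p.1)⁻¹ * p.2) '' ((𝕂 : Set 𝕊) ×ˢ tsupport f)) :=
      (hK.prod hfc.isCompact).image (by fun_prop)
    refine HasCompactSupport.intro h2 fun s hs => ?_
    have h3 : ∀ k ∈ (𝕂 : Set 𝕊), f (k * s) = 0 := by
      intro k hk
      by_contra h4
      exact hs ⟨(k, k * s), ⟨hk, subset_tsupport _ (Function.mem_support.2 h4)⟩, inv_mul_cancel_left _ _⟩
    have h4 : (fun k => f (k * s)) '' (𝕂 : Set 𝕊) = {0} := by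
      ext z
      constructor
      · rintro ⟨k, hk, rfl⟩
        exact h3 k hk
      · rintro rfl
        exact ⟨1, 𝕂.one_mem, h3 1 𝕂.one_mem⟩
    simp only [hw₀]
    rw [h4, csSup_singleton]
  refine ⟨⟨fun s => (w₀ s : ℂ), Complex.continuous_ofReal.comp hcont, fun k hk s => by rw [hinv k hk],
    1, zero_le_one, fun s => by rw [Complex.norm_real, Real.norm_of_nonneg (h0 s)]; exact h1 s⟩, ?_, ?_, ?_⟩
  · exact hsupp.comp_left (g := fun x : ℝ => (x : ℂ)) Complex.ofReal_zero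
  · intro s
    change ‖(w₀ s : ℂ)‖ ≤ 1
    rw [Complex.norm_real, Real.norm_of_nonneg (h0 s)]
    exact h1 s
  · intro s hs
    change (w₀ s : ℂ) = 1
    have h2 : w₀ s = 1 := by
      refine le_antisymm (h1 s) ?_
      have h3 : f (1 * s) ≤ w₀ s := le_csSup (hbdd s) ⟨1, 𝕂.one_mem, rfl⟩
      rw [one_mul, hf1 hs] at h3
      exact h3
    rw [h2, Complex.ofReal_one]

theorem mw_tendsto {w : ℕ → KW 𝕂} (h1 : ∀ n s, ‖(w n).w s‖ ≤ 1) (h : ∀ s, Tendsto (fun n => (w n).w s) atTop (𝓝 1))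
    (f : Lp ℂ 2 μ) : Tendsto (fun n => mw μ (w n) f) atTop (𝓝 f) := by
  have hn : ∀ n, ‖mw μ (w n) f‖ ≤ ‖f‖ := fun n => by
    have := (mw μ (w n)).le_of_opNorm_le (norm_mw μ (w n) zero_le_one (h1 n)) f
    rwa [one_mul] at this
  -- weak convergence
  have hf2 : Integrable (fun s => (inner ℂ ((f : 𝕊 → ℂ) s) ((f : 𝕊 → ℂ) s) : ℂ)) μ := L2.integrable_inner f f
  have hw : Tendsto (fun n => (inner ℂ f (mw μ (w n) f) : ℂ)) atTop (𝓝 (inner ℂ f f)) := by
    have h2 : ∀ n, (inner ℂ f (mw μ (w n) f) : ℂ) = ∫ s, (w n).w s * inner ℂ ((f : 𝕊 → ℂ) s) ((f : 𝕊 → ℂ) s) ∂μ := by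
      intro n
      rw [L2.inner_def]
      refine integral_congr_ae ?_
      filter_upwards [mw_apply μ (w n) f] with s h3
      rw [h3]
      simp only [RCLike.inner_apply]
      ring
    simp only [h2]
    have h3 : (inner ℂ f f : ℂ) = ∫ s, 1 * inner ℂ ((f : 𝕊 → ℂ) s) ((f : 𝕊 → ℂ) s) ∂μ := by
      rw [L2.inner_def]
      simp only [one_mul]
    rw [h3]
    refine tendsto_integral_of_dominated_convergence (fun s => ‖(inner ℂ ((f : 𝕊 → ℂ) s) ((f : 𝕊 → ℂ) s) : ℂ)‖) ?_ hf2.norm ?_ ?_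
    · intro n
      exact (w n).cont.aestronglyMeasurable.mul hf2.aestronglyMeasurable
    · intro n
      refine ae_of_all _ fun s => ?_
      rw [norm_mul]
      exact mul_le_of_le_one_left (norm_nonneg _) (h1 n s)
    · exact ae_of_all _ fun s => (h s).mul_const _
  rw [tendsto_iff_norm_sub_tendsto_zero]
  have h4 : Tendsto (fun n => ‖mw μ (w n) f - f‖ ^ 2) atTop (𝓝 0) := by
    have h5 : ∀ n, ‖mw μ (w n) f - f‖ ^ 2 ≤ 2 * ‖f‖ ^ 2 - 2 * (inner ℂ f (mw μ (w n) f) : ℂ).re := by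
      intro n
      rw [@norm_sub_sq ℂ]
      have h6 : RCLike.re (inner ℂ (mw μ (w n) f) f : ℂ) = (inner ℂ f (mw μ (w n) f) : ℂ).re := by
        rw [← inner_conj_symm, RCLike.conj_re]
        rfl
      rw [h6]
      have := pow_le_pow_left₀ (norm_nonneg _) (hn n) 2
      linarith
    have h7 : Tendsto (fun n => 2 * ‖f‖ ^ 2 - 2 * (inner ℂ f (mw μ (w n) f) : ℂ).re) atTop (𝓝 (2 * ‖f‖ ^ 2 - 2 * (inner ℂ f f : ℂ).re)) :=
      (((Complex.continuous_re.tendsto _).comp hw).const_mul 2).const_sub _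
    have h8 : (inner ℂ f f : ℂ).re = ‖f‖ ^ 2 := inner_self_eq_norm_sq (𝕜 := ℂ) f
    rw [h8, sub_self] at h7
    exact squeeze_zero (fun n => sq_nonneg _) h5 h7
  have h5 := h4.sqrt
  simp only [Real.sqrt_sq (norm_nonneg _), Real.sqrt_zero] at h5
  exact h5

/-- Some `aw w` does not vanish. -/
theorem exists_aw_ne (hK : IsCompact (𝕂 : Set 𝕊)) [Nontrivial (Kt B (lam μ))] :
    ∃ w : KW 𝕂, HasCompactSupport w.w ∧ aw μ B w ≠ 0 := by
  by_contra hcon
  push Not at hcon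
  set E := CompactExhaustion.choice 𝕊 with hE
  choose w hw1 hw2 hw3 using fun n => exists_bump (𝕂 := 𝕂) hK (E.isCompact n)
  have hlim : ∀ s, Tendsto (fun n => (w n).w s) atTop (𝓝 1) := by
    intro s
    have h1 : ∀ᶠ n in atTop, (w n).w s = 1 := by
      filter_upwards [eventually_ge_atTop (E.find s)] with n hn
      exact hw3 n s (E.subset hn (E.mem_find s))
    exact tendsto_const_nhds.congr' (h1.mono fun n hn => hn.symm)
  have hid : ItK 𝕂 (lam μ) (lam μ) (ContinuousLinearMap.id ℂ (Lp ℂ 2 μ)) := fun h _ x => rfl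
  obtain ⟨y, hy⟩ := exists_ne (0 : Kt B (lam μ))
  have h1 := XiA_lim B (fun n => mw μ (w n)) (A' := ContinuousLinearMap.id ℂ (Lp ℂ 2 μ)) (fun n => mw_ItK μ (w n)) hid (C := 1)
    (fun n => norm_mw μ (w n) zero_le_one (hw2 n)) (fun f => mw_tendsto μ hw2 hlim f) y y
  rw [XiA_id B hid] at h1
  have h2 : ∀ n, XiA B (mw_ItK μ (w n)) y = 0 := fun n => by
    have := hcon (w n) (hw1 n)
    exact congrArg (fun A : Kt B (lam μ) →L[ℂ] Kt B (lam μ) => A y) this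
  simp only [h2, inner_zero_right] at h1
  have h3 := tendsto_nhds_unique h1 tendsto_const_nhds
  exact hy (inner_self_eq_zero.1 h3)

theorem nontrivial_Kt (hK : IsCompact (𝕂 : Set 𝕊)) : Nontrivial (Kt B (lam μ)) := by
  obtain ⟨D, hD, hD1⟩ := exists_compact_mem_nhds (1 : 𝕊)
  set S : Set 𝕊 := (𝕂 : Set 𝕊) * D with hS
  have hSc : IsCompact S := hK.mul hD
  have hSm : MeasurableSet S := hSc.measurableSet
  have hS0 : μ S ≠ 0 := by
    have h1 : D ⊆ S := fun d hd => ⟨1, 𝕂.one_mem, d, hd, one_mul d⟩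
    exact ((Measure.measure_pos_of_mem_nhds μ hD1).trans_le (measure_mono h1)).ne'
  have hSf : μ S ≠ ⊤ := hSc.measure_lt_top.ne
  set v : Lp ℂ 2 μ := indicatorConstLp 2 hSm hSf (1 : ℂ) with hv
  have hv0 : v ≠ 0 := by
    intro h0
    have h1 := norm_indicatorConstLp (p := 2) (hs := hSm) (hμs := hSf) (c := (1 : ℂ)) (by norm_num) (by norm_num)
    rw [← hv, h0, norm_zero, norm_one, one_mul] at h1
    have h2 : 0 < μ.real S := ENNReal.toReal_pos hS0 hSf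
    have h3 : 0 < μ.real S ^ (1 / ENNReal.toReal 2) := Real.rpow_pos_of_pos h2 _
    exact h3.ne h1
  have hfix : ∀ k ∈ 𝕂, (lam μ).U k v = v := by
    intro k hk
    refine Lp.ext ?_
    have h1 := ind_apply μ (triv ℂ) k v
    have h2 : (v : 𝕊 → ℂ) =ᵐ[μ] S.indicator fun _ => (1 : ℂ) := indicatorConstLp_coeFn
    have h3 : (fun h => (v : 𝕊 → ℂ) (k⁻¹ * h)) =ᵐ[μ] fun h => S.indicator (fun _ => (1 : ℂ)) (k⁻¹ * h) :=
      (quasiMeasurePreserving_mul_left μ k⁻¹).ae_eq h2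
    filter_upwards [h1, h2, h3] with h e1 e2 e3
    have e4 : ((lam μ).U k v : 𝕊 → ℂ) h = (v : 𝕊 → ℂ) (k⁻¹ * h) := e1
    have e5 : (v : 𝕊 → ℂ) (k⁻¹ * h) = S.indicator (fun _ => (1 : ℂ)) (k⁻¹ * h) := e3
    rw [e4, e5, e2]
    have e6 : k⁻¹ * h ∈ S ↔ h ∈ S := by
      constructor
      · rintro ⟨k', hk', d, hd, e⟩
        exact ⟨k * k', 𝕂.mul_mem hk hk', d, hd, by simp only at e ⊢; rw [mul_assoc, e, mul_inv_cancel_left]⟩
      · rintro ⟨k', hk', d, hd, e⟩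
        exact ⟨k⁻¹ * k', 𝕂.mul_mem (𝕂.inv_mem hk) hk', d, hd, by simp only at e ⊢; rw [mul_assoc, e]⟩
    by_cases hh : h ∈ S
    · rw [Set.indicator_of_mem hh, Set.indicator_of_mem (e6.2 hh)]
    · rw [Set.indicator_of_notMem hh, Set.indicator_of_notMem (fun h' => hh (e6.1 h'))]
  have := B.nontriv
  obtain ⟨x, hx⟩ := exists_ne (0 : H)
  have h1 := Pool.Agent.Helper16.FP.norm_tau_Om B (lam μ) v hfix x
  refine ⟨⟨tau B (Pool.Agent.Helper16.FP.Om geo (lam μ) v hfix) x, 0, fun h0 => ?_⟩⟩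
  rw [h0, norm_zero] at h1
  have h2 : 0 < ‖v‖ * ‖x‖ := mul_pos (norm_pos_iff.2 hv0) (norm_pos_iff.2 hx)
  exact h2.ne h1

end Pool.Agent.Helper89.FP
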