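import Pool.Agent.Helper89.FP.Smooth

/-!
# Project FP (MP_0f6f3f_an): `λ`-bounded vectors are dense

`u` a unitary representation of `G`, `K` a compact subgroup, `ψ : G → [0, ∞)` with `∫ ψⁿ < ∞` for one `n`. If the `K × K`-averages of the products of two
coefficients of `u` are `O(ψ²)` (`TDecay`; for instance when `u ⊗ u` has a spherical gap, `tdecay_of`), if there is an equivariant map `τ` like a bounded
antilinear map with dense range, and a total family of equivariant bilinear maps bounded on the Hilbert tensor product, then the vectors `ξ` with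
`∫ |⟪ξ, u(g) z⟫|² dg ≤ C_ξ ‖z‖²` for all `z` are total.
-/

set_option autoImplicit false
set_option linter.unusedSectionVars false
set_option linter.style.haveILetI false

open MeasureTheory Measure ENNReal Topology ComplexConjugate Filter
open scoped NNReal

namespace Pool.Agent.Helper89.FP

open Pool.Agent.Helper9.CA (HaarOn)

variable {G : Type*} [Group G] {E : Type*} [NormedAddCommGroup E] [InnerProductSpace ℂ E] [CompleteSpace E]
variable [TopologicalSpace G] [IsTopologicalGroup G] [MeasurableSpace G] [BorelSpace G] [SecondCountableTopology G]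
variable {u : G →* (E →L[ℂ] E)} {K : Subgroup G} {ν : Measure G}

/-- the averages over `K × K` of the products of two coefficients are bounded by `ψ²` -/
def TDecay (u : G →* (E →L[ℂ] E)) (ν : Measure G) (ψ : G → ℝ≥0) : Prop :=
  ∀ (a a' b b' : E) (g : G), ‖∫ k, ∫ l, inner ℂ b (u (k⁻¹ * g * l) a) * inner ℂ b' (u (k⁻¹ * g * l) a') ∂ν ∂ν‖ ≤
    ψ g ^ 2 * (‖a‖ * ‖a'‖ * ‖b‖ * ‖b'‖)

section Avg

variable {F : Type*} [NormedAddCommGroup F] [InnerProductSpace ℂ F] [CompleteSpace F] {w : G →* (F →L[ℂ] F)}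

/-- `∫ w(k) x dν(k)` is fixed by `K` -/
theorem smooth_fixed (hw : Uni w) (hwc : ∀ x, Continuous fun g => w g x) (hν : HaarOn K ν) (x : F) {k : G} (hk : k ∈ K) :
    w k (smooth w ν (fun _ => 1) x) = smooth w ν (fun _ => 1) x := by
  have hint := integrable_smooth hw hwc hν (f := fun _ => (1 : ℂ)) continuous_const (M := 1) (by simp) x
  unfold smooth
  rw [← ContinuousLinearMap.integral_comp_comm _ hint]
  simp only [one_smul]
  have h1 : ∀ l, w k (w l x) = (fun m => w m x) (k * l) := fun l => (u_mul w k l x).symm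
  simp only [h1]
  have h2 := integral_map (μ := ν) (φ := fun l => k * l) (measurable_const_mul k).aemeasurable
    (f := fun m => w m x) ((hwc x).aestronglyMeasurable)
  rw [hν.left k hk] at h2
  exact h2.symm

theorem norm_smooth_one (hw : Uni w) (hν : HaarOn K ν) (x : F) : ‖smooth w ν (fun _ => 1) x‖ ≤ ‖x‖ := by
  haveI := hν.prob
  unfold smooth
  refine (norm_integral_le_of_norm_le_const (C := ‖x‖) (ae_of_all _ fun k => ?_)).trans ?_
  · rw [one_smul, hw.norm]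
  · simp

/-- `TDecay` from a spherical gap of `u ⊗ u` -/
theorem tdecay_of {ψ : G → ℝ≥0} (hw : Uni w) (hwc : ∀ x, Continuous fun g => w g x) (hν : HaarOn K ν) (J : E → E → F)
    (hJ : ∀ a a' b b', inner ℂ (J a a') (J b b') = inner ℂ a b * inner ℂ a' b')
    (hJw : ∀ g a a', w g (J a a') = J (u g a) (u g a'))
    (hdec : ∀ g x y, (∀ k ∈ K, w k x = x) → (∀ k ∈ K, w k y = y) → ‖inner ℂ x (w g y)‖ ≤ ψ g ^ 2 * (‖x‖ * ‖y‖)) :
    TDecay u ν ψ := by
  intro a a' b b' g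
  have h1 := coef_smooth₂ hw hwc hν (f := fun _ => (1 : ℂ)) (f' := fun _ => (1 : ℂ)) continuous_const (M := 1) (by simp)
    continuous_const (M' := 1) (by simp) (J b b') (J a a') g
  simp only [map_one, one_mul, hJw, hJ] at h1
  rw [← h1]
  have hn : ∀ x y : E, ‖J x y‖ = ‖x‖ * ‖y‖ := by
    intro x y
    have h2 := hJ x y x y
    rw [inner_self_eq_norm_sq_to_K, inner_self_eq_norm_sq_to_K, inner_self_eq_norm_sq_to_K] at h2
    have h3 : ‖J x y‖ ^ 2 = (‖x‖ * ‖y‖) ^ 2 := by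
      rw [mul_pow]
      exact_mod_cast h2
    exact (sq_eq_sq₀ (norm_nonneg _) (by positivity)).1 h3
  refine (hdec g _ _ (fun k hk => smooth_fixed hw hwc hν _ hk) (fun k hk => smooth_fixed hw hwc hν _ hk)).trans ?_
  refine mul_le_mul_of_nonneg_left ?_ (by positivity)
  calc ‖smooth w ν (fun _ => 1) (J b b')‖ * ‖smooth w ν (fun _ => 1) (J a a')‖ ≤ ‖J b b'‖ * ‖J a a'‖ :=
        mul_le_mul (norm_smooth_one hw hν _) (norm_smooth_one hw hν _) (norm_nonneg _) (norm_nonneg _)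
    _ = ‖a‖ * ‖a'‖ * ‖b‖ * ‖b'‖ := by rw [hn, hn]; ring

end Avg

section

variable (hu : Uni u) (hc : ∀ x, Continuous fun g => u g x) (hν : HaarOn K ν)

include hu hc hν

/-- the coefficient of a smoothed vector is `O(ψ)` -/
theorem coef_le {ψ : G → ℝ≥0} (hψ : TDecay u ν ψ) {τ : E → E} (hτ : ∀ g x, τ (u g x) = u g (τ x)) {a d : E}
    (hd : ∀ x, inner ℂ x a = inner ℂ d (τ x)) {f : G → ℂ} (hf : Continuous f) {M : ℝ} (hM : ∀ g, ‖f g‖ ≤ M) :
    ∃ C : ℝ≥0, ∀ g, ‖inner ℂ (smooth u ν f a) (u g (smooth u ν f a))‖₊ ≤ C * ψ g := by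
  haveI := hν.prob
  set C₀ : ℝ≥0 := ‖a‖₊ * ‖τ a‖₊ * ‖a‖₊ * ‖d‖₊ with hC₀
  have h1 : ∀ s, ((‖inner ℂ a (u s a)‖ ^ 2 : ℝ) : ℂ) = inner ℂ a (u s a) * inner ℂ d (u s (τ a)) := by
    intro s
    rw [← hτ, ← hd, ← inner_conj_symm (u s a) a, RCLike.mul_conj]
    simp
  have h2 : ∀ g, ∫⁻ k, ∫⁻ l, ‖inner ℂ a (u (k⁻¹ * g * l) a)‖ₑ ^ 2 ∂ν ∂ν ≤ ((ψ g ^ 2 * C₀ : ℝ≥0) : ℝ≥0∞) := by
    intro g
    have hcx : Continuous fun x : G => (‖(inner ℂ a (u x a) : ℂ)‖ : ℝ) ^ 2 := ((continuous_const.inner (hc a)).norm).pow 2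
    have hcq : Continuous fun q : G × G => (‖(inner ℂ a (u (q.1⁻¹ * g * q.2) a) : ℂ)‖ : ℝ) ^ 2 := hcx.comp (by fun_prop)
    have hb : ∀ s : G, ‖(‖(inner ℂ a (u s a) : ℂ)‖ : ℝ) ^ 2‖ ≤ (‖a‖ * ‖a‖) ^ 2 := by
      intro s
      rw [norm_pow, norm_norm]
      gcongr
      have := norm_inner_le_norm (𝕜 := ℂ) a (u s a)
      rwa [hu.norm] at this
    have hint : ∀ k : G, Integrable (fun l => (‖(inner ℂ a (u (k⁻¹ * g * l) a) : ℂ)‖ : ℝ) ^ 2) ν := fun k =>
      HaarOn.integrable hν (hcx.comp (continuous_const_mul (k⁻¹ * g))) _ fun l => hb _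
    have e1 : ∀ k, ∫⁻ l, ‖inner ℂ a (u (k⁻¹ * g * l) a)‖ₑ ^ 2 ∂ν =
        ENNReal.ofReal (∫ l, (‖(inner ℂ a (u (k⁻¹ * g * l) a) : ℂ)‖ : ℝ) ^ 2 ∂ν) := by
      intro k
      rw [ofReal_integral_eq_lintegral_ofReal (hint k) (ae_of_all _ fun l => sq_nonneg _)]
      refine lintegral_congr fun l => ?_
      rw [ENNReal.ofReal_pow (norm_nonneg _), ofReal_norm]
    have hint2 : Integrable (fun k => ∫ l, (‖(inner ℂ a (u (k⁻¹ * g * l) a) : ℂ)‖ : ℝ) ^ 2 ∂ν) ν := by
      refine Integrable.of_bound ?_ ((‖a‖ * ‖a‖) ^ 2) (ae_of_all _ fun k => ?_)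
      · exact (hcq.stronglyMeasurable.integral_prod_right (ν := ν)).aestronglyMeasurable
      · refine (norm_integral_le_of_norm_le_const (C := (‖a‖ * ‖a‖) ^ 2) (ae_of_all _ fun l => hb _)).trans ?_
        simp
    have e2 : ∫⁻ k, ∫⁻ l, ‖inner ℂ a (u (k⁻¹ * g * l) a)‖ₑ ^ 2 ∂ν ∂ν =
        ENNReal.ofReal (∫ k, ∫ l, (‖(inner ℂ a (u (k⁻¹ * g * l) a) : ℂ)‖ : ℝ) ^ 2 ∂ν ∂ν) := by
      rw [ofReal_integral_eq_lintegral_ofReal hint2 (ae_of_all _ fun k => integral_nonneg fun l => sq_nonneg _)]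
      exact lintegral_congr e1
    rw [e2]
    have e3 : ((∫ k, ∫ l, (‖(inner ℂ a (u (k⁻¹ * g * l) a) : ℂ)‖ : ℝ) ^ 2 ∂ν ∂ν : ℝ) : ℂ) =
        ∫ k, ∫ l, inner ℂ a (u (k⁻¹ * g * l) a) * inner ℂ d (u (k⁻¹ * g * l) (τ a)) ∂ν ∂ν := by
      rw [← integral_complex_ofReal]
      refine integral_congr_ae (ae_of_all _ fun k => ?_)
      simp only
      rw [← integral_complex_ofReal]
      exact integral_congr_ae (ae_of_all _ fun l => h1 _)
    have e4 := hψ a (τ a) a d g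
    rw [← e3, Complex.norm_real] at e4
    have e5 := (le_abs_self _).trans e4
    rw [← ENNReal.ofReal_coe_nnreal]
    refine ENNReal.ofReal_le_ofReal (e5.trans (le_of_eq ?_))
    rw [hC₀]
    push_cast
    rfl
  have h3 : ∀ g, ‖inner ℂ (smooth u ν f a) (u g (smooth u ν f a))‖₊ ^ 2 ≤ (M.toNNReal ^ 2 * NNReal.sqrt C₀ * ψ g) ^ 2 := by
    intro g
    have h4 := (norm_coef_smooth hu hc hν hf hM a g).trans (mul_le_mul' le_rfl (h2 g))
    rw [ENNReal.ofReal, enorm_eq_nnnorm] at h4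
    have h5 : ‖inner ℂ (smooth u ν f a) (u g (smooth u ν f a))‖₊ ^ 2 ≤ M.toNNReal ^ 4 * (ψ g ^ 2 * C₀) := by
      exact_mod_cast h4
    refine h5.trans (le_of_eq ?_)
    rw [mul_pow, mul_pow, NNReal.sq_sqrt]
    ring
  exact ⟨M.toNNReal ^ 2 * NNReal.sqrt C₀, fun g => (pow_le_pow_iff_left₀ bot_le bot_le two_ne_zero).1 (h3 g)⟩

omit hc hν in
/-- a set of vectors orthogonal complement argument: `y` orthogonal to `B a b` for total sets of `a`, `b` is orthogonal to all `B a b` -/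
theorem orth_all {B : E →ₗ[ℂ] E →ₗ[ℂ] E} {C : ℝ} (hB : TBound B C) {A A' : Set E}
    (hA : (Submodule.span ℂ A).topologicalClosure = ⊤) (hA' : (Submodule.span ℂ A').topologicalClosure = ⊤) {y : E}
    (hy : ∀ a ∈ A, ∀ b ∈ A', inner ℂ y (B a b) = 0) (a b : E) : inner ℂ y (B a b) = 0 := by
  have hbd : ∀ a b, ‖B a b‖ ≤ Real.sqrt C * ‖a‖ * ‖b‖ := by
    intro a b
    have h1 := hB.norm_le a b
    by_cases h0 : ‖a‖ * ‖b‖ = 0
    · have h2 : ‖B a b‖ ^ 2 ≤ 0 := by
        refine h1.trans (le_of_eq ?_)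
        rw [← mul_pow, h0]; ring
      have h3 : ‖B a b‖ = 0 := by
        have := sq_nonneg ‖B a b‖
        exact pow_eq_zero_iff two_ne_zero |>.1 (le_antisymm h2 this)
      rw [h3]
      have := Real.sqrt_nonneg C
      positivity
    · have hpos : 0 < (‖a‖ * ‖b‖) ^ 2 := by positivity
      have hC : 0 ≤ C := by
        by_contra hneg
        push Not at hneg
        have h2 : ‖B a b‖ ^ 2 < 0 := h1.trans_lt (by rw [← mul_pow]; exact mul_neg_of_neg_of_pos hneg hpos)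
        exact absurd (sq_nonneg ‖B a b‖) (not_le.2 h2)
      have h2 : ‖B a b‖ ^ 2 ≤ (Real.sqrt C * ‖a‖ * ‖b‖) ^ 2 := by
        rw [mul_pow, mul_pow, Real.sq_sqrt hC]
        linarith
      exact (sq_le_sq₀ (norm_nonneg _) (by positivity)).1 h2
  -- closedness in each variable
  have key : ∀ (φ : E →ₗ[ℂ] E) (D : ℝ), (∀ x, ‖φ x‖ ≤ D * ‖x‖) → ∀ S : Set E,
      (Submodule.span ℂ S).topologicalClosure = ⊤ → (∀ x ∈ S, inner ℂ y (φ x) = 0) → ∀ x, inner ℂ y (φ x) = 0 := by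
    intro φ D hφ S hS h x
    have hφc : Continuous φ := AddMonoidHomClass.continuous_of_bound φ D hφ
    have h1 : ∀ x ∈ Submodule.span ℂ S, inner ℂ y (φ x) = 0 := by
      intro x hx
      induction hx using Submodule.span_induction with
      | mem x hx => exact h x hx
      | zero => rw [map_zero, inner_zero_right]
      | add x z _ _ hx hz => rw [map_add, inner_add_right, hx, hz, add_zero]
      | smul c x _ hx => rw [map_smul, inner_smul_right, hx, mul_zero]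
    have h2 : x ∈ closure ((Submodule.span ℂ S : Submodule ℂ E) : Set E) := by
      rw [← Submodule.topologicalClosure_coe, hS]; trivial
    exact closure_minimal (t := {x | inner ℂ y (φ x) = 0}) (fun z hz => h1 z hz)
      (isClosed_eq (continuous_const.inner hφc) continuous_const) h2
  have h1 : ∀ a ∈ A, ∀ b, inner ℂ y (B a b) = 0 := fun a ha =>
    key (B a) (Real.sqrt C * ‖a‖) (hbd a) A' hA' (hy a ha)
  exact key (B.flip b) (Real.sqrt C * ‖b‖) (fun x => by
    rw [LinearMap.flip_apply]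
    refine (hbd x b).trans (le_of_eq ?_)
    ring) A hA (fun x hx => h1 x hx b) a

/-- **`λ`-bounded vectors are total.** -/
theorem total_lamBdd (hK : IsCompact (K : Set G)) (μ : Measure G) [SigmaFinite μ] [μ.IsMulRightInvariant]
    {ψ : G → ℝ≥0} (hψ : TDecay u ν ψ) {n : ℕ} (hn : ∫⁻ g, (ψ g : ℝ≥0∞) ^ n ∂μ ≠ ∞)
    {τ : E → E} (hτ : ∀ g x, τ (u g x) = u g (τ x)) {A : Set E} (hA : (Submodule.span ℂ A).topologicalClosure = ⊤)
    (hAτ : ∀ a ∈ A, ∃ d, ∀ x, inner ℂ x a = inner ℂ d (τ x))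
    {ι : Type*} {B : ι → E →ₗ[ℂ] E →ₗ[ℂ] E} (hB : ∀ i, ∃ C : ℝ, 0 ≤ C ∧ TBound (B i) C)
    (hBu : ∀ i g x y, B i (u g x) (u g y) = u g (B i x y))
    (hBt : (Submodule.span ℂ {x : E | ∃ i a b, x = B i a b}).topologicalClosure = ⊤) :
    (Submodule.span ℂ {ξ : E | ∃ C : ℝ≥0∞, C ≠ ∞ ∧ ∀ z : E, ∫⁻ g, ‖inner ℂ ξ (u g z)‖ₑ ^ 2 ∂μ ≤ C * ‖z‖ₑ ^ 2}).topologicalClosure
      = ⊤ := by
  -- the nice vectors
  set N : ℕ → Set E := fun n => {ξ | ∃ p : G → ℂ, Dom u ξ p ∧ Continuous p ∧ (∃ M : ℝ≥0, ∀ g, ‖p g‖₊ ≤ M) ∧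
    ∃ C : ℝ≥0, ∀ g, ‖p g‖₊ ≤ C * ψ g ^ n} with hN
  set S : Set E := {x : E | ∃ a ∈ A, ∃ f : G → ℂ, Continuous f ∧ (∃ M : ℝ, ∀ g, ‖f g‖ ≤ M) ∧ x = smooth u ν f a} with hS
  have hSt : (Submodule.span ℂ S).topologicalClosure = ⊤ := smooth_total hu hc hν hK hA
  have hSψ : ∀ a ∈ S, ∃ C : ℝ≥0, ∀ g, ‖inner ℂ a (u g a)‖₊ ≤ C * ψ g := by
    rintro x ⟨a, ha, f, hf, ⟨M, hM⟩, rfl⟩
    obtain ⟨d, hd⟩ := hAτ a ha
    exact coef_le hu hc hν hψ hτ hd hf hM
  have hself : ∀ a : E, ∀ g, ‖inner ℂ a (u g a)‖₊ ≤ ‖a‖₊ * ‖a‖₊ := by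
    intro a g
    have := norm_inner_le_norm (𝕜 := ℂ) a (u g a)
    rw [hu.norm] at this
    exact this
  have hNt : ∀ n, (Submodule.span ℂ (N n)).topologicalClosure = ⊤ := by
    intro n
    induction n with
    | zero =>
      have : N 0 = Set.univ := by
        refine Set.eq_univ_of_forall fun ξ => ⟨_, dom_self hu ξ, continuous_const.inner (hc ξ), ⟨_, hself ξ⟩,
          ‖ξ‖₊ * ‖ξ‖₊, fun g => ?_⟩
        rw [pow_zero, mul_one]
        exact hself ξ g
      rw [this, Submodule.span_univ]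
      exact top_unique (Submodule.le_topologicalClosure _)
    | succ n ih =>
      rw [Submodule.topologicalClosure_eq_top_iff, Submodule.eq_bot_iff]
      intro y hy
      rw [Submodule.topologicalClosure_eq_top_iff] at hBt
      have hy2 : y ∈ (Submodule.span ℂ {x : E | ∃ i a b, x = B i a b})ᗮ := by
        rw [Submodule.mem_orthogonal]
        intro x hx
        induction hx using Submodule.span_induction with
        | mem x hx =>
          obtain ⟨i, a, b, rfl⟩ := hx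
          obtain ⟨C, hC, hBC⟩ := hB i
          have h1 : inner ℂ y (B i a b) = 0 := by
            refine orth_all hu hBC hSt ih (fun a ha ξ hξ => ?_) a b
            obtain ⟨p, hp, hpc, ⟨M, hM⟩, ⟨D, hD⟩⟩ := hξ
            obtain ⟨D', hD'⟩ := hSψ a ha
            have hmem : B i a ξ ∈ N (n + 1) := by
              refine ⟨fun g => (C : ℂ) * (inner ℂ a (u g a) * p g), hp.bilin hC hBC hu (hBu i) a, ?_, ?_, ?_⟩
              · have : Continuous fun g => inner ℂ a (u g a) := continuous_const.inner (hc a)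
                fun_prop
              · refine ⟨‖(C : ℂ)‖₊ * ((‖a‖₊ * ‖a‖₊) * M), fun g => ?_⟩
                rw [nnnorm_mul, nnnorm_mul]
                gcongr
                · exact hself a g
                · exact hM g
              · refine ⟨‖(C : ℂ)‖₊ * (D' * D), fun g => ?_⟩
                rw [nnnorm_mul, nnnorm_mul]
                calc ‖(C : ℂ)‖₊ * (‖inner ℂ a (u g a)‖₊ * ‖p g‖₊) ≤ ‖(C : ℂ)‖₊ * ((D' * ψ g) * (D * ψ g ^ n)) := by
                      gcongr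
                      · exact hD' g
                      · exact hD g
                  _ = _ := by ring
            rw [← inner_conj_symm, (Submodule.mem_orthogonal _ _).1 hy _ (Submodule.subset_span hmem), map_zero]
          rw [← inner_conj_symm, h1, map_zero]
        | zero => exact inner_zero_left _
        | add x z _ _ hx hz => rw [inner_add_left, hx, hz, add_zero]
        | smul c x _ hx => rw [inner_smul_left, hx, mul_zero]
      rw [hBt] at hy2
      exact hy2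
  refine top_unique ?_
  rw [← hNt n]
  refine Submodule.topologicalClosure_mono (Submodule.span_mono ?_)
  rintro ξ ⟨p, hp, hpc, ⟨M, hM⟩, ⟨C, hC⟩⟩
  refine ⟨∫⁻ g, ‖p g‖ₑ ∂μ, ?_, fun z => hp.schur hu hc hpc M hM μ z⟩
  refine ne_top_of_le_ne_top (ENNReal.mul_ne_top (ENNReal.coe_ne_top (r := C)) hn) ?_
  rw [← lintegral_const_mul' _ _ ENNReal.coe_ne_top]
  refine lintegral_mono fun g => ?_
  simp only
  rw [enorm_eq_nnnorm]
  exact_mod_cast hC g

end

end Pool.Agent.Helper89.FP
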