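import Pool.Agent.Helper89.FP.Main2

/-!
# Project FP (MP_0f6f3f_an): `λ`-bounded vectors are total, version with `u ⊗ conj u`

`HDecay`: the `K × K`-averages of `|coefficient|²` are `O(ψ²)`; `hdecay_of`: this follows from a spherical gap of `w ⊇ u ⊗ conj u`.
`total_lamBdd₂`, `total_gap₂`: as `total_lamBdd`, `total_gap`, without `τ`; the bilinear maps `B i : E' × E → E` may have a first factor `E'` different from `E`.
-/

set_option autoImplicit false
set_option linter.unusedSectionVars false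
set_option linter.style.haveILetI false

open MeasureTheory Measure ENNReal Topology ComplexConjugate Filter
open scoped NNReal ComplexOrder Matrix

namespace Pool.Agent.Helper89.FP

open Pool.Agent.Helper9.CA (HaarOn)

section Abstract

variable {G : Type*} [Group G]
variable {E' : Type*} [NormedAddCommGroup E'] [InnerProductSpace ℂ E'] [CompleteSpace E']
variable {E : Type*} [NormedAddCommGroup E] [InnerProductSpace ℂ E] [CompleteSpace E]

/-- the norm form of the bound of a bilinear map on the Hilbert tensor product -/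
def TBound₂ (B : E' →ₗ[ℂ] E →ₗ[ℂ] E) (C : ℝ) : Prop :=
  ∀ (n : ℕ) (a : Fin n → E') (b : Fin n → E),
    ‖∑ i, B (a i) (b i)‖ ^ 2 ≤ C * (∑ i, ∑ j, (inner ℂ (a i) (a j) * inner ℂ (b i) (b j) : ℂ)).re

theorem TBound₂.norm_le {B : E' →ₗ[ℂ] E →ₗ[ℂ] E} {C : ℝ} (h : TBound₂ B C) (a : E') (b : E) :
    ‖B a b‖ ^ 2 ≤ C * (‖a‖ ^ 2 * ‖b‖ ^ 2) := by
  have h1 := h 1 (fun _ => a) (fun _ => b)
  have e : (((‖a‖ : ℂ) ^ 2 * (‖b‖ : ℂ) ^ 2)).re = ‖a‖ ^ 2 * ‖b‖ ^ 2 := by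
    rw [← Complex.ofReal_pow, ← Complex.ofReal_pow, ← Complex.ofReal_mul, Complex.ofReal_re]
  simp only [Finset.univ_unique, Fin.default_eq_zero, Fin.isValue, Finset.sum_const, Finset.card_singleton,
    one_smul, inner_self_eq_norm_sq_to_K, Complex.coe_algebraMap] at h1
  rwa [e] at h1

theorem Dom.bilin₂ {u' : G →* (E' →L[ℂ] E')} {u : G →* (E →L[ℂ] E)} {ξ : E} {p : G → ℂ} (h : Dom u ξ p)
    {B : E' →ₗ[ℂ] E →ₗ[ℂ] E} {C : ℝ} (hC : 0 ≤ C) (hB : TBound₂ B C) (hu' : Uni u')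
    (hBu : ∀ g x y, B (u' g x) (u g y) = u g (B x y)) (a : E') :
    Dom u (B a ξ) fun g => (C : ℂ) * (inner ℂ a (u' g a) * p g) := by
  intro n g
  have hstar : ∀ i j, (C : ℂ) * (inner ℂ a (u' ((g i)⁻¹ * g j) a) * p ((g i)⁻¹ * g j)) =
      C * (inner ℂ (u' (g i) a) (u' (g j) a) * p ((g i)⁻¹ * g j)) := by
    intro i j; rw [hu'.inner_mul]
  -- first part: the Schur product
  have h1 : ((C : ℂ) • (Matrix.gram ℂ (fun i => u' (g i) a) ⊙
      (Matrix.of fun i j : Fin n => p ((g i)⁻¹ * g j) - inner ℂ (u (g i) ξ) (u (g j) ξ)))).PosSemidef :=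
    ((Matrix.posSemidef_gram ℂ _).hadamard (h n g)).smul (by exact_mod_cast hC)
  -- second part: the bound of B
  have h2 : (Matrix.of fun i j : Fin n => (C : ℂ) * (inner ℂ (u' (g i) a) (u' (g j) a) * inner ℂ (u (g i) ξ) (u (g j) ξ)) -
      inner ℂ (u (g i) (B a ξ)) (u (g j) (B a ξ))).PosSemidef := by
    have hH : (Matrix.of fun i j : Fin n => (C : ℂ) * (inner ℂ (u' (g i) a) (u' (g j) a) * inner ℂ (u (g i) ξ) (u (g j) ξ)) -
      inner ℂ (u (g i) (B a ξ)) (u (g j) (B a ξ))).IsHermitian := by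
      ext i j
      simp only [Matrix.conjTranspose_apply, Matrix.of_apply, star_sub, star_mul', RCLike.star_def, inner_conj_symm,
        Complex.conj_ofReal]
    refine Matrix.PosSemidef.of_dotProduct_mulVec_nonneg hH fun c => RCLike.le_iff_re_im.2 ⟨?_, ?_⟩
    · have e : (Star.star c) ⬝ᵥ ((Matrix.of fun i j : Fin n => (C : ℂ) * (inner ℂ (u' (g i) a) (u' (g j) a) *
          inner ℂ (u (g i) ξ) (u (g j) ξ)) - inner ℂ (u (g i) (B a ξ)) (u (g j) (B a ξ))) *ᵥ c) =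
          (C : ℂ) * (∑ i, ∑ j, (inner ℂ (u' (g i) a) (u' (g j) a) * inner ℂ (c i • u (g i) ξ) (c j • u (g j) ξ) : ℂ)) -
          inner ℂ (∑ i, B (u' (g i) a) (c i • u (g i) ξ)) (∑ i, B (u' (g i) a) (c i • u (g i) ξ)) := by
        rw [sum_inner, Finset.mul_sum, ← Finset.sum_sub_distrib]
        simp only [dotProduct, Matrix.mulVec, Matrix.of_apply, Pi.star_apply, RCLike.star_def]
        refine Finset.sum_congr rfl fun i _ => ?_
        rw [inner_sum, Finset.mul_sum, Finset.mul_sum, ← Finset.sum_sub_distrib]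
        refine Finset.sum_congr rfl fun j _ => ?_
        simp only [map_smul, hBu, inner_smul_left, inner_smul_right]
        ring
      rw [e, map_zero, map_sub, inner_self_eq_norm_sq]
      have := hB n (fun i => u' (g i) a) (fun i => c i • u (g i) ξ)
      have e2 : RCLike.re ((C : ℂ) * (∑ i, ∑ j, (inner ℂ (u' (g i) a) (u' (g j) a) *
          inner ℂ (c i • u (g i) ξ) (c j • u (g j) ξ) : ℂ))) = C * (∑ i, ∑ j, (inner ℂ (u' (g i) a) (u' (g j) a) *
          inner ℂ (c i • u (g i) ξ) (c j • u (g j) ξ) : ℂ)).re := Complex.re_ofReal_mul _ _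
      rw [e2]
      linarith
    · rw [map_zero]
      exact (hH.im_star_dotProduct_mulVec_self c).symm
  have h3 := h1.add h2
  have h4 : (Matrix.of fun i j : Fin n => (C : ℂ) * (inner ℂ a (u' ((g i)⁻¹ * g j) a) * p ((g i)⁻¹ * g j)) -
      inner ℂ (u (g i) (B a ξ)) (u (g j) (B a ξ))) = ((C : ℂ) • (Matrix.gram ℂ (fun i => u' (g i) a) ⊙
      (Matrix.of fun i j : Fin n => p ((g i)⁻¹ * g j) - inner ℂ (u (g i) ξ) (u (g j) ξ)))) +
      (Matrix.of fun i j : Fin n => (C : ℂ) * (inner ℂ (u' (g i) a) (u' (g j) a) * inner ℂ (u (g i) ξ) (u (g j) ξ)) -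
      inner ℂ (u (g i) (B a ξ)) (u (g j) (B a ξ))) := by
    ext i j
    simp only [Matrix.of_apply, Matrix.add_apply, Matrix.smul_apply, Matrix.hadamard_apply, Matrix.gram_apply, smul_eq_mul]
    rw [hstar]
    ring
  show (Matrix.of fun i j : Fin n => (C : ℂ) * (inner ℂ a (u' ((g i)⁻¹ * g j) a) * p ((g i)⁻¹ * g j)) -
      inner ℂ (u (g i) (B a ξ)) (u (g j) (B a ξ))).PosSemidef
  rw [h4]
  exact h3

theorem orth_of_total {E₁ : Type*} [NormedAddCommGroup E₁] [InnerProductSpace ℂ E₁] {φ : E₁ →ₗ[ℂ] E} {D : ℝ}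
    (hφ : ∀ x, ‖φ x‖ ≤ D * ‖x‖) {S : Set E₁} (hS : (Submodule.span ℂ S).topologicalClosure = ⊤) {y : E}
    (h : ∀ x ∈ S, inner ℂ y (φ x) = 0) (x : E₁) : inner ℂ y (φ x) = 0 := by
  have hφc : Continuous φ := AddMonoidHomClass.continuous_of_bound φ D hφ
  have h1 : ∀ x ∈ Submodule.span ℂ S, inner ℂ y (φ x) = 0 := by
    intro x hx
    induction hx using Submodule.span_induction with
    | mem x hx => exact h x hx
    | zero => rw [map_zero, inner_zero_right]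
    | add x z _ _ hx hz => rw [map_add, inner_add_right, hx, hz, add_zero]
    | smul c x _ hx => rw [map_smul, inner_smul_right, hx, mul_zero]
  have h2 : x ∈ closure ((Submodule.span ℂ S : Submodule ℂ E₁) : Set E₁) := by
    rw [← Submodule.topologicalClosure_coe, hS]; trivial
  exact closure_minimal (t := {x | inner ℂ y (φ x) = 0}) (fun z hz => h1 z hz)
    (isClosed_eq (continuous_const.inner hφc) continuous_const) h2

/-- `y` orthogonal to `B a b` for total sets of `a`, `b` is orthogonal to all `B a b` -/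
theorem orth_all₂ {B : E' →ₗ[ℂ] E →ₗ[ℂ] E} {C : ℝ} (hB : TBound₂ B C) {A : Set E'} {A' : Set E}
    (hA : (Submodule.span ℂ A).topologicalClosure = ⊤) (hA' : (Submodule.span ℂ A').topologicalClosure = ⊤) {y : E}
    (hy : ∀ a ∈ A, ∀ b ∈ A', inner ℂ y (B a b) = 0) (a : E') (b : E) : inner ℂ y (B a b) = 0 := by
  have hbd : ∀ a b, ‖B a b‖ ≤ Real.sqrt |C| * ‖a‖ * ‖b‖ := by
    intro a b
    have h1 := hB.norm_le a b
    have h2 : ‖B a b‖ ^ 2 ≤ (Real.sqrt |C| * ‖a‖ * ‖b‖) ^ 2 := by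
      rw [mul_pow, mul_pow, Real.sq_sqrt (abs_nonneg C)]
      have h3 : C * (‖a‖ ^ 2 * ‖b‖ ^ 2) ≤ |C| * (‖a‖ ^ 2 * ‖b‖ ^ 2) :=
        mul_le_mul_of_nonneg_right (le_abs_self C) (by positivity)
      linarith
    exact (sq_le_sq₀ (norm_nonneg _) (by positivity)).1 h2
  have h1 : ∀ a ∈ A, ∀ b, inner ℂ y (B a b) = 0 := fun a ha =>
    orth_of_total (φ := B a) (D := Real.sqrt |C| * ‖a‖) (hbd a) hA' (hy a ha)
  exact orth_of_total (φ := B.flip b) (D := Real.sqrt |C| * ‖b‖) (fun x => by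
    rw [LinearMap.flip_apply]
    refine (hbd x b).trans (le_of_eq ?_)
    ring) hA (fun x hx => h1 x hx b) a

end Abstract

section Top

variable {G : Type*} [Group G]
variable {E' : Type*} [NormedAddCommGroup E'] [InnerProductSpace ℂ E'] [CompleteSpace E']
variable {E : Type*} [NormedAddCommGroup E] [InnerProductSpace ℂ E] [CompleteSpace E]
variable [TopologicalSpace G] [IsTopologicalGroup G] [MeasurableSpace G] [BorelSpace G] [SecondCountableTopology G]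
variable {u' : G →* (E' →L[ℂ] E')} {u : G →* (E →L[ℂ] E)} {K : Subgroup G} {ν : Measure G}

/-- the averages over `K × K` of `|coefficient|²` are bounded by `ψ²` -/
def HDecay (u' : G →* (E' →L[ℂ] E')) (ν : Measure G) (ψ : G → ℝ≥0) : Prop :=
  ∀ (a b : E') (g : G), ∫ k, ∫ l, ‖inner ℂ b (u' (k⁻¹ * g * l) a)‖ ^ 2 ∂ν ∂ν ≤ ψ g ^ 2 * (‖a‖ ^ 2 * ‖b‖ ^ 2)

/-- `HDecay` from a spherical gap of `u ⊗ conj u` -/
theorem hdecay_of {F : Type*} [NormedAddCommGroup F] [InnerProductSpace ℂ F] [CompleteSpace F] {w : G →* (F →L[ℂ] F)}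
    {ψ : G → ℝ≥0} (hw : Uni w) (hwc : ∀ x, Continuous fun g => w g x) (hν : HaarOn K ν) (J : E' → E' → F)
    (hJ : ∀ a a' b b', inner ℂ (J a a') (J b b') = inner ℂ a b * conj (inner ℂ a' b'))
    (hJw : ∀ g a a', w g (J a a') = J (u' g a) (u' g a'))
    (hdec : ∀ g x y, (∀ k ∈ K, w k x = x) → (∀ k ∈ K, w k y = y) → ‖inner ℂ x (w g y)‖ ≤ ψ g ^ 2 * (‖x‖ * ‖y‖)) :
    HDecay u' ν ψ := by
  intro a b g
  have h1 := coef_smooth₂ hw hwc hν (f := fun _ => (1 : ℂ)) (f' := fun _ => (1 : ℂ)) continuous_const (M := 1) (by simp)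
    continuous_const (M' := 1) (by simp) (J b b) (J a a) g
  simp only [map_one, one_mul, hJw, hJ] at h1
  have h2 : inner ℂ (smooth w ν (fun _ => (1 : ℂ)) (J b b)) (w g (smooth w ν (fun _ => 1) (J a a))) =
      ((∫ k, ∫ l, ‖inner ℂ b (u' (k⁻¹ * g * l) a)‖ ^ 2 ∂ν ∂ν : ℝ) : ℂ) := by
    rw [h1, ← integral_complex_ofReal]
    refine integral_congr_ae (ae_of_all _ fun k => ?_)
    simp only
    rw [← integral_complex_ofReal]
    refine integral_congr_ae (ae_of_all _ fun l => ?_)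
    simp only
    rw [RCLike.mul_conj]
    simp
  have hn : ∀ x : E', ‖J x x‖ = ‖x‖ ^ 2 := by
    intro x
    have h2 := hJ x x x x
    rw [inner_self_eq_norm_sq_to_K, inner_self_eq_norm_sq_to_K, map_pow, RCLike.conj_ofReal] at h2
    have h3 : ‖J x x‖ ^ 2 = (‖x‖ ^ 2) ^ 2 := by
      have h4 : ((‖J x x‖ ^ 2 : ℝ) : ℂ) = (((‖x‖ ^ 2) ^ 2 : ℝ) : ℂ) := by
        push_cast
        rw [sq ((‖x‖ : ℂ) ^ 2)]
        exact h2
      exact Complex.ofReal_injective h4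
    exact (sq_eq_sq₀ (norm_nonneg _) (by positivity)).1 h3
  refine (le_abs_self _).trans ?_
  rw [← Real.norm_eq_abs, ← Complex.norm_real, ← h2]
  refine (hdec g _ _ (fun k hk => smooth_fixed hw hwc hν _ hk) (fun k hk => smooth_fixed hw hwc hν _ hk)).trans ?_
  refine mul_le_mul_of_nonneg_left ?_ (by positivity)
  calc ‖smooth w ν (fun _ => 1) (J b b)‖ * ‖smooth w ν (fun _ => 1) (J a a)‖ ≤ ‖J b b‖ * ‖J a a‖ :=
        mul_le_mul (norm_smooth_one hw hν _) (norm_smooth_one hw hν _) (norm_nonneg _) (norm_nonneg _)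
    _ = ‖a‖ ^ 2 * ‖b‖ ^ 2 := by rw [hn, hn]; ring

variable (hu' : Uni u') (hc' : ∀ x, Continuous fun g => u' g x) (hu : Uni u) (hc : ∀ x, Continuous fun g => u g x)
  (hν : HaarOn K ν)

include hu' hc' hν in
/-- the coefficient of a smoothed vector is `O(ψ)` -/
theorem coef_le₂ {ψ : G → ℝ≥0} (hψ : HDecay u' ν ψ) (a : E') {f : G → ℂ} (hf : Continuous f) {M : ℝ}
    (hM : ∀ g, ‖f g‖ ≤ M) : ∃ C : ℝ≥0, ∀ g, ‖inner ℂ (smooth u' ν f a) (u' g (smooth u' ν f a))‖₊ ≤ C * ψ g := by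
  haveI := hν.prob
  set C₀ : ℝ≥0 := ‖a‖₊ ^ 2 * ‖a‖₊ ^ 2 with hC₀
  have h2 : ∀ g, ∫⁻ k, ∫⁻ l, ‖inner ℂ a (u' (k⁻¹ * g * l) a)‖ₑ ^ 2 ∂ν ∂ν ≤ ((ψ g ^ 2 * C₀ : ℝ≥0) : ℝ≥0∞) := by
    intro g
    have hcx : Continuous fun x : G => (‖(inner ℂ a (u' x a) : ℂ)‖ : ℝ) ^ 2 := ((continuous_const.inner (hc' a)).norm).pow 2
    have hcq : Continuous fun q : G × G => (‖(inner ℂ a (u' (q.1⁻¹ * g * q.2) a) : ℂ)‖ : ℝ) ^ 2 := hcx.comp (by fun_prop)
    have hb : ∀ s : G, ‖(‖(inner ℂ a (u' s a) : ℂ)‖ : ℝ) ^ 2‖ ≤ (‖a‖ * ‖a‖) ^ 2 := by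
      intro s
      rw [norm_pow, norm_norm]
      gcongr
      have := norm_inner_le_norm (𝕜 := ℂ) a (u' s a)
      rwa [hu'.norm] at this
    have hint : ∀ k : G, Integrable (fun l => (‖(inner ℂ a (u' (k⁻¹ * g * l) a) : ℂ)‖ : ℝ) ^ 2) ν := fun k =>
      HaarOn.integrable hν (hcx.comp (continuous_const_mul (k⁻¹ * g))) _ fun l => hb _
    have e1 : ∀ k, ∫⁻ l, ‖inner ℂ a (u' (k⁻¹ * g * l) a)‖ₑ ^ 2 ∂ν =
        ENNReal.ofReal (∫ l, (‖(inner ℂ a (u' (k⁻¹ * g * l) a) : ℂ)‖ : ℝ) ^ 2 ∂ν) := by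
      intro k
      rw [ofReal_integral_eq_lintegral_ofReal (hint k) (ae_of_all _ fun l => sq_nonneg _)]
      refine lintegral_congr fun l => ?_
      rw [ENNReal.ofReal_pow (norm_nonneg _), ofReal_norm]
    have hint2 : Integrable (fun k => ∫ l, (‖(inner ℂ a (u' (k⁻¹ * g * l) a) : ℂ)‖ : ℝ) ^ 2 ∂ν) ν := by
      refine Integrable.of_bound ?_ ((‖a‖ * ‖a‖) ^ 2) (ae_of_all _ fun k => ?_)
      · exact (hcq.stronglyMeasurable.integral_prod_right (ν := ν)).aestronglyMeasurable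
      · refine (norm_integral_le_of_norm_le_const (C := (‖a‖ * ‖a‖) ^ 2) (ae_of_all _ fun l => hb _)).trans ?_
        simp
    have e2 : ∫⁻ k, ∫⁻ l, ‖inner ℂ a (u' (k⁻¹ * g * l) a)‖ₑ ^ 2 ∂ν ∂ν =
        ENNReal.ofReal (∫ k, ∫ l, (‖(inner ℂ a (u' (k⁻¹ * g * l) a) : ℂ)‖ : ℝ) ^ 2 ∂ν ∂ν) := by
      rw [ofReal_integral_eq_lintegral_ofReal hint2 (ae_of_all _ fun k => integral_nonneg fun l => sq_nonneg _)]
      exact lintegral_congr e1
    rw [e2, ← ENNReal.ofReal_coe_nnreal]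
    refine ENNReal.ofReal_le_ofReal ((hψ a a g).trans (le_of_eq ?_))
    rw [hC₀]
    push_cast
    rfl
  have h3 : ∀ g, ‖inner ℂ (smooth u' ν f a) (u' g (smooth u' ν f a))‖₊ ^ 2 ≤ (M.toNNReal ^ 2 * NNReal.sqrt C₀ * ψ g) ^ 2 := by
    intro g
    have h4 := (norm_coef_smooth hu' hc' hν hf hM a g).trans (mul_le_mul' le_rfl (h2 g))
    rw [ENNReal.ofReal, enorm_eq_nnnorm] at h4
    have h5 : ‖inner ℂ (smooth u' ν f a) (u' g (smooth u' ν f a))‖₊ ^ 2 ≤ M.toNNReal ^ 4 * (ψ g ^ 2 * C₀) := by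
      exact_mod_cast h4
    refine h5.trans (le_of_eq ?_)
    rw [mul_pow, mul_pow, NNReal.sq_sqrt]
    ring
  exact ⟨M.toNNReal ^ 2 * NNReal.sqrt C₀, fun g => (pow_le_pow_iff_left₀ bot_le bot_le two_ne_zero).1 (h3 g)⟩

include hu' hc' hu hc hν in
/-- **`λ`-bounded vectors are total** (version with `u ⊗ conj u` and two spaces). -/
theorem total_lamBdd₂ (hK : IsCompact (K : Set G)) (μ : Measure G) [SigmaFinite μ] [μ.IsMulRightInvariant]
    {ψ : G → ℝ≥0} (hψ : HDecay u' ν ψ) {n : ℕ} (hn : ∫⁻ g, (ψ g : ℝ≥0∞) ^ n ∂μ ≠ ∞)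
    {ι : Type*} {B : ι → E' →ₗ[ℂ] E →ₗ[ℂ] E} (hB : ∀ i, ∃ C : ℝ, 0 ≤ C ∧ TBound₂ (B i) C)
    (hBu : ∀ i g x y, B i (u' g x) (u g y) = u g (B i x y))
    (hBt : (Submodule.span ℂ {x : E | ∃ i a b, x = B i a b}).topologicalClosure = ⊤) :
    (Submodule.span ℂ {ξ : E | ∃ C : ℝ≥0∞, C ≠ ∞ ∧ ∀ z : E, ∫⁻ g, ‖inner ℂ ξ (u g z)‖ₑ ^ 2 ∂μ ≤ C * ‖z‖ₑ ^ 2}).topologicalClosure
      = ⊤ := by
  -- the nice vectors
  set N : ℕ → Set E := fun n => {ξ | ∃ p : G → ℂ, Dom u ξ p ∧ Continuous p ∧ (∃ M : ℝ≥0, ∀ g, ‖p g‖₊ ≤ M) ∧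
    ∃ C : ℝ≥0, ∀ g, ‖p g‖₊ ≤ C * ψ g ^ n} with hN
  set S : Set E' := {x : E' | ∃ a ∈ (Set.univ : Set E'), ∃ f : G → ℂ, Continuous f ∧ (∃ M : ℝ, ∀ g, ‖f g‖ ≤ M) ∧
    x = smooth u' ν f a} with hS
  have hSt : (Submodule.span ℂ S).topologicalClosure = ⊤ := smooth_total hu' hc' hν hK (by
    rw [Submodule.span_univ]
    exact top_unique (Submodule.le_topologicalClosure _))
  have hSψ : ∀ a ∈ S, ∃ C : ℝ≥0, ∀ g, ‖inner ℂ a (u' g a)‖₊ ≤ C * ψ g := by
    rintro x ⟨a, -, f, hf, ⟨M, hM⟩, rfl⟩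
    exact coef_le₂ hu' hc' hν hψ a hf hM
  have hself' : ∀ a : E', ∀ g, ‖inner ℂ a (u' g a)‖₊ ≤ ‖a‖₊ * ‖a‖₊ := by
    intro a g
    have := norm_inner_le_norm (𝕜 := ℂ) a (u' g a)
    rw [hu'.norm] at this
    exact this
  have hself : ∀ a : E, ∀ g, ‖inner ℂ a (u g a)‖₊ ≤ ‖a‖₊ * ‖a‖₊ := by
    intro a g
    have := norm_inner_le_norm (𝕜 := ℂ) a (u g a)
    rw [hu.norm] at this
    exact this
  have hNt : ∀ n, (Submodule.span ℂ (N n)).topologicalClosure = ⊤ := by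
    intro n
    induction n with
    | zero =>
      have : N 0 = Set.univ := by
        refine Set.eq_univ_of_forall fun ξ => ⟨_, dom_self hu ξ, continuous_const.inner (hc ξ), ⟨_, hself ξ⟩,
          ‖ξ‖₊ * ‖ξ‖₊, fun g => ?_⟩
        rw [pow_zero, mul_one]
        exact hself ξ g
      rw [this, Submodule.span_univ]
      exact top_unique (Submodule.le_topologicalClosure _)
    | succ n ih =>
      rw [Submodule.topologicalClosure_eq_top_iff, Submodule.eq_bot_iff]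
      intro y hy
      rw [Submodule.topologicalClosure_eq_top_iff] at hBt
      have hy2 : y ∈ (Submodule.span ℂ {x : E | ∃ i a b, x = B i a b})ᗮ := by
        rw [Submodule.mem_orthogonal]
        intro x hx
        induction hx using Submodule.span_induction with
        | mem x hx =>
          obtain ⟨i, a, b, rfl⟩ := hx
          obtain ⟨C, hC, hBC⟩ := hB i
          have h1 : inner ℂ y (B i a b) = 0 := by
            refine orth_all₂ hBC hSt ih (fun a ha ξ hξ => ?_) a b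
            obtain ⟨p, hp, hpc, ⟨M, hM⟩, ⟨D, hD⟩⟩ := hξ
            obtain ⟨D', hD'⟩ := hSψ a ha
            have hmem : B i a ξ ∈ N (n + 1) := by
              refine ⟨fun g => (C : ℂ) * (inner ℂ a (u' g a) * p g), hp.bilin₂ hC hBC hu' (hBu i) a, ?_, ?_, ?_⟩
              · have : Continuous fun g => inner ℂ a (u' g a) := continuous_const.inner (hc' a)
                fun_prop
              · refine ⟨‖(C : ℂ)‖₊ * ((‖a‖₊ * ‖a‖₊) * M), fun g => ?_⟩
                rw [nnnorm_mul, nnnorm_mul]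
                gcongr
                · exact hself' a g
                · exact hM g
              · refine ⟨‖(C : ℂ)‖₊ * (D' * D), fun g => ?_⟩
                rw [nnnorm_mul, nnnorm_mul]
                calc ‖(C : ℂ)‖₊ * (‖inner ℂ a (u' g a)‖₊ * ‖p g‖₊) ≤ ‖(C : ℂ)‖₊ * ((D' * ψ g) * (D * ψ g ^ n)) := by
                      gcongr
                      · exact hD' g
                      · exact hD g
                  _ = _ := by ring
            rw [← inner_conj_symm, (Submodule.mem_orthogonal _ _).1 hy _ (Submodule.subset_span hmem), map_zero]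
          rw [← inner_conj_symm, h1, map_zero]
        | zero => exact inner_zero_left _
        | add x z _ _ hx hz => rw [inner_add_left, hx, hz, add_zero]
        | smul c x _ hx => rw [inner_smul_left, hx, mul_zero]
      rw [hBt] at hy2
      exact hy2
  refine top_unique ?_
  rw [← hNt n]
  refine Submodule.topologicalClosure_mono (Submodule.span_mono ?_)
  rintro ξ ⟨p, hp, hpc, ⟨M, hM⟩, ⟨C, hC⟩⟩
  refine ⟨∫⁻ g, ‖p g‖ₑ ∂μ, ?_, fun z => hp.schur hu hc hpc M hM μ z⟩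
  refine ne_top_of_le_ne_top (ENNReal.mul_ne_top (ENNReal.coe_ne_top (r := C)) hn) ?_
  rw [← lintegral_const_mul' _ _ ENNReal.coe_ne_top]
  refine lintegral_mono fun g => ?_
  simp only
  rw [enorm_eq_nnnorm]
  exact_mod_cast hC g

end Top

section SL

open Pool.Agent.Helper9.CA Pool.Agent.Helper16.FP

variable [MeasurableSpace S2] [BorelSpace S2]

/-- **`λ`-bounded vectors are total, from a gap of `w ⊇ u' ⊗ conj u'`** (`SL(2, ℂ)`). -/
theorem total_gap₂ {E' : Type*} [NormedAddCommGroup E'] [InnerProductSpace ℂ E'] [CompleteSpace E']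
    {E : Type*} [NormedAddCommGroup E] [InnerProductSpace ℂ E] [CompleteSpace E]
    {F : Type*} [NormedAddCommGroup F] [InnerProductSpace ℂ F] [CompleteSpace F]
    (μ : Measure S2) [μ.IsHaarMeasure] {u' : S2 →* (E' →L[ℂ] E')} (hu' : URep u')
    {u : S2 →* (E →L[ℂ] E)} (hu : URep u) {w : S2 →* (F →L[ℂ] F)} (hw : URep w) (J : E' → E' → F)
    (hJ : ∀ a a' b b', inner ℂ (J a a') (J b b') = inner ℂ a b * conj (inner ℂ a' b'))
    (hJw : ∀ g a a', w g (J a a') = J (u' g a) (u' g a')) (g₀ : S2) {κ : ℝ} (hκ : κ < 1)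
    (hgap : ∀ x ∈ fixK w, (inner ℂ (w g₀ x) x).re ≤ κ * ‖x‖ ^ 2)
    {ι : Type*} {B : ι → E' →ₗ[ℂ] E →ₗ[ℂ] E} (hB : ∀ i, ∃ C : ℝ, 0 ≤ C ∧ TBound₂ (B i) C)
    (hBu : ∀ i g x y, B i (u' g x) (u g y) = u g (B i x y))
    (hBt : (Submodule.span ℂ {x : E | ∃ i a b, x = B i a b}).topologicalClosure = ⊤) :
    (Submodule.span ℂ {ξ : E | ∃ C : ℝ≥0∞, C ≠ ∞ ∧ ∀ z : E, ∫⁻ g, ‖inner ℂ ξ (u g z)‖ₑ ^ 2 ∂μ ≤ C * ‖z‖ₑ ^ 2}).topologicalClosure
      = ⊤ := by
  obtain ⟨ν, hν⟩ := exists_haarOn KU isCompact_KU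
  obtain ⟨C, ε, hC, hε, hdec⟩ := decay.{_} g₀ hκ
  obtain ⟨C, rfl⟩ : ∃ C' : ℝ≥0, (C' : ℝ) = C := ⟨⟨C, hC.le⟩, rfl⟩
  set ψ : S2 → ℝ≥0 := fun g => NNReal.sqrt C * N2 g ^ (-(ε / 2)) with hψ
  have hψ2 : ∀ g, (ψ g : ℝ) ^ 2 = C * (N2 g : ℝ) ^ (-ε) := by
    intro g
    have h1 : ψ g ^ 2 = C * N2 g ^ (-ε) := by
      rw [hψ]
      simp only
      rw [mul_pow, NNReal.sq_sqrt, ← NNReal.rpow_natCast, ← NNReal.rpow_mul]
      congr 2
      push_cast
      ring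
    have h2 := congrArg (fun x : ℝ≥0 => (x : ℝ)) h1
    push_cast at h2
    exact h2
  have hT : HDecay u' ν ψ := hdecay_of (fun g x y => hw.isom g x y) hw.cont hν J hJ hJw fun g x y hx hy => by
    rw [hψ2]
    have h1 := hdec F w hw hgap g y hy x hx
    rw [← inner_conj_symm, RCLike.norm_conj]
    refine h1.trans (le_of_eq ?_)
    ring
  obtain ⟨n, hn⟩ := exists_nat_ge (17 / (ε / 2))
  have hn' : 17 ≤ n * (ε / 2) := by
    rw [div_le_iff₀ (by positivity)] at hn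
    exact hn
  exact total_lamBdd₂ (fun g x y => hu'.isom g x y) hu'.cont (fun g x y => hu.isom g x y) hu.cont hν isCompact_KU μ hT
    (lintegral_N2_rpow μ (NNReal.sqrt C) hn') hB hBu hBt

end SL

end Pool.Agent.Helper89.FP
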