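import Pool.Agent.Helper9.CA.SL2Cdiv

/-!
# Project FP (MP_0f6f3f_an): `SL(2, ℂ)` is unimodular and of polynomial growth in the Frobenius norm

`instRI`: a Haar measure of `SL(2, ℂ)` is right invariant. `lintegral_N2_lt_top`: `∫ N2⁻ᵐ < ∞` for `m ≥ 17`.
-/

set_option autoImplicit false
set_option linter.unusedSectionVars false
set_option linter.style.haveILetI false

open MeasureTheory Measure ENNReal Topology Matrix
open scoped NNReal

namespace Pool.Agent.Helper89.FP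

open Pool.Agent.Helper9.CA

section Unimodular

/-- upper unipotent -/
def e12 (x : ℂ) : S2 := ⟨!![1, x; 0, 1], by simp [det_fin_two]⟩

/-- lower unipotent -/
def e21 (x : ℂ) : S2 := ⟨!![1, 0; x, 1], by simp [det_fin_two]⟩

/-- `diag(2, 1/2)` -/
noncomputable def dd : S2 := ⟨!![2, 0; 0, 1 / 2], by simp [det_fin_two]⟩

theorem dd_e12 (x : ℂ) : dd * e12 x = e12 (4 * x) * dd := by
  apply Subtype.ext
  show !![(2 : ℂ), 0; 0, 1 / 2] * !![1, x; 0, 1] = !![1, 4 * x; 0, 1] * !![(2 : ℂ), 0; 0, 1 / 2]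
  ext i j
  fin_cases i <;> fin_cases j <;> simp [Matrix.mul_apply, Fin.sum_univ_two] <;> ring

theorem e21_dd (x : ℂ) : e21 x * dd = dd * e21 (4 * x) := by
  apply Subtype.ext
  show !![(1 : ℂ), 0; x, 1] * !![(2 : ℂ), 0; 0, 1 / 2] = !![(2 : ℂ), 0; 0, 1 / 2] * !![1, 0; 4 * x, 1]
  ext i j
  fin_cases i <;> fin_cases j <;> simp [Matrix.mul_apply, Fin.sum_univ_two] <;> ring

theorem e12_add (x y : ℂ) : e12 (x + y) = e12 x * e12 y := by
  apply Subtype.ext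
  show !![(1 : ℂ), x + y; 0, 1] = !![1, x; 0, 1] * !![1, y; 0, 1]
  ext i j
  fin_cases i <;> fin_cases j <;> simp [Matrix.mul_apply, Fin.sum_univ_two] <;> ring

theorem e21_add (x y : ℂ) : e21 (x + y) = e21 x * e21 y := by
  apply Subtype.ext
  show !![(1 : ℂ), 0; x + y, 1] = !![1, 0; x, 1] * !![1, 0; y, 1]
  ext i j
  fin_cases i <;> fin_cases j <;> simp [Matrix.mul_apply, Fin.sum_univ_two]

variable {M : Type*} [CommGroupWithZero M] (φ : S2 →* M) (hφ : ∀ g, φ g ≠ 0)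

include hφ in
theorem hom_e12 (x : ℂ) : φ (e12 x) = 1 := by
  have h1 := congrArg φ (dd_e12 (x / 3))
  rw [map_mul, map_mul, mul_comm] at h1
  have h2 : φ (e12 (x / 3)) = φ (e12 (4 * (x / 3))) := mul_right_cancel₀ (hφ dd) h1
  have h3 : e12 (4 * (x / 3)) = e12 x * e12 (x / 3) := by rw [← e12_add]; congr 1; ring
  rw [h3, map_mul] at h2
  have h4 : 1 * φ (e12 (x / 3)) = φ (e12 x) * φ (e12 (x / 3)) := by rw [one_mul]; exact h2
  exact (mul_right_cancel₀ (hφ _) h4).symm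

include hφ in
theorem hom_e21 (x : ℂ) : φ (e21 x) = 1 := by
  have h1 := congrArg φ (e21_dd (x / 3))
  rw [map_mul, map_mul, mul_comm] at h1
  have h2 : φ (e21 (x / 3)) = φ (e21 (4 * (x / 3))) := mul_left_cancel₀ (hφ dd) h1
  have h3 : e21 (4 * (x / 3)) = e21 x * e21 (x / 3) := by rw [← e21_add]; congr 1; ring
  rw [h3, map_mul] at h2
  have h4 : 1 * φ (e21 (x / 3)) = φ (e21 x) * φ (e21 (x / 3)) := by rw [one_mul]; exact h2
  exact (mul_right_cancel₀ (hφ _) h4).symm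

theorem factor {g : S2} (h : g.1 1 0 ≠ 0) :
    g = e12 ((g.1 0 0 - 1) / g.1 1 0) * e21 (g.1 1 0) * e12 ((g.1 1 1 - 1) / g.1 1 0) := by
  have hd := g.2
  rw [det_fin_two] at hd
  apply Subtype.ext
  show g.1 = !![(1 : ℂ), (g.1 0 0 - 1) / g.1 1 0; 0, 1] * !![1, 0; g.1 1 0, 1] * !![1, (g.1 1 1 - 1) / g.1 1 0; 0, 1]
  ext i j
  fin_cases i <;> fin_cases j <;> simp [Matrix.mul_apply, Fin.sum_univ_two]
  · field_simp
    ring
  · field_simp
    linear_combination -hd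
  · field_simp
    ring

include hφ in
/-- `SL(2, ℂ)` has no nontrivial character -/
theorem hom_one (g : S2) : φ g = 1 := by
  have key : ∀ g : S2, g.1 1 0 ≠ 0 → φ g = 1 := by
    intro g h
    rw [factor h, map_mul, map_mul, hom_e12 φ hφ, hom_e12 φ hφ, hom_e21 φ hφ, one_mul, one_mul]
  by_cases h : g.1 1 0 = 0
  · have hd := g.2
    rw [det_fin_two, h, mul_zero, sub_zero] at hd
    have ha : g.1 0 0 ≠ 0 := fun h0 => by rw [h0, zero_mul] at hd; exact zero_ne_one hd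
    have h1 : (e21 1 * g).1 1 0 ≠ 0 := by
      show (!![(1 : ℂ), 0; 1, 1] * g.1) 1 0 ≠ 0
      simp [Matrix.mul_apply, Fin.sum_univ_two, h, ha]
    have h2 := key _ h1
    rw [map_mul, hom_e21 φ hφ, one_mul] at h2
    exact h2
  · exact key g h

variable [MeasurableSpace S2] [BorelSpace S2]

instance instRI (μ : Measure S2) [μ.IsHaarMeasure] : μ.IsMulRightInvariant := by
  constructor
  intro g
  rw [map_right_mul_eq_modularCharacterFun_smul μ g]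
  have h1 : modularCharacterFun g = 1 :=
    hom_one (modularCharacter : S2 →* ℝ≥0) (fun g => (modularCharacterFun_pos g).ne') g
  rw [h1, one_smul]

end Unimodular

section Volume

variable [MeasurableSpace S2] [BorelSpace S2]

/-- the cell of `g` at scale `n` -/
noncomputable def cell (n : ℕ) (g : S2) : Fin 2 → Fin 2 → ℤ × ℤ := fun i j =>
  (⌊(g.1 i j).re * (8 * 2 ^ n)⌋, ⌊(g.1 i j).im * (8 * 2 ^ n)⌋)

/-- the cells which meet the ball of radius `2 ^ n` -/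
noncomputable def cells (n : ℕ) : Finset (Fin 2 → Fin 2 → ℤ × ℤ) :=
  Fintype.piFinset fun _ => Fintype.piFinset fun _ =>
    Finset.Icc (-(8 * 4 ^ n : ℤ)) (8 * 4 ^ n) ×ˢ Finset.Icc (-(8 * 4 ^ n : ℤ)) (8 * 4 ^ n)

theorem card_cells (n : ℕ) : (cells n).card ≤ 17 ^ 8 * (2 ^ 16) ^ n := by
  have h1 : (Finset.Icc (-(8 * 4 ^ n : ℤ)) (8 * 4 ^ n)).card = 16 * 4 ^ n + 1 := by
    rw [Int.card_Icc]
    have : (8 * 4 ^ n + 1 - -(8 * 4 ^ n) : ℤ) = ((16 * 4 ^ n + 1 : ℕ) : ℤ) := by push_cast; ring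
    rw [this, Int.toNat_natCast]
  have h2 : (cells n).card = (16 * 4 ^ n + 1) ^ 8 := by
    simp only [cells, Fintype.card_piFinset, Finset.card_product, h1, Finset.prod_const, Finset.card_univ, Fintype.card_fin]
    ring
  rw [h2]
  calc (16 * 4 ^ n + 1) ^ 8 ≤ (17 * 4 ^ n) ^ 8 := by
        gcongr
        have : 1 ≤ 4 ^ n := Nat.one_le_pow _ _ (by norm_num)
        omega
    _ = 17 ^ 8 * (2 ^ 16) ^ n := by
        rw [mul_pow, ← pow_mul, mul_comm n 8, pow_mul]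
        norm_num

theorem floor_mem {n : ℕ} {x : ℝ} (hx : |x| ≤ 2 ^ n) :
    ⌊x * (8 * 2 ^ n)⌋ ∈ Finset.Icc (-(8 * 4 ^ n : ℤ)) (8 * 4 ^ n) := by
  have h1 := abs_le.1 hx
  have h4 : (4 : ℝ) ^ n = 2 ^ n * 2 ^ n := by rw [← mul_pow]; norm_num
  have hp : (0 : ℝ) < 2 ^ n := by positivity
  rw [Finset.mem_Icc]
  constructor
  · rw [Int.le_floor]
    push_cast
    rw [h4]
    nlinarith [h1.1]
  · have h2 : (⌊x * (8 * 2 ^ n)⌋ : ℝ) ≤ 8 * 4 ^ n := by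
      refine (Int.floor_le _).trans ?_
      rw [h4]
      nlinarith [h1.2]
    exact_mod_cast h2

theorem cell_mem {n : ℕ} {g : S2} (hg : N2 g ≤ 2 ^ n) : cell n g ∈ cells n := by
  have h1 : ∀ i j, ‖g.1 i j‖ ≤ 2 ^ n := fun i j =>
    (entry_le_nF g.1 i j).trans (by rw [← N2_coe]; exact_mod_cast hg)
  simp only [cells, Fintype.mem_piFinset]
  intro i j
  rw [Finset.mem_product]
  exact ⟨floor_mem ((Complex.abs_re_le_norm _).trans (h1 i j)), floor_mem ((Complex.abs_im_le_norm _).trans (h1 i j))⟩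

theorem floor_eq_abs {a b c : ℝ} (hc : 0 < c) (h : ⌊a * c⌋ = ⌊b * c⌋) : |a - b| ≤ 1 / c := by
  have h1 := Int.abs_sub_lt_one_of_floor_eq_floor h
  rw [← sub_mul, abs_mul, abs_of_pos hc] at h1
  rw [le_div_iff₀ hc]
  exact h1.le

theorem cell_close {n : ℕ} {g h : S2} (hc : cell n g = cell n h) : nF (g.1 - h.1) ≤ 1 / 2 ^ n := by
  have hp : (0 : ℝ) < 8 * 2 ^ n := by positivity
  have h1 : ∀ i j, ‖(g.1 - h.1) i j‖ ^ 2 ≤ 2 * (1 / (8 * 2 ^ n)) ^ 2 := by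
    intro i j
    have h2 := congrFun (congrFun hc i) j
    have h3 : ⌊(g.1 i j).re * (8 * 2 ^ n)⌋ = ⌊(h.1 i j).re * (8 * 2 ^ n)⌋ := congrArg Prod.fst h2
    have h4 : ⌊(g.1 i j).im * (8 * 2 ^ n)⌋ = ⌊(h.1 i j).im * (8 * 2 ^ n)⌋ := congrArg Prod.snd h2
    have h5 := floor_eq_abs hp h3
    have h6 := floor_eq_abs hp h4
    rw [Matrix.sub_apply, Complex.sq_norm, Complex.normSq_apply, Complex.sub_re, Complex.sub_im, ← sq, ← sq, ← sq_abs,
      ← sq_abs ((g.1 i j).im - _)]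
    have h7 := pow_le_pow_left₀ (abs_nonneg _) h5 2
    have h8 := pow_le_pow_left₀ (abs_nonneg _) h6 2
    linarith
  have h2 : nsq (g.1 - h.1) ≤ (1 / 2 ^ n) ^ 2 := by
    rw [nsq_two]
    have h3 : (1 / (8 * 2 ^ n) : ℝ) = (1 / 8) * (1 / 2 ^ n) := by field_simp
    have := h1 0 0
    have := h1 0 1
    have := h1 1 0
    have := h1 1 1
    rw [h3] at *
    nlinarith [sq_nonneg ((1 : ℝ) / 2 ^ n)]
  rw [nF]
  calc Real.sqrt (nsq (g.1 - h.1)) ≤ Real.sqrt ((1 / 2 ^ n) ^ 2) := Real.sqrt_le_sqrt h2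
    _ = 1 / 2 ^ n := Real.sqrt_sq (by positivity)

theorem cell_B1 {n : ℕ} {g h : S2} (hg : N2 h ≤ 2 ^ n) (hc : cell n g = cell n h) : h⁻¹ * g ∈ B1 := by
  show nF ((h⁻¹ * g).1 - 1) ≤ 1
  have h1 : (h⁻¹ * g).1 - 1 = (h⁻¹).1 * (g.1 - h.1) := by
    have h2 : (h⁻¹).1 * h.1 = 1 := congrArg Subtype.val (inv_mul_cancel h)
    rw [Matrix.mul_sub, h2]
    rfl
  rw [h1]
  refine (nF_mul _ _).trans ?_
  rw [nF_inv]
  have h3 : nF h.1 ≤ 2 ^ n := by rw [← N2_coe]; exact_mod_cast hg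
  calc nF h.1 * nF (g.1 - h.1) ≤ 2 ^ n * (1 / 2 ^ n) :=
        mul_le_mul h3 (cell_close hc) (nF_nonneg _) (by positivity)
    _ = 1 := by field_simp

/-- polynomial volume growth -/
theorem measure_ball_le (μ : Measure S2) [μ.IsHaarMeasure] (n : ℕ) :
    μ {g : S2 | N2 g ≤ 2 ^ n} ≤ (17 ^ 8 * (2 ^ 16) ^ n : ℕ) * μ {g : S2 | N2 g ≤ 3} := by
  have h1 : {g : S2 | N2 g ≤ 2 ^ n} ⊆ ⋃ t ∈ cells n, {g : S2 | N2 g ≤ 2 ^ n ∧ cell n g = t} := by
    intro g hg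
    exact Set.mem_biUnion (cell_mem hg) ⟨hg, rfl⟩
  have h2 : ∀ t, μ {g : S2 | N2 g ≤ 2 ^ n ∧ cell n g = t} ≤ μ {g : S2 | N2 g ≤ 3} := by
    intro t
    by_cases hne : ∃ h : S2, N2 h ≤ 2 ^ n ∧ cell n h = t
    · obtain ⟨h, hh, hht⟩ := hne
      have h3 : {g : S2 | N2 g ≤ 2 ^ n ∧ cell n g = t} ⊆ (fun g => h⁻¹ * g) ⁻¹' {g : S2 | N2 g ≤ 3} := by
        rintro g ⟨hg, hgt⟩
        exact N2_B1 (cell_B1 hh (hgt.trans hht.symm))
      refine (measure_mono h3).trans (le_of_eq ?_)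
      exact measure_preimage_mul μ h⁻¹ _
    · have : {g : S2 | N2 g ≤ 2 ^ n ∧ cell n g = t} = ∅ := by
        ext g
        simp only [Set.mem_ofPred_eq, Set.mem_empty_iff_false, iff_false]
        exact fun h => hne ⟨g, h⟩
      rw [this, measure_empty]
      exact bot_le
  calc μ {g : S2 | N2 g ≤ 2 ^ n} ≤ ∑ t ∈ cells n, μ {g : S2 | N2 g ≤ 2 ^ n ∧ cell n g = t} :=
        (measure_mono h1).trans (measure_biUnion_finset_le _ _)
    _ ≤ ∑ _t ∈ cells n, μ {g : S2 | N2 g ≤ 3} := Finset.sum_le_sum fun t _ => h2 t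
    _ = (cells n).card * μ {g : S2 | N2 g ≤ 3} := by rw [Finset.sum_const, nsmul_eq_mul]
    _ ≤ _ := by
        gcongr
        exact card_cells n

/-- `∫ N2⁻¹⁷ < ∞` -/
theorem lintegral_N2_pow (μ : Measure S2) [μ.IsHaarMeasure] : ∫⁻ g, ((N2 g : ℝ≥0∞) ^ 17)⁻¹ ∂μ ≠ ∞ := by
  set c : ℕ → ℝ≥0∞ := fun n => 2 ^ 17 * ((2 ^ 17) ^ n)⁻¹ with hc
  have h2 : ∀ n : ℕ, ((2 : ℝ≥0∞) ^ 17) ^ n ≠ 0 := fun n => by positivity
  have h2' : ∀ n : ℕ, ((2 : ℝ≥0∞) ^ 17) ^ n ≠ ∞ := fun n => by finiteness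
  have hm : ∀ n : ℕ, MeasurableSet {g : S2 | N2 g ≤ 2 ^ n} := fun n =>
    (isClosed_le continuous_N2 continuous_const).measurableSet
  have h1 : ∀ g : S2, ((N2 g : ℝ≥0∞) ^ 17)⁻¹ ≤ ∑' n, Set.indicator {g : S2 | N2 g ≤ 2 ^ n} (fun _ => c n) g := by
    intro g
    have hex : ∃ n : ℕ, N2 g ≤ 2 ^ n := by
      obtain ⟨n, hn⟩ := pow_unbounded_of_one_lt (N2 g) (one_lt_two : (1 : ℝ≥0) < 2)
      exact ⟨n, hn.le⟩
    classical
    refine le_trans ?_ (ENNReal.le_tsum (Nat.find hex))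
    rw [Set.indicator_of_mem (show g ∈ {g : S2 | N2 g ≤ 2 ^ (Nat.find hex)} from Nat.find_spec hex)]
    rcases Nat.eq_zero_or_pos (Nat.find hex) with h0 | h0
    · rw [h0, hc]
      simp only [pow_zero, inv_one, mul_one]
      have h3 : (1 : ℝ≥0∞) ≤ (N2 g : ℝ≥0∞) ^ 17 := by
        have := pow_le_pow_left₀ (zero_le_one) (N2_ge g) 17
        rw [one_pow] at this
        exact_mod_cast this
      calc ((N2 g : ℝ≥0∞) ^ 17)⁻¹ ≤ 1 := ENNReal.inv_le_one.2 h3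
        _ ≤ 2 ^ 17 := by norm_num
    · obtain ⟨m, hm'⟩ := Nat.exists_eq_succ_of_ne_zero h0.ne'
      have h3 : ¬ N2 g ≤ 2 ^ m := Nat.find_min hex (by omega)
      rw [hm', hc]
      have h4 : ((2 : ℝ≥0∞) ^ m) ^ 17 ≤ (N2 g : ℝ≥0∞) ^ 17 := by
        have := pow_le_pow_left₀ (by positivity) (not_le.1 h3).le 17
        exact_mod_cast this
      calc ((N2 g : ℝ≥0∞) ^ 17)⁻¹ ≤ (((2 : ℝ≥0∞) ^ m) ^ 17)⁻¹ := ENNReal.inv_le_inv.2 h4
        _ = 2 ^ 17 * ((2 ^ 17) ^ (m + 1))⁻¹ := by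
            rw [pow_succ (2 ^ 17 : ℝ≥0∞) m, ENNReal.mul_inv (Or.inl (h2 m)) (Or.inl (h2' m)),
              mul_comm (((2 ^ 17) ^ m)⁻¹ : ℝ≥0∞), ← mul_assoc,
              ENNReal.mul_inv_cancel (by positivity) (by finiteness), one_mul, ← pow_mul, ← pow_mul, mul_comm m 17]
  have h3 : ∫⁻ g, ((N2 g : ℝ≥0∞) ^ 17)⁻¹ ∂μ ≤ ∑' n : ℕ, c n * μ {g : S2 | N2 g ≤ 2 ^ n} := by
    refine (lintegral_mono h1).trans (le_of_eq ?_)
    rw [lintegral_tsum fun n => (measurable_const.indicator (hm n)).aemeasurable]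
    refine tsum_congr fun n => ?_
    rw [lintegral_indicator (hm n), lintegral_const, Measure.restrict_apply_univ]
  have hV : μ {g : S2 | N2 g ≤ 3} ≠ ∞ := (isCompact_ball 3).measure_lt_top.ne
  refine ne_top_of_le_ne_top ?_ (h3.trans (ENNReal.tsum_le_tsum
    (g := fun n => (2 ^ 17 * 17 ^ 8 * μ {g : S2 | N2 g ≤ 3}) * (2⁻¹ : ℝ≥0∞) ^ n) fun n => ?_))
  · rw [ENNReal.tsum_mul_left]
    refine ENNReal.mul_ne_top (ENNReal.mul_ne_top (by finiteness) hV) ?_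
    rw [ENNReal.tsum_geometric, ENNReal.one_sub_inv_two, inv_inv]
    norm_num
  · calc c n * μ {g : S2 | N2 g ≤ 2 ^ n} ≤ c n * ((17 ^ 8 * (2 ^ 16) ^ n : ℕ) * μ {g : S2 | N2 g ≤ 3}) := by
          gcongr
          exact measure_ball_le μ n
      _ = (2 ^ 17 * 17 ^ 8 * μ {g : S2 | N2 g ≤ 3}) * ((2 ^ 16) ^ n * ((2 ^ 17) ^ n)⁻¹) := by
          rw [hc]
          push_cast
          ring
      _ = _ := by
          congr 1
          have e : ((2 : ℝ≥0∞) ^ 17) ^ n = (2 ^ 16) ^ n * 2 ^ n := by rw [← mul_pow]; norm_num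
          rw [e, ENNReal.mul_inv (Or.inl (by positivity)) (Or.inl (by finiteness)), ← mul_assoc,
            ENNReal.mul_inv_cancel (by positivity) (by finiteness), one_mul, ENNReal.inv_pow]

/-- `∫ (C N2⁻ᵋ)ⁿ < ∞` for `n` large -/
theorem lintegral_N2_rpow (μ : Measure S2) [μ.IsHaarMeasure] (C : ℝ≥0) {ε : ℝ} {n : ℕ} (hn : 17 ≤ n * ε) :
    ∫⁻ g, ((C * N2 g ^ (-ε) : ℝ≥0) : ℝ≥0∞) ^ n ∂μ ≠ ∞ := by
  have h1 : ∀ g : S2, ((C * N2 g ^ (-ε) : ℝ≥0) : ℝ≥0∞) ^ n ≤ (C : ℝ≥0∞) ^ n * ((N2 g : ℝ≥0∞) ^ 17)⁻¹ := by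
    intro g
    have hN := N2_ge g
    have h2 : (N2 g ^ (-ε)) ^ n ≤ (N2 g ^ 17)⁻¹ := by
      rw [← NNReal.rpow_natCast, ← NNReal.rpow_mul, ← NNReal.rpow_natCast (N2 g) 17, ← NNReal.rpow_neg]
      refine NNReal.rpow_le_rpow_of_exponent_le hN ?_
      push_cast
      nlinarith
    have h3 : (C * N2 g ^ (-ε)) ^ n ≤ C ^ n * (N2 g ^ 17)⁻¹ := by
      rw [mul_pow]
      gcongr
    have h4 := ENNReal.coe_le_coe.2 h3
    rw [ENNReal.coe_mul, ENNReal.coe_inv (by positivity)] at h4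
    exact_mod_cast h4
  refine ne_top_of_le_ne_top ?_ (lintegral_mono h1)
  rw [lintegral_const_mul' _ _ (by finiteness)]
  exact ENNReal.mul_ne_top (by finiteness) (lintegral_N2_pow μ)

end Volume

end Pool.Agent.Helper89.FP
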