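import Pool.Agent.Helper89.FP.LamBdd
import Pool.Agent.Helper89.FP.Vol

/-!
# Project FP (MP_0f6f3f_an): `λ`-bounded vectors are total, for `SL(2, ℂ)`

`total_SL2C`: the abstract theorem with `ψ = (C N2^{-ε})^{1/2}`.
-/

set_option autoImplicit false
set_option linter.style.haveILetI false

open MeasureTheory Measure ENNReal Topology
open scoped NNReal

namespace Pool.Agent.Helper89.FP

open Pool.Agent.Helper9.CA

variable [MeasurableSpace S2] [BorelSpace S2]
variable {E : Type*} [NormedAddCommGroup E] [InnerProductSpace ℂ E] [CompleteSpace E]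
variable {F : Type*} [NormedAddCommGroup F] [InnerProductSpace ℂ F] [CompleteSpace F]

/-- **`λ`-bounded vectors are total** (`SL(2, ℂ)`): `u` a unitary representation on `E`; `J` an isometric equivariant map of `E ⊗ E` to the space `F` of a unitary
representation `w` with exponentially decaying spherical coefficients; `τ` an equivariant map like a bounded antilinear map with dense range; `B i`
equivariant bilinear maps, bounded on the Hilbert tensor product, with total range. -/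
theorem total_SL2C {ν : Measure S2} (hν : HaarOn KU ν) (μ : Measure S2) [μ.IsHaarMeasure]
    {u : S2 →* (E →L[ℂ] E)} (hu : Uni u) (hc : ∀ x, Continuous fun g => u g x)
    {w : S2 →* (F →L[ℂ] F)} (hw : Uni w) (hwc : ∀ x, Continuous fun g => w g x) (J : E → E → F)
    (hJ : ∀ a a' b b', inner ℂ (J a a') (J b b') = inner ℂ a b * inner ℂ a' b')
    (hJw : ∀ g a a', w g (J a a') = J (u g a) (u g a')) {C ε : ℝ} (hC : 0 ≤ C) (hε : 0 < ε)
    (hdec : ∀ g x y, (∀ k ∈ KU, w k x = x) → (∀ k ∈ KU, w k y = y) → ‖inner ℂ x (w g y)‖ ≤ C * (N2 g : ℝ) ^ (-ε) * (‖x‖ * ‖y‖))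
    {τ : E → E} (hτ : ∀ g x, τ (u g x) = u g (τ x)) {A : Set E} (hA : (Submodule.span ℂ A).topologicalClosure = ⊤)
    (hAτ : ∀ a ∈ A, ∃ d, ∀ x, inner ℂ x a = inner ℂ d (τ x))
    {ι : Type*} {B : ι → E →ₗ[ℂ] E →ₗ[ℂ] E} (hB : ∀ i, ∃ C : ℝ, 0 ≤ C ∧ TBound (B i) C)
    (hBu : ∀ i g x y, B i (u g x) (u g y) = u g (B i x y))
    (hBt : (Submodule.span ℂ {x : E | ∃ i a b, x = B i a b}).topologicalClosure = ⊤) :
    (Submodule.span ℂ {ξ : E | ∃ C : ℝ≥0∞, C ≠ ∞ ∧ ∀ z : E, ∫⁻ g, ‖inner ℂ ξ (u g z)‖ₑ ^ 2 ∂μ ≤ C * ‖z‖ₑ ^ 2}).topologicalClosure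
      = ⊤ := by
  obtain ⟨C, rfl⟩ : ∃ C' : ℝ≥0, (C' : ℝ) = C := ⟨⟨C, hC⟩, rfl⟩
  set ψ : S2 → ℝ≥0 := fun g => NNReal.sqrt C * N2 g ^ (-(ε / 2)) with hψ
  have hψ2 : ∀ g, (ψ g : ℝ) ^ 2 = C * (N2 g : ℝ) ^ (-ε) := by
    intro g
    have h1 : ψ g ^ 2 = C * N2 g ^ (-ε) := by
      rw [hψ]
      simp only
      rw [mul_pow, NNReal.sq_sqrt, ← NNReal.rpow_natCast, ← NNReal.rpow_mul]
      congr 2
      push_cast
      ring
    have h2 := congrArg (fun x : ℝ≥0 => (x : ℝ)) h1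
    push_cast at h2
    exact h2
  have hT : TDecay u ν ψ := tdecay_of hw hwc hν J hJ hJw fun g x y hx hy => by
    rw [hψ2]
    exact hdec g x y hx hy
  obtain ⟨n, hn⟩ := exists_nat_ge (17 / (ε / 2))
  have hn' : 17 ≤ n * (ε / 2) := by
    rw [div_le_iff₀ (by positivity)] at hn
    exact hn
  exact total_lamBdd hu hc hν isCompact_KU μ hT (lintegral_N2_rpow μ (NNReal.sqrt C) hn') hτ hA hAτ hB hBu hBt

end Pool.Agent.Helper89.FP
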