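import Pool.Agent.Helper89.FP.Main
import Pool.Agent.Helper16.FP.Gap

/-!
# Project FP (MP_0f6f3f_an): `λ`-bounded vectors are total, for `SL(2, ℂ)`, from a gap

`total_gap`: `total_SL2C` with the decay of helper16: only a one-sided gap of `w` on the `SU(2)`-fixed vectors at one element `g₀` is needed.
-/

set_option autoImplicit false
set_option linter.style.haveILetI false

open MeasureTheory Measure ENNReal Topology
open scoped NNReal

namespace Pool.Agent.Helper89.FP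

open Pool.Agent.Helper9.CA Pool.Agent.Helper16.FP

variable [MeasurableSpace S2] [BorelSpace S2]

/-- **`λ`-bounded vectors are total, from a gap of `w ⊇ u ⊗ u`.** -/
theorem total_gap {E : Type*} [NormedAddCommGroup E] [InnerProductSpace ℂ E] [CompleteSpace E]
    {F : Type*} [NormedAddCommGroup F] [InnerProductSpace ℂ F] [CompleteSpace F]
    (μ : Measure S2) [μ.IsHaarMeasure]
    {u : S2 →* (E →L[ℂ] E)} (hu : URep u) {w : S2 →* (F →L[ℂ] F)} (hw : URep w) (J : E → E → F)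
    (hJ : ∀ a a' b b', inner ℂ (J a a') (J b b') = inner ℂ a b * inner ℂ a' b')
    (hJw : ∀ g a a', w g (J a a') = J (u g a) (u g a')) (g₀ : S2) {κ : ℝ} (hκ : κ < 1)
    (hgap : ∀ x ∈ fixK w, (inner ℂ (w g₀ x) x).re ≤ κ * ‖x‖ ^ 2)
    {τ : E → E} (hτ : ∀ g x, τ (u g x) = u g (τ x)) {A : Set E} (hA : (Submodule.span ℂ A).topologicalClosure = ⊤)
    (hAτ : ∀ a ∈ A, ∃ d, ∀ x, inner ℂ x a = inner ℂ d (τ x))
    {ι : Type*} {B : ι → E →ₗ[ℂ] E →ₗ[ℂ] E} (hB : ∀ i, ∃ C : ℝ, 0 ≤ C ∧ TBound (B i) C)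
    (hBu : ∀ i g x y, B i (u g x) (u g y) = u g (B i x y))
    (hBt : (Submodule.span ℂ {x : E | ∃ i a b, x = B i a b}).topologicalClosure = ⊤) :
    (Submodule.span ℂ {ξ : E | ∃ C : ℝ≥0∞, C ≠ ∞ ∧ ∀ z : E, ∫⁻ g, ‖inner ℂ ξ (u g z)‖ₑ ^ 2 ∂μ ≤ C * ‖z‖ₑ ^ 2}).topologicalClosure
      = ⊤ := by
  obtain ⟨ν, hν⟩ := exists_haarOn KU isCompact_KU
  obtain ⟨C, ε, hC, hε, hdec⟩ := decay.{_} g₀ hκ
  refine total_SL2C hν μ (fun g x y => hu.isom g x y) hu.cont (fun g x y => hw.isom g x y) hw.cont J hJ hJw hC.le hε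
    (fun g x y hx hy => ?_) hτ hA hAτ hB hBu hBt
  have h1 := hdec F w hw hgap g y hy x hx
  rw [← inner_conj_symm, RCLike.norm_conj]
  refine h1.trans (le_of_eq ?_)
  ring

end Pool.Agent.Helper89.FP
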