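import Mathlib

/-!
# Project FP (MP_0f6f3f_an): vectors dominated by an integrable positive definite function are `λ`-bounded

`u` a unitary representation of a group `G`. `Dom u ξ p`: the function `g ↦ p g - ⟪ξ, u g ξ⟫` is positive definite. If `p` is integrable then
`∫ |⟪ξ, u g z⟫|² dg ≤ ‖p‖₁ ‖z‖²` (Schur test). If `B` is an equivariant bilinear map bounded on the Hilbert tensor product and `Dom u ξ p`, then
`Dom u (B a ξ) (C p_a p)`, `p_a g = ⟪a, u g a⟫` (Schur product theorem).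
-/

set_option autoImplicit false

open MeasureTheory Measure ENNReal Topology Matrix ComplexConjugate
open scoped NNReal ComplexOrder

namespace Pool.Agent.Helper89.FP

variable {𝕜 : Type*} [RCLike 𝕜] {G : Type*} [Group G] {E : Type*} [NormedAddCommGroup E] [InnerProductSpace 𝕜 E]

/-- a unitary representation (as a homomorphism to bounded operators) -/
def Uni (u : G →* (E →L[𝕜] E)) : Prop := ∀ g x y, inner 𝕜 (u g x) (u g y) = inner 𝕜 x y

theorem Uni.norm {u : G →* (E →L[𝕜] E)} (hu : Uni u) (g : G) (x : E) : ‖u g x‖ = ‖x‖ := by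
  have h := hu g x x
  rw [inner_self_eq_norm_sq_to_K, inner_self_eq_norm_sq_to_K] at h
  have h2 : ‖u g x‖ ^ 2 = ‖x‖ ^ 2 := by exact_mod_cast h
  exact (sq_eq_sq₀ (norm_nonneg _) (norm_nonneg _)).1 h2

theorem u_mul (u : G →* (E →L[𝕜] E)) (g h : G) (x : E) : u (g * h) x = u g (u h x) := by
  rw [map_mul]; rfl

theorem u_one (u : G →* (E →L[𝕜] E)) (x : E) : u 1 x = x := by
  rw [map_one]; rfl

theorem Uni.inner_inv {u : G →* (E →L[𝕜] E)} (hu : Uni u) (g : G) (x y : E) :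
    inner 𝕜 (u g⁻¹ x) y = inner 𝕜 x (u g y) := by
  have h := hu g (u g⁻¹ x) y
  rw [← u_mul, mul_inv_cancel, u_one] at h
  exact h.symm

theorem Uni.inner_mul {u : G →* (E →L[𝕜] E)} (hu : Uni u) (g h : G) (x y : E) :
    inner 𝕜 (u g x) (u h y) = inner 𝕜 x (u (g⁻¹ * h) y) := by
  rw [u_mul, ← hu.inner_inv g⁻¹, inv_inv]

/-- `p - ⟪ξ, u · ξ⟫` is positive definite -/
def Dom (u : G →* (E →L[𝕜] E)) (ξ : E) (p : G → 𝕜) : Prop :=
  ∀ (n : ℕ) (g : Fin n → G),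
    (Matrix.of fun i j : Fin n => p ((g i)⁻¹ * g j) - inner 𝕜 (u (g i) ξ) (u (g j) ξ)).PosSemidef

theorem dom_self {u : G →* (E →L[𝕜] E)} (hu : Uni u) (ξ : E) : Dom u ξ fun g => inner 𝕜 ξ (u g ξ) := by
  intro n g
  have : (Matrix.of fun i j : Fin n => inner 𝕜 ξ (u ((g i)⁻¹ * g j) ξ) - inner 𝕜 (u (g i) ξ) (u (g j) ξ)) = 0 := by
    ext i j
    simp only [Matrix.of_apply, Matrix.zero_apply]
    rw [hu.inner_mul, sub_self]
  rw [this]
  exact Matrix.PosSemidef.zero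

theorem Dom.star {u : G →* (E →L[𝕜] E)} {ξ : E} {p : G → 𝕜} (h : Dom u ξ p) (g : G) : p g⁻¹ = conj (p g) := by
  have h1 := (h 2 ![1, g]).1
  have h2 := congrFun (congrFun h1 1) 0
  simp only [Matrix.conjTranspose_apply, Matrix.of_apply, Matrix.cons_val_zero, Matrix.cons_val_one,
    inv_one, one_mul, mul_one, star_sub, RCLike.star_def, inner_conj_symm] at h2
  have h3 : conj (p g) = p g⁻¹ := by
    have := congrArg (fun z => z + inner 𝕜 (u g ξ) (u 1 ξ)) h2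
    simpa using this
  exact h3.symm

theorem quad_eq {u : G →* (E →L[𝕜] E)} {ξ : E} {p : G → 𝕜} {n : ℕ} (g : Fin n → G) (c : Fin n → 𝕜) :
    star c ⬝ᵥ ((Matrix.of fun i j : Fin n => p ((g i)⁻¹ * g j) - inner 𝕜 (u (g i) ξ) (u (g j) ξ)) *ᵥ c) =
      (∑ i, ∑ j, conj (c i) * c j * p ((g i)⁻¹ * g j)) -
        inner 𝕜 (∑ i, c i • u (g i) ξ) (∑ i, c i • u (g i) ξ) := by
  rw [sum_inner, ← Finset.sum_sub_distrib]
  simp only [dotProduct, Matrix.mulVec, Matrix.of_apply, Pi.star_apply, RCLike.star_def]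
  refine Finset.sum_congr rfl fun i _ => ?_
  rw [inner_smul_left, inner_sum, Finset.mul_sum, Finset.mul_sum, ← Finset.sum_sub_distrib]
  refine Finset.sum_congr rfl fun j _ => ?_
  rw [inner_smul_right]
  ring

theorem Dom.sq_le {u : G →* (E →L[𝕜] E)} {ξ : E} {p : G → 𝕜} (h : Dom u ξ p) {n : ℕ} (g : Fin n → G) (c : Fin n → 𝕜) :
    ‖∑ i, c i • u (g i) ξ‖ ^ 2 ≤ RCLike.re (∑ i, ∑ j, conj (c i) * c j * p ((g i)⁻¹ * g j)) := by
  have h1 := (h n g).dotProduct_mulVec_nonneg c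
  rw [quad_eq] at h1
  have h3 := (RCLike.le_iff_re_im.1 h1).1
  rw [map_zero, map_sub, inner_self_eq_norm_sq] at h3
  linarith

/-- the norm form of the bound of a bilinear map on the Hilbert tensor product -/
def TBound (B : E →ₗ[𝕜] E →ₗ[𝕜] E) (C : ℝ) : Prop :=
  ∀ (n : ℕ) (a b : Fin n → E),
    ‖∑ i, B (a i) (b i)‖ ^ 2 ≤ C * RCLike.re (∑ i, ∑ j, (inner 𝕜 (a i) (a j) * inner 𝕜 (b i) (b j) : 𝕜))

theorem TBound.norm_le {B : E →ₗ[𝕜] E →ₗ[𝕜] E} {C : ℝ} (h : TBound B C) (a b : E) :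
    ‖B a b‖ ^ 2 ≤ C * (‖a‖ ^ 2 * ‖b‖ ^ 2) := by
  have h1 := h 1 (fun _ => a) (fun _ => b)
  have e : RCLike.re ((‖a‖ : 𝕜) ^ 2 * (‖b‖ : 𝕜) ^ 2) = ‖a‖ ^ 2 * ‖b‖ ^ 2 := by
    rw [← RCLike.ofReal_pow, ← RCLike.ofReal_pow, ← RCLike.ofReal_mul, RCLike.ofReal_re]
  simp only [Finset.univ_unique, Fin.default_eq_zero, Fin.isValue, Finset.sum_const, Finset.card_singleton,
    one_smul, inner_self_eq_norm_sq_to_K] at h1
  rwa [e] at h1

theorem Dom.bilin {u : G →* (E →L[𝕜] E)} {ξ : E} {p : G → 𝕜} (h : Dom u ξ p)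
    {B : E →ₗ[𝕜] E →ₗ[𝕜] E} {C : ℝ} (hC : 0 ≤ C) (hB : TBound B C) (hu : Uni u)
    (hBu : ∀ g x y, B (u g x) (u g y) = u g (B x y)) (a : E) :
    Dom u (B a ξ) fun g => (C : 𝕜) * (inner 𝕜 a (u g a) * p g) := by
  intro n g
  have hstar : ∀ i j, (C : 𝕜) * (inner 𝕜 a (u ((g i)⁻¹ * g j) a) * p ((g i)⁻¹ * g j)) =
      C * (inner 𝕜 (u (g i) a) (u (g j) a) * p ((g i)⁻¹ * g j)) := by
    intro i j; rw [hu.inner_mul]
  -- first part: the Schur product
  have h1 : ((C : 𝕜) • (Matrix.gram 𝕜 (fun i => u (g i) a) ⊙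
      (Matrix.of fun i j : Fin n => p ((g i)⁻¹ * g j) - inner 𝕜 (u (g i) ξ) (u (g j) ξ)))).PosSemidef :=
    ((Matrix.posSemidef_gram 𝕜 _).hadamard (h n g)).smul (by exact_mod_cast hC)
  -- second part: the bound of B
  have h2 : (Matrix.of fun i j : Fin n => (C : 𝕜) * (inner 𝕜 (u (g i) a) (u (g j) a) * inner 𝕜 (u (g i) ξ) (u (g j) ξ)) -
      inner 𝕜 (u (g i) (B a ξ)) (u (g j) (B a ξ))).PosSemidef := by
    have hH : (Matrix.of fun i j : Fin n => (C : 𝕜) * (inner 𝕜 (u (g i) a) (u (g j) a) * inner 𝕜 (u (g i) ξ) (u (g j) ξ)) -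
      inner 𝕜 (u (g i) (B a ξ)) (u (g j) (B a ξ))).IsHermitian := by
      ext i j
      simp only [Matrix.conjTranspose_apply, Matrix.of_apply, star_sub, star_mul', RCLike.star_def, inner_conj_symm,
        RCLike.conj_ofReal]
    refine Matrix.PosSemidef.of_dotProduct_mulVec_nonneg hH fun c => RCLike.le_iff_re_im.2 ⟨?_, ?_⟩
    · have e : (Star.star c) ⬝ᵥ ((Matrix.of fun i j : Fin n => (C : 𝕜) * (inner 𝕜 (u (g i) a) (u (g j) a) *
          inner 𝕜 (u (g i) ξ) (u (g j) ξ)) - inner 𝕜 (u (g i) (B a ξ)) (u (g j) (B a ξ))) *ᵥ c) =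
          (C : 𝕜) * (∑ i, ∑ j, (inner 𝕜 (u (g i) a) (u (g j) a) * inner 𝕜 (c i • u (g i) ξ) (c j • u (g j) ξ) : 𝕜)) -
          inner 𝕜 (∑ i, B (u (g i) a) (c i • u (g i) ξ)) (∑ i, B (u (g i) a) (c i • u (g i) ξ)) := by
        rw [sum_inner, Finset.mul_sum, ← Finset.sum_sub_distrib]
        simp only [dotProduct, Matrix.mulVec, Matrix.of_apply, Pi.star_apply, RCLike.star_def]
        refine Finset.sum_congr rfl fun i _ => ?_
        rw [inner_sum, Finset.mul_sum, Finset.mul_sum, ← Finset.sum_sub_distrib]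
        refine Finset.sum_congr rfl fun j _ => ?_
        simp only [map_smul, hBu, inner_smul_left, inner_smul_right]
        ring
      rw [e, map_zero, map_sub, inner_self_eq_norm_sq, RCLike.re_ofReal_mul]
      have := hB n (fun i => u (g i) a) (fun i => c i • u (g i) ξ)
      linarith
    · rw [map_zero]
      exact (hH.im_star_dotProduct_mulVec_self c).symm
  have h3 := h1.add h2
  convert h3 using 1
  ext i j
  simp only [Matrix.of_apply, Matrix.add_apply, Matrix.smul_apply, Matrix.hadamard_apply, Matrix.gram_apply, smul_eq_mul]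
  rw [hstar]
  ring

end Pool.Agent.Helper89.FP
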