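import Pool.Agent.Helper89.FP.PD

/-!
# Project FP (MP_0f6f3f_an): the Schur test

If `p` is continuous, bounded, integrable and `p - ⟪ξ, u · ξ⟫` is positive definite, then `∫ |⟪ξ, u g z⟫|² dg ≤ ‖p‖₁ ‖z‖²`. The passage from finite sums to
integrals is by simple functions `G → G` which tend to the identity.
-/

set_option autoImplicit false

open MeasureTheory Measure ENNReal Topology ComplexConjugate Filter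
open scoped NNReal

namespace Pool.Agent.Helper89.FP

variable {𝕜 : Type*} [RCLike 𝕜] {G : Type*} [Group G] {E : Type*} [NormedAddCommGroup E] [InnerProductSpace 𝕜 E]
variable {u : G →* (E →L[𝕜] E)} {ξ : E} {p : G → 𝕜}

theorem Dom.norm_symm (h : Dom u ξ p) (g : G) : ‖p g⁻¹‖ = ‖p g‖ := by
  rw [h.star, RCLike.norm_conj]

theorem enorm_inner_le (x y : E) : ‖(inner 𝕜 x y : 𝕜)‖ₑ ≤ ‖x‖ₑ * ‖y‖ₑ := by
  rw [enorm_eq_nnnorm, enorm_eq_nnnorm, enorm_eq_nnnorm, ← ENNReal.coe_mul, ENNReal.coe_le_coe]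
  exact norm_inner_le_norm (𝕜 := 𝕜) x y

theorem Uni.enorm (hu : Uni u) (g : G) (x : E) : ‖u g x‖ₑ = ‖x‖ₑ := by
  rw [← ofReal_norm, hu.norm, ofReal_norm]

/-- finite Schur test -/
theorem Dom.finite_schur (h : Dom u ξ p) (hu : Uni u) (z : E) {n : ℕ} (g : Fin n → G) (w : Fin n → ℝ) (hw : ∀ i, 0 ≤ w i) :
    (∑ i, w i * ‖(inner 𝕜 ξ (u (g i) z) : 𝕜)‖ ^ 2) ^ 2 ≤
      ‖z‖ ^ 2 * ∑ i, ∑ j, w i * w j * (‖(inner 𝕜 ξ (u (g i) z) : 𝕜)‖ ^ 2 * ‖p (g j * (g i)⁻¹)‖) := by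
  set f : Fin n → 𝕜 := fun i => inner 𝕜 ξ (u (g i) z) with hf
  set v : E := ∑ i, ((w i : 𝕜) * f i) • u (g i)⁻¹ ξ with hv
  have h1 : inner 𝕜 v z = ((∑ i, w i * ‖f i‖ ^ 2 : ℝ) : 𝕜) := by
    rw [hv, sum_inner]
    push_cast
    refine Finset.sum_congr rfl fun i _ => ?_
    rw [inner_smul_left, hu.inner_inv, map_mul, RCLike.conj_ofReal, mul_assoc]
    congr 1
    rw [← RCLike.conj_mul]
  have h2 : (∑ i, w i * ‖f i‖ ^ 2) ≤ ‖v‖ * ‖z‖ := by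
    have h3 := norm_inner_le_norm (𝕜 := 𝕜) v z
    rw [h1, RCLike.norm_ofReal] at h3
    exact (le_abs_self _).trans h3
  have h0 : 0 ≤ ∑ i, w i * ‖f i‖ ^ 2 := Finset.sum_nonneg fun i _ => mul_nonneg (hw i) (sq_nonneg _)
  have h4 : ‖v‖ ^ 2 ≤ ∑ i, ∑ j, w i * w j * (‖f i‖ ^ 2 * ‖p (g j * (g i)⁻¹)‖) := by
    refine (h.sq_le (fun i => (g i)⁻¹) fun i => (w i : 𝕜) * f i).trans ?_
    refine (RCLike.re_le_norm _).trans ?_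
    refine (norm_sum_le _ _).trans ?_
    have h5 : ∀ i j, ‖conj ((w i : 𝕜) * f i) * ((w j : 𝕜) * f j) * p ((g i)⁻¹⁻¹ * (g j)⁻¹)‖ ≤
        (1 / 2) * (w i * w j * (‖f i‖ ^ 2 * ‖p (g j * (g i)⁻¹)‖)) +
        (1 / 2) * (w j * w i * (‖f j‖ ^ 2 * ‖p (g i * (g j)⁻¹)‖)) := by
      intro i j
      rw [inv_inv, norm_mul, norm_mul, RCLike.norm_conj, norm_mul, norm_mul, RCLike.norm_ofReal, RCLike.norm_ofReal,
        abs_of_nonneg (hw i), abs_of_nonneg (hw j)]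
      have h6 : ‖p (g j * (g i)⁻¹)‖ = ‖p (g i * (g j)⁻¹)‖ := by
        rw [← h.norm_symm (g i * (g j)⁻¹), mul_inv_rev, inv_inv]
      rw [h6]
      have h7 : ‖f i‖ * ‖f j‖ ≤ 1 / 2 * ‖f i‖ ^ 2 + 1 / 2 * ‖f j‖ ^ 2 := by nlinarith [sq_nonneg (‖f i‖ - ‖f j‖)]
      have h8 : 0 ≤ w i * w j * ‖p (g i * (g j)⁻¹)‖ := mul_nonneg (mul_nonneg (hw i) (hw j)) (norm_nonneg _)
      nlinarith [mul_le_mul_of_nonneg_left h7 h8]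
    have h9 : ∑ i, ‖∑ j, conj ((w i : 𝕜) * f i) * ((w j : 𝕜) * f j) * p ((g i)⁻¹⁻¹ * (g j)⁻¹)‖ ≤
        ∑ i, ∑ j, ((1 / 2) * (w i * w j * (‖f i‖ ^ 2 * ‖p (g j * (g i)⁻¹)‖)) +
        (1 / 2) * (w j * w i * (‖f j‖ ^ 2 * ‖p (g i * (g j)⁻¹)‖))) :=
      Finset.sum_le_sum fun i _ => (norm_sum_le _ _).trans (Finset.sum_le_sum fun j _ => h5 i j)
    refine h9.trans (le_of_eq ?_)
    simp only [Finset.sum_add_distrib, ← Finset.mul_sum]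
    rw [Finset.sum_comm (f := fun i j => w j * w i * (‖f j‖ ^ 2 * ‖p (g i * (g j)⁻¹)‖))]
    ring
  calc (∑ i, w i * ‖f i‖ ^ 2) ^ 2 ≤ (‖v‖ * ‖z‖) ^ 2 := by gcongr
    _ = ‖z‖ ^ 2 * ‖v‖ ^ 2 := by ring
    _ ≤ _ := by gcongr

/-- finite Schur test, over a finite set -/
theorem Dom.finset_schur (h : Dom u ξ p) (hu : Uni u) (z : E) (S : Finset G) (w : G → ℝ≥0) :
    (∑ x ∈ S, ‖(inner 𝕜 ξ (u x z) : 𝕜)‖ₑ ^ 2 * w x) ^ 2 ≤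
      ‖z‖ₑ ^ 2 * ∑ x ∈ S, (∑ y ∈ S, ‖(inner 𝕜 ξ (u x z) : 𝕜)‖ₑ ^ 2 * ‖p (y * x⁻¹)‖ₑ * w y) * w x := by
  have h1 := h.finite_schur hu z (fun i : Fin S.card => ((S.equivFin.symm i : S) : G))
    (fun i => w (S.equivFin.symm i : S)) (fun _ => NNReal.coe_nonneg _)
  have e1 : ∀ F : G → ℝ, ∑ i : Fin S.card, F (S.equivFin.symm i : S) = ∑ x ∈ S, F x := by
    intro F
    rw [← Finset.sum_coe_sort S F]
    exact Equiv.sum_comp S.equivFin.symm (fun x : S => F x)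
  rw [e1 (fun x => (w x : ℝ) * ‖(inner 𝕜 ξ (u x z) : 𝕜)‖ ^ 2)] at h1
  have e2 : ∑ i : Fin S.card, ∑ j : Fin S.card, (w (S.equivFin.symm i : S) : ℝ) * w (S.equivFin.symm j : S) *
      (‖(inner 𝕜 ξ (u (S.equivFin.symm i : S) z) : 𝕜)‖ ^ 2 *
        ‖p ((S.equivFin.symm j : S) * ((S.equivFin.symm i : S) : G)⁻¹)‖) =
      ∑ x ∈ S, ∑ y ∈ S, (w x : ℝ) * w y * (‖(inner 𝕜 ξ (u x z) : 𝕜)‖ ^ 2 * ‖p (y * x⁻¹)‖) := by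
    rw [← e1]
    refine Finset.sum_congr rfl fun i _ => ?_
    rw [← e1]
  rw [e2] at h1
  have h2 : (∑ x ∈ S, ‖(inner 𝕜 ξ (u x z) : 𝕜)‖₊ ^ 2 * w x) ^ 2 ≤
      ‖z‖₊ ^ 2 * ∑ x ∈ S, (∑ y ∈ S, ‖(inner 𝕜 ξ (u x z) : 𝕜)‖₊ ^ 2 * ‖p (y * x⁻¹)‖₊ * w y) * w x := by
    rw [← NNReal.coe_le_coe]
    push_cast
    refine le_of_eq_of_le ?_ (h1.trans (le_of_eq ?_))
    · congr 1
      exact Finset.sum_congr rfl fun x _ => mul_comm _ _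
    · congr 1
      refine Finset.sum_congr rfl fun x _ => ?_
      rw [Finset.sum_mul]
      exact Finset.sum_congr rfl fun y _ => by ring
  have h3 := ENNReal.coe_le_coe.2 h2
  push_cast at h3
  exact h3

section Meas

variable [TopologicalSpace G] [IsTopologicalGroup G] [MeasurableSpace G] [BorelSpace G] [SecondCountableTopology G]

/-- Schur test for simple functions `G → G` -/
theorem Dom.simple_schur (h : Dom u ξ p) (hu : Uni u) (z : E) (m : Measure G) [IsFiniteMeasure m] (s : SimpleFunc G G) :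
    (∫⁻ g, ‖(inner 𝕜 ξ (u (s g) z) : 𝕜)‖ₑ ^ 2 ∂m) ^ 2 ≤
      ‖z‖ₑ ^ 2 * ∫⁻ g, ∫⁻ k, ‖(inner 𝕜 ξ (u (s g) z) : 𝕜)‖ₑ ^ 2 * ‖p (s k * (s g)⁻¹)‖ₑ ∂m ∂m := by
  have e : ∀ Φ : G → ℝ≥0∞, ∫⁻ g, Φ (s g) ∂m = ∑ x ∈ s.range, Φ x * ((m (s ⁻¹' {x})).toNNReal : ℝ≥0∞) := by
    intro Φ
    have h1 := (s.map Φ).lintegral_eq_lintegral m
    rw [SimpleFunc.map_lintegral] at h1
    simp only [SimpleFunc.map_apply] at h1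
    rw [h1]
    refine Finset.sum_congr rfl fun x _ => ?_
    rw [ENNReal.coe_toNNReal (measure_ne_top m _)]
  have e2 : ∀ g, ∫⁻ k, ‖(inner 𝕜 ξ (u (s g) z) : 𝕜)‖ₑ ^ 2 * ‖p (s k * (s g)⁻¹)‖ₑ ∂m =
      (fun x => ∑ y ∈ s.range, ‖(inner 𝕜 ξ (u x z) : 𝕜)‖ₑ ^ 2 * ‖p (y * x⁻¹)‖ₑ *
        ((m (s ⁻¹' {y})).toNNReal : ℝ≥0∞)) (s g) := by
    intro g
    exact e fun y => ‖(inner 𝕜 ξ (u (s g) z) : 𝕜)‖ₑ ^ 2 * ‖p (y * (s g)⁻¹)‖ₑ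
  have e3 := e fun x => ∑ y ∈ s.range, ‖(inner 𝕜 ξ (u x z) : 𝕜)‖ₑ ^ 2 * ‖p (y * x⁻¹)‖ₑ *
        ((m (s ⁻¹' {y})).toNNReal : ℝ≥0∞)
  have e4 := e fun x => ‖(inner 𝕜 ξ (u x z) : 𝕜)‖ₑ ^ 2
  rw [e4, lintegral_congr e2, e3]
  exact h.finset_schur hu z s.range fun x => (m (s ⁻¹' {x})).toNNReal

theorem exists_simple : ∃ s : ℕ → SimpleFunc G G, ∀ g, Tendsto (fun n => s n g) atTop (𝓝 g) := by
  letI : PseudoMetricSpace G := TopologicalSpace.pseudoMetrizableSpacePseudoMetric G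
  exact ⟨fun n => SimpleFunc.approxOn id measurable_id Set.univ 1 (Set.mem_univ _) n, fun g =>
    SimpleFunc.tendsto_approxOn measurable_id (Set.mem_univ _) (by simp)⟩

/-- Schur test for finite measures -/
theorem Dom.fin_schur (h : Dom u ξ p) (hu : Uni u) (hc : ∀ x, Continuous fun g => u g x) (hp : Continuous p)
    (M : ℝ≥0) (hM : ∀ g, ‖p g‖₊ ≤ M) (z : E) (m : Measure G) [IsFiniteMeasure m] :
    (∫⁻ g, ‖(inner 𝕜 ξ (u g z) : 𝕜)‖ₑ ^ 2 ∂m) ^ 2 ≤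
      ‖z‖ₑ ^ 2 * ∫⁻ g, ∫⁻ k, ‖(inner 𝕜 ξ (u g z) : 𝕜)‖ₑ ^ 2 * ‖p (k * g⁻¹)‖ₑ ∂m ∂m := by
  obtain ⟨s, hlim⟩ := exists_simple (G := G)
  have hfc : Continuous fun g : G => ‖(inner 𝕜 ξ (u g z) : 𝕜)‖ₑ ^ 2 := by
    have : Continuous fun g : G => (inner 𝕜 ξ (u g z) : 𝕜) := continuous_const.inner (hc z)
    fun_prop
  have hpc : Continuous fun q : G × G => ‖p (q.2 * q.1⁻¹)‖ₑ := by fun_prop
  have hfb : ∀ g, ‖(inner 𝕜 ξ (u g z) : 𝕜)‖ₑ ^ 2 ≤ (‖ξ‖ₑ * ‖z‖ₑ) ^ 2 := by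
    intro g
    have h1 := enorm_inner_le (𝕜 := 𝕜) ξ (u g z)
    rw [hu.enorm] at h1
    gcongr
  have hfin : (‖ξ‖ₑ * ‖z‖ₑ) ^ 2 ≠ ∞ := ENNReal.pow_ne_top (ENNReal.mul_ne_top enorm_ne_top enorm_ne_top)
  have l1 : Tendsto (fun n => (∫⁻ g, ‖(inner 𝕜 ξ (u (s n g) z) : 𝕜)‖ₑ ^ 2 ∂m) ^ 2) atTop
      (𝓝 ((∫⁻ g, ‖(inner 𝕜 ξ (u g z) : 𝕜)‖ₑ ^ 2 ∂m) ^ 2)) := by
    refine ((ENNReal.continuous_pow 2).tendsto _).comp ?_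
    refine tendsto_lintegral_of_dominated_convergence (fun _ => (‖ξ‖ₑ * ‖z‖ₑ) ^ 2) (fun n => ?_) (fun n => ?_) ?_ ?_
    · exact hfc.measurable.comp (s n).measurable
    · exact ae_of_all _ fun g => hfb _
    · rw [lintegral_const]
      exact ENNReal.mul_ne_top hfin (measure_ne_top m _)
    · exact ae_of_all _ fun g => (hfc.tendsto g).comp (hlim g)
  have hmeas : ∀ n, Measurable fun q : G × G => ‖(inner 𝕜 ξ (u (s n q.1) z) : 𝕜)‖ₑ ^ 2 * ‖p (s n q.2 * (s n q.1)⁻¹)‖ₑ := by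
    intro n
    refine (hfc.measurable.comp ((s n).measurable.comp measurable_fst)).mul ?_
    exact hpc.measurable.comp (((s n).measurable.comp measurable_fst).prodMk ((s n).measurable.comp measurable_snd))
  have hmeas' : Measurable fun q : G × G => ‖(inner 𝕜 ξ (u q.1 z) : 𝕜)‖ₑ ^ 2 * ‖p (q.2 * q.1⁻¹)‖ₑ :=
    (hfc.measurable.comp measurable_fst).mul hpc.measurable
  have l2 : Tendsto (fun n => ‖z‖ₑ ^ 2 * ∫⁻ g, ∫⁻ k, ‖(inner 𝕜 ξ (u (s n g) z) : 𝕜)‖ₑ ^ 2 * ‖p (s n k * (s n g)⁻¹)‖ₑ ∂m ∂m) atTop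
      (𝓝 (‖z‖ₑ ^ 2 * ∫⁻ g, ∫⁻ k, ‖(inner 𝕜 ξ (u g z) : 𝕜)‖ₑ ^ 2 * ‖p (k * g⁻¹)‖ₑ ∂m ∂m)) := by
    refine ENNReal.Tendsto.const_mul ?_ (Or.inr (ENNReal.pow_ne_top enorm_ne_top))
    have e1 : ∀ n, ∫⁻ g, ∫⁻ k, ‖(inner 𝕜 ξ (u (s n g) z) : 𝕜)‖ₑ ^ 2 * ‖p (s n k * (s n g)⁻¹)‖ₑ ∂m ∂m =
        ∫⁻ q, ‖(inner 𝕜 ξ (u (s n q.1) z) : 𝕜)‖ₑ ^ 2 * ‖p (s n q.2 * (s n q.1)⁻¹)‖ₑ ∂(m.prod m) := by
      intro n
      rw [lintegral_prod _ (hmeas n).aemeasurable]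
    have e2 : ∫⁻ g, ∫⁻ k, ‖(inner 𝕜 ξ (u g z) : 𝕜)‖ₑ ^ 2 * ‖p (k * g⁻¹)‖ₑ ∂m ∂m =
        ∫⁻ q, ‖(inner 𝕜 ξ (u q.1 z) : 𝕜)‖ₑ ^ 2 * ‖p (q.2 * q.1⁻¹)‖ₑ ∂(m.prod m) := by
      rw [lintegral_prod _ hmeas'.aemeasurable]
    simp only [e1]
    rw [e2]
    refine tendsto_lintegral_of_dominated_convergence (fun _ => (‖ξ‖ₑ * ‖z‖ₑ) ^ 2 * M) hmeas (fun n => ?_) ?_ ?_
    · refine ae_of_all _ fun q => ?_
      refine mul_le_mul' (hfb _) ?_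
      exact ENNReal.coe_le_coe.2 (hM _)
    · rw [lintegral_const]
      exact ENNReal.mul_ne_top (ENNReal.mul_ne_top hfin ENNReal.coe_ne_top) (measure_ne_top _ _)
    · refine ae_of_all _ fun q => ?_
      have hcont : Continuous fun q : G × G => ‖(inner 𝕜 ξ (u q.1 z) : 𝕜)‖ₑ ^ 2 * ‖p (q.2 * q.1⁻¹)‖ₑ := by
        have h1 : Continuous fun g : G => (inner 𝕜 ξ (u g z) : 𝕜) := continuous_const.inner (hc z)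
        have h2 : (fun q : G × G => ‖(inner 𝕜 ξ (u q.1 z) : 𝕜)‖ₑ ^ 2 * ‖p (q.2 * q.1⁻¹)‖ₑ) =
            fun q : G × G => ‖(inner 𝕜 ξ (u q.1 z) : 𝕜) ^ 2 * p (q.2 * q.1⁻¹)‖ₑ := by
          funext q
          rw [enorm_mul, enorm_pow]
        rw [h2]
        have h3 : Continuous fun q : G × G => (inner 𝕜 ξ (u q.1 z) : 𝕜) := h1.comp continuous_fst
        fun_prop
      have h4 := (hcont.tendsto q).comp ((hlim q.1).prodMk_nhds (hlim q.2))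
      exact h4
  exact le_of_tendsto_of_tendsto' l1 l2 fun n => h.simple_schur hu z m (s n)

/-- **Schur test**: a vector dominated by an integrable positive definite function is `λ`-bounded. -/
theorem Dom.schur (h : Dom u ξ p) (hu : Uni u) (hc : ∀ x, Continuous fun g => u g x) (hp : Continuous p)
    (M : ℝ≥0) (hM : ∀ g, ‖p g‖₊ ≤ M) (μ : Measure G) [SigmaFinite μ] [μ.IsMulRightInvariant] (z : E) :
    ∫⁻ g, ‖(inner 𝕜 ξ (u g z) : 𝕜)‖ₑ ^ 2 ∂μ ≤ (∫⁻ g, ‖p g‖ₑ ∂μ) * ‖z‖ₑ ^ 2 := by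
  refine lintegral_le_of_forall_fin_meas_le _ fun s hs hsm => ?_
  haveI : IsFiniteMeasure (μ.restrict s) := ⟨by rw [Measure.restrict_apply_univ]; exact lt_of_le_of_ne le_top hsm⟩
  have h1 := h.fin_schur hu hc hp M hM z (μ.restrict s)
  set I : ℝ≥0∞ := ∫⁻ g in s, ‖(inner 𝕜 ξ (u g z) : 𝕜)‖ₑ ^ 2 ∂μ with hI
  have hfb : ∀ g, ‖(inner 𝕜 ξ (u g z) : 𝕜)‖ₑ ^ 2 ≤ (‖ξ‖ₑ * ‖z‖ₑ) ^ 2 := by
    intro g
    have h1 := enorm_inner_le (𝕜 := 𝕜) ξ (u g z)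
    rw [hu.enorm] at h1
    gcongr
  have hIfin : I ≠ ∞ := by
    have h2 : I ≤ ∫⁻ _ in s, (‖ξ‖ₑ * ‖z‖ₑ) ^ 2 ∂μ := lintegral_mono fun g => hfb g
    rw [lintegral_const, Measure.restrict_apply_univ] at h2
    refine ne_top_of_le_ne_top ?_ h2
    exact ENNReal.mul_ne_top (ENNReal.pow_ne_top (ENNReal.mul_ne_top enorm_ne_top enorm_ne_top)) hsm
  have h3 : ∫⁻ g in s, ∫⁻ k in s, ‖(inner 𝕜 ξ (u g z) : 𝕜)‖ₑ ^ 2 * ‖p (k * g⁻¹)‖ₑ ∂μ ∂μ ≤ I * ∫⁻ g, ‖p g‖ₑ ∂μ := by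
    have hm : Measurable fun g : G => ‖(inner 𝕜 ξ (u g z) : 𝕜)‖ₑ ^ 2 := by
      have : Continuous fun g : G => (inner 𝕜 ξ (u g z) : 𝕜) := continuous_const.inner (hc z)
      exact this.enorm.measurable.pow_const 2
    rw [hI, ← lintegral_mul_const _ hm]
    refine lintegral_mono fun g => ?_
    simp only
    rw [lintegral_const_mul' _ _ (ne_top_of_le_ne_top (ENNReal.pow_ne_top (ENNReal.mul_ne_top enorm_ne_top enorm_ne_top)) (hfb g))]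
    refine mul_le_mul' le_rfl ?_
    calc ∫⁻ k in s, ‖p (k * g⁻¹)‖ₑ ∂μ ≤ ∫⁻ k, ‖p (k * g⁻¹)‖ₑ ∂μ := setLIntegral_le_lintegral _ _
      _ = ∫⁻ k, ‖p k‖ₑ ∂μ := lintegral_mul_right_eq_self (fun k => ‖p k‖ₑ) g⁻¹
  rcases eq_or_ne I 0 with h0 | h0
  · rw [h0]; exact bot_le
  · have h4 : I * I ≤ I * ((∫⁻ g, ‖p g‖ₑ ∂μ) * ‖z‖ₑ ^ 2) := by
      calc I * I = I ^ 2 := (sq I).symm
        _ ≤ ‖z‖ₑ ^ 2 * (I * ∫⁻ g, ‖p g‖ₑ ∂μ) := h1.trans (mul_le_mul' le_rfl h3)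
        _ = _ := by ring
    exact (ENNReal.mul_le_mul_iff_right h0 hIfin).1 h4

end Meas

end Pool.Agent.Helper89.FP
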