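import Pool.Agent.Helper89.FP.Schur
import Pool.Agent.Helper9.CA.Energy

/-!
# Project FP (MP_0f6f3f_an): `K`-smoothed vectors

`a_f = ∫ f(k) u(k) a dν(k)`, `ν` the Haar probability measure of a compact subgroup `K`. If `∫∫ |⟪a, u(k⁻¹ g l) a⟫|² ≤ (C ψ(g))²` then
`|⟪a_f, u(g) a_f⟫| ≤ |f|_∞² C ψ(g)`, pointwise. The `a_f` are total if the `a` are.
-/

set_option autoImplicit false
set_option linter.unusedSectionVars false
set_option linter.style.haveILetI false

open MeasureTheory Measure ENNReal Topology ComplexConjugate Filter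
open scoped NNReal

namespace Pool.Agent.Helper89.FP

open Pool.Agent.Helper9.CA (HaarOn)

variable {G : Type*} [Group G] {E : Type*} [NormedAddCommGroup E] [InnerProductSpace ℂ E] [CompleteSpace E]
variable [TopologicalSpace G] [IsTopologicalGroup G] [MeasurableSpace G] [BorelSpace G] [SecondCountableTopology G]
variable {u : G →* (E →L[ℂ] E)} {K : Subgroup G} {ν : Measure G}

/-- a `K`-invariant probability measure gives positive mass to the neighbourhoods of `1` -/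
theorem HaarOn.pos (h : HaarOn K ν) (hK : IsCompact (K : Set G)) {O : Set G} (hO : IsOpen O) (h1 : (1 : G) ∈ O) : ν O ≠ 0 := by
  intro h0
  haveI := h.prob
  obtain ⟨t, ht⟩ := hK.elim_finite_subcover (fun k : K => (fun x => (k : G)⁻¹ * x) ⁻¹' O)
    (fun k => hO.preimage (continuous_const_mul _)) (fun k hk => Set.mem_iUnion.2 ⟨⟨k, hk⟩, by simpa using h1⟩)
  have h2 : ∀ k ∈ K, ν ((fun x => k⁻¹ * x) ⁻¹' O) = 0 := by
    intro k hk
    rw [← Measure.map_apply (measurable_const_mul _) hO.measurableSet, h.left _ (K.inv_mem hk), h0]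
  have h3 : ν (⋃ i ∈ t, (fun x => (i : G)⁻¹ * x) ⁻¹' O) ≤ 0 :=
    (measure_biUnion_finset_le t _).trans (le_of_eq (Finset.sum_eq_zero fun i _ => h2 i i.2))
  have h4 : ν (K : Set G) ≤ 0 := (measure_mono ht).trans h3
  have h5 : ν ((K : Set G)ᶜ) = 0 := by
    have := h.supp
    rw [ae_iff] at this
    exact this
  have h6 : ν Set.univ ≤ 0 := by
    rw [← Set.union_compl_self (K : Set G)]
    refine (measure_union_le _ _).trans ?_
    rw [h5, add_zero]
    exact h4
  rw [measure_univ] at h6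
  exact absurd h6 (by simp)

theorem HaarOn.integrable (h : HaarOn K ν) {F : Type*} [NormedAddCommGroup F] {f : G → F} (hf : Continuous f) (C : ℝ)
    (hC : ∀ g, ‖f g‖ ≤ C) : Integrable f ν := by
  haveI := h.prob
  exact Integrable.of_bound hf.aestronglyMeasurable C (ae_of_all _ hC)

/-- the smoothed vector -/
noncomputable def smooth (u : G →* (E →L[ℂ] E)) (ν : Measure G) (f : G → ℂ) (a : E) : E := ∫ k, f k • u k a ∂ν

section

variable (hu : Uni u) (hc : ∀ x, Continuous fun g => u g x) (hν : HaarOn K ν)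

include hu hc hν

theorem integrable_smooth {f : G → ℂ} (hf : Continuous f) {M : ℝ} (hM : ∀ g, ‖f g‖ ≤ M) (a : E) :
    Integrable (fun k => f k • u k a) ν := by
  refine HaarOn.integrable hν (hf.smul (hc a)) (M * ‖a‖) fun g => ?_
  rw [norm_smul, hu.norm]
  exact mul_le_mul_of_nonneg_right (hM g) (norm_nonneg _)

theorem inner_smooth {f : G → ℂ} (hf : Continuous f) {M : ℝ} (hM : ∀ g, ‖f g‖ ≤ M) (a x : E) :
    inner ℂ x (smooth u ν f a) = ∫ k, f k * inner ℂ x (u k a) ∂ν := by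
  unfold smooth
  rw [← integral_inner (integrable_smooth hu hc hν hf hM a)]
  simp only [inner_smul_right]

theorem coef_smooth₂ {f f' : G → ℂ} (hf : Continuous f) {M : ℝ} (hM : ∀ g, ‖f g‖ ≤ M) (hf' : Continuous f')
    {M' : ℝ} (hM' : ∀ g, ‖f' g‖ ≤ M') (a b : E) (g : G) :
    inner ℂ (smooth u ν f a) (u g (smooth u ν f' b)) =
      ∫ k, ∫ l, conj (f k) * f' l * inner ℂ a (u (k⁻¹ * g * l) b) ∂ν ∂ν := by
  have h1 : inner ℂ (smooth u ν f a) (u g (smooth u ν f' b)) = conj (inner ℂ (u g (smooth u ν f' b)) (smooth u ν f a)) :=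
    (inner_conj_symm _ _).symm
  rw [h1, inner_smooth hu hc hν hf hM, ← integral_conj]
  refine integral_congr_ae (ae_of_all _ fun k => ?_)
  simp only
  rw [map_mul, inner_conj_symm]
  have h2 : inner ℂ (u k a) (u g (smooth u ν f' b)) = ∫ l, f' l * inner ℂ a (u (k⁻¹ * g * l) b) ∂ν := by
    rw [← hu.inner_inv, inner_smooth hu hc hν hf' hM']
    refine integral_congr_ae (ae_of_all _ fun l => ?_)
    simp only
    rw [hu.inner_inv, ← u_mul, hu.inner_mul, mul_assoc]
  rw [h2, ← integral_const_mul]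
  simp only [mul_assoc]

theorem coef_smooth {f : G → ℂ} (hf : Continuous f) {M : ℝ} (hM : ∀ g, ‖f g‖ ≤ M) (a : E) (g : G) :
    inner ℂ (smooth u ν f a) (u g (smooth u ν f a)) =
      ∫ k, ∫ l, conj (f k) * f l * inner ℂ a (u (k⁻¹ * g * l) a) ∂ν ∂ν :=
  coef_smooth₂ hu hc hν hf hM hf hM a a g

/-- pointwise bound of the coefficient of a smoothed vector by the `L²` average over `K × K` -/
theorem norm_coef_smooth {f : G → ℂ} (hf : Continuous f) {M : ℝ} (hM : ∀ g, ‖f g‖ ≤ M) (a : E) (g : G) :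
    ‖inner ℂ (smooth u ν f a) (u g (smooth u ν f a))‖ₑ ^ 2 ≤
      ENNReal.ofReal M ^ 4 * ∫⁻ k, ∫⁻ l, ‖inner ℂ a (u (k⁻¹ * g * l) a)‖ₑ ^ 2 ∂ν ∂ν := by
  haveI := hν.prob
  have hM' : ∀ g, ‖f g‖ₑ ≤ ENNReal.ofReal M := fun g => by
    rw [← ofReal_norm]; exact ENNReal.ofReal_le_ofReal (hM g)
  have hcx : Continuous fun x : G => ‖(inner ℂ a (u x a) : ℂ)‖ₑ := (continuous_const.inner (hc a)).enorm
  have hcq : Continuous fun q : G × G => ‖(inner ℂ a (u (q.1⁻¹ * g * q.2) a) : ℂ)‖ₑ := hcx.comp (by fun_prop)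
  have hmq : Measurable fun q : G × G => ‖inner ℂ a (u (q.1⁻¹ * g * q.2) a)‖ₑ := hcq.measurable
  have hmk : ∀ k : G, Measurable fun l => ‖(inner ℂ a (u (k⁻¹ * g * l) a) : ℂ)‖ₑ := fun k =>
    (hcx.comp (continuous_const_mul (k⁻¹ * g))).measurable
  have hm1 : Measurable fun k => ∫⁻ l, ‖inner ℂ a (u (k⁻¹ * g * l) a)‖ₑ ∂ν := hmq.lintegral_prod_right'
  rw [coef_smooth hu hc hν hf hM]
  have h1 : ‖∫ k, ∫ l, conj (f k) * f l * inner ℂ a (u (k⁻¹ * g * l) a) ∂ν ∂ν‖ₑ ≤
      ENNReal.ofReal M ^ 2 * ∫⁻ k, ∫⁻ l, ‖inner ℂ a (u (k⁻¹ * g * l) a)‖ₑ ∂ν ∂ν := by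
    rw [← lintegral_const_mul _ hm1]
    refine (enorm_integral_le_lintegral_enorm _).trans (lintegral_mono fun k => ?_)
    simp only
    rw [← lintegral_const_mul _ (hmk k)]
    refine (enorm_integral_le_lintegral_enorm _).trans (lintegral_mono fun l => ?_)
    simp only
    rw [enorm_mul, enorm_mul, sq]
    have h3 : ‖conj (f k)‖ₑ = ‖f k‖ₑ := by rw [← ofReal_norm, RCLike.norm_conj, ofReal_norm]
    rw [h3]
    gcongr
    · exact hM' k
    · exact hM' l
  calc ‖∫ k, ∫ l, conj (f k) * f l * inner ℂ a (u (k⁻¹ * g * l) a) ∂ν ∂ν‖ₑ ^ 2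
      ≤ (ENNReal.ofReal M ^ 2 * ∫⁻ k, ∫⁻ l, ‖inner ℂ a (u (k⁻¹ * g * l) a)‖ₑ ∂ν ∂ν) ^ 2 := by gcongr
    _ = ENNReal.ofReal M ^ 4 * (∫⁻ k, ∫⁻ l, ‖inner ℂ a (u (k⁻¹ * g * l) a)‖ₑ ∂ν ∂ν) ^ 2 := by ring
    _ ≤ ENNReal.ofReal M ^ 4 * ∫⁻ k, (∫⁻ l, ‖inner ℂ a (u (k⁻¹ * g * l) a)‖ₑ ∂ν) ^ 2 ∂ν := by
        gcongr
        exact Pool.Agent.Helper9.CA.sq_lintegral_le ν hm1.aemeasurable
    _ ≤ _ := by
        gcongr with k
        exact Pool.Agent.Helper9.CA.sq_lintegral_le ν (hmk k).aemeasurable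

/-- the smoothed vectors are total if the vectors are -/
theorem smooth_total (hK : IsCompact (K : Set G)) {A : Set E} (hA : (Submodule.span ℂ A).topologicalClosure = ⊤) :
    (Submodule.span ℂ {x : E | ∃ a ∈ A, ∃ f : G → ℂ, Continuous f ∧ (∃ M : ℝ, ∀ g, ‖f g‖ ≤ M) ∧ x = smooth u ν f a}).topologicalClosure
      = ⊤ := by
  haveI := hν.prob
  rw [Submodule.topologicalClosure_eq_top_iff, Submodule.eq_bot_iff]
  intro y hy
  rw [Submodule.topologicalClosure_eq_top_iff] at hA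
  have hy1 : ∀ a ∈ A, inner ℂ a y = 0 := by
    intro a ha
    set f : G → ℂ := fun k => inner ℂ (u k a) y with hf
    have hfc : Continuous f := (hc a).inner continuous_const
    have hfb : ∀ k, ‖f k‖ ≤ ‖a‖ * ‖y‖ := fun k => by
      have := norm_inner_le_norm (𝕜 := ℂ) (u k a) y
      rwa [hu.norm] at this
    have h1 : inner ℂ y (smooth u ν f a) = 0 := by
      rw [← inner_conj_symm]
      rw [(Submodule.mem_orthogonal _ _).1 hy _ (Submodule.subset_span ⟨a, ha, f, hfc, ⟨_, hfb⟩, rfl⟩), map_zero]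
    rw [inner_smooth hu hc hν hfc hfb] at h1
    have h2 : ∀ k, f k * inner ℂ y (u k a) = ((‖f k‖ ^ 2 : ℝ) : ℂ) := by
      intro k
      rw [← inner_conj_symm y (u k a)]
      show f k * conj (f k) = _
      rw [RCLike.mul_conj]
      simp
    simp only [h2] at h1
    rw [integral_complex_ofReal] at h1
    have h3 : ∫ k, ‖f k‖ ^ 2 ∂ν = 0 := by exact_mod_cast h1
    have hint : Integrable (fun k => ‖f k‖ ^ 2) ν := by
      refine HaarOn.integrable hν (by fun_prop) ((‖a‖ * ‖y‖) ^ 2) fun k => ?_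
      rw [norm_pow, norm_norm]
      gcongr
      exact hfb k
    rw [integral_eq_zero_iff_of_nonneg (fun k => sq_nonneg _) hint] at h3
    by_contra hne
    have h4 : ν {k | f k ≠ 0} ≠ 0 := by
      refine HaarOn.pos hν hK (isOpen_ne_fun hfc continuous_const) ?_
      show inner ℂ (u 1 a) y ≠ 0
      rw [u_one]
      exact hne
    refine h4 ?_
    have h5 : ∀ᵐ k ∂ν, ¬ (f k ≠ 0) := by
      filter_upwards [h3] with k hk
      simp only [Pi.zero_apply, ne_eq, OfNat.ofNat_ne_zero, not_false_eq_true, pow_eq_zero_iff, norm_eq_zero] at hk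
      exact fun h => h hk
    rw [ae_iff] at h5
    simpa using h5
  have hy2 : y ∈ (Submodule.span ℂ A)ᗮ := by
    rw [Submodule.mem_orthogonal]
    intro x hx
    induction hx using Submodule.span_induction with
    | mem x hx => exact hy1 x hx
    | zero => exact inner_zero_left _
    | add x z _ _ hx hz => rw [inner_add_left, hx, hz, add_zero]
    | smul c x _ hx => rw [inner_smul_left, hx, mul_zero]
  rw [hA] at hy2
  exact hy2

end

end Pool.Agent.Helper89.FP
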