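import Pool.Agent.Helper89.FP.PD

/-!
# Project FP (MP_0f6f3f_an): the antilinear map of `total_gap` from a closed relation

`P x y`: `y` is an adjoint of `x`. If `P` is closed, compatible with `(x, y) ↦ (c x, conj c y)`, invariant, `P x 0` only for `x = 0` and the first projection is total, then
`τ x` = second component of the orthogonal projection of `(x, 0)` to `P` satisfies the hypotheses of `total_gap`.
-/

set_option autoImplicit false
set_option linter.style.haveILetI false

open Topology ComplexConjugate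

namespace Pool.Agent.Helper89.FP

variable {G : Type*} [Group G] {E : Type*} [NormedAddCommGroup E] [InnerProductSpace ℂ E] [CompleteSpace E]

/-- A closed antilinear relation. -/
structure AntiRel (P : E → E → Prop) : Prop where
  zero : P 0 0
  add : ∀ x y x' y', P x y → P x' y' → P (x + x') (y + y')
  smul : ∀ (c : ℂ) x y, P x y → P (c • x) (conj c • y)
  closed : IsClosed {p : E × E | P p.1 p.2}

namespace AntiRel

variable {P : E → E → Prop}

/-- the relation as a real subspace of the Hilbert space `E × E` -/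
def sub (h : AntiRel P) : letI : InnerProductSpace ℝ E := InnerProductSpace.complexToReal; Submodule ℝ (WithLp 2 (E × E)) :=
  letI : InnerProductSpace ℝ E := InnerProductSpace.complexToReal
  { carrier := {z | P z.fst z.snd}
    add_mem' := fun {a b} ha hb => h.add _ _ _ _ ha hb
    zero_mem' := h.zero
    smul_mem' := fun c x hx => by
      have h1 := h.smul (c : ℂ) _ _ hx
      rw [Complex.conj_ofReal] at h1
      exact h1 }

theorem exists_pr (h : AntiRel P) (x y : E) :
    ∃ x' y', P x' y' ∧ ∀ p q, P p q → inner ℂ (x - x') p + conj (inner ℂ (y - y') q) = 0 := by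
  letI : InnerProductSpace ℝ E := InnerProductSpace.complexToReal
  have hcl : IsClosed ((h.sub : Submodule ℝ (WithLp 2 (E × E))) : Set (WithLp 2 (E × E))) :=
    h.closed.preimage (WithLp.prod_continuous_ofLp 2 E E)
  haveI : CompleteSpace (h.sub : Submodule ℝ (WithLp 2 (E × E))) := hcl.completeSpace_coe
  set v : WithLp 2 (E × E) := WithLp.toLp 2 (x, y) with hv
  set z : WithLp 2 (E × E) := (h.sub : Submodule ℝ (WithLp 2 (E × E))).starProjection v with hz
  have hzm : P z.fst z.snd := (h.sub : Submodule ℝ (WithLp 2 (E × E))).starProjection_apply_mem v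
  have hre : ∀ p q, P p q → (inner ℂ (x - z.fst) p : ℂ).re + (inner ℂ (y - z.snd) q : ℂ).re = 0 := by
    intro p q hpq
    have h1 := Submodule.starProjection_inner_eq_zero (K := (h.sub : Submodule ℝ (WithLp 2 (E × E)))) v
      (WithLp.toLp 2 (p, q)) hpq
    rw [WithLp.prod_inner_apply] at h1
    exact h1
  refine ⟨z.fst, z.snd, hzm, fun p q hpq => ?_⟩
  have h1 := hre p q hpq
  have h2 := hre _ _ (h.smul Complex.I p q hpq)
  rw [Complex.conj_I, inner_smul_right, inner_smul_right] at h2
  simp only [Complex.mul_re, Complex.I_re, Complex.I_im, Complex.neg_re, Complex.neg_im, zero_mul, one_mul, neg_zero,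
    neg_mul, sub_neg_eq_add, zero_add, zero_sub] at h2
  apply Complex.ext
  · rw [Complex.add_re, Complex.conj_re, Complex.zero_re]
    exact h1
  · rw [Complex.add_im, Complex.conj_im, Complex.zero_im]
    linarith

theorem pr_unique (h : AntiRel P) {x y x' y' x'' y'' : E} (h1 : P x' y')
    (h1' : ∀ p q, P p q → inner ℂ (x - x') p + conj (inner ℂ (y - y') q) = 0) (h2 : P x'' y'')
    (h2' : ∀ p q, P p q → inner ℂ (x - x'') p + conj (inner ℂ (y - y'') q) = 0) : x' = x'' ∧ y' = y'' := by
  have h3 : P (x' - x'') (y' - y'') := by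
    have h4 := h.smul (-1) _ _ h2
    rw [map_neg, map_one, neg_one_smul, neg_one_smul] at h4
    have h5 := h.add _ _ _ _ h1 h4
    rwa [← sub_eq_add_neg, ← sub_eq_add_neg] at h5
  have h4 := h1' _ _ h3
  have h5 := h2' _ _ h3
  have h6 : inner ℂ (x' - x'') (x' - x'') + conj (inner ℂ (y' - y'') (y' - y'')) = 0 := by
    have e1 : x' - x'' = (x - x'') - (x - x') := by abel
    have e2 : y' - y'' = (y - y'') - (y - y') := by abel
    have e3 : inner ℂ (x' - x'') (x' - x'') = inner ℂ (x - x'') (x' - x'') - inner ℂ (x - x') (x' - x'') := by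
      rw [← inner_sub_left, ← e1]
    have e4 : inner ℂ (y' - y'') (y' - y'') = inner ℂ (y - y'') (y' - y'') - inner ℂ (y - y') (y' - y'') := by
      rw [← inner_sub_left, ← e2]
    rw [e3, e4, map_sub]
    linear_combination h5 - h4
  rw [inner_self_eq_norm_sq_to_K, inner_self_eq_norm_sq_to_K, map_pow, RCLike.conj_ofReal] at h6
  have h7 : ‖x' - x''‖ ^ 2 + ‖y' - y''‖ ^ 2 = 0 := by
    have h8 : ((‖x' - x''‖ ^ 2 + ‖y' - y''‖ ^ 2 : ℝ) : ℂ) = 0 := by push_cast; exact h6
    exact Complex.ofReal_eq_zero.1 h8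
  have h8 : ‖x' - x''‖ = 0 := by nlinarith [sq_nonneg ‖x' - x''‖, sq_nonneg ‖y' - y''‖]
  have h9 : ‖y' - y''‖ = 0 := by nlinarith [sq_nonneg ‖x' - x''‖, sq_nonneg ‖y' - y''‖]
  exact ⟨sub_eq_zero.1 (norm_eq_zero.1 h8), sub_eq_zero.1 (norm_eq_zero.1 h9)⟩

/-- **The data `τ`, `A` of `total_gap` from a closed antilinear relation.** -/
theorem exists_tau (h : AntiRel P) {u : G →* (E →L[ℂ] E)} (hu : Uni u) (hPu : ∀ g x y, P x y → P (u g x) (u g y))
    (hP0 : ∀ x, P x 0 → x = 0) (hPt : ∀ y, (∀ p q, P p q → inner ℂ y p = 0) → y = 0) :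
    ∃ (τ : E → E) (A : Set E), (∀ g x, τ (u g x) = u g (τ x)) ∧ (Submodule.span ℂ A).topologicalClosure = ⊤ ∧
      ∀ a ∈ A, ∃ d, ∀ x, inner ℂ x a = inner ℂ d (τ x) := by
  choose f g hfg hort using fun x => h.exists_pr x 0
  choose f' g' hfg' hort' using fun d => h.exists_pr 0 d
  have key : ∀ x d, inner ℂ x (f' d) = inner ℂ d (g x) := by
    intro x d
    have h1 := hort x _ _ (hfg' d)
    have h2 := hort' d _ _ (hfg x)
    rw [inner_sub_left, zero_sub, inner_neg_left, map_neg, inner_conj_symm] at h1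
    rw [zero_sub, inner_neg_left, inner_sub_left, map_sub, inner_conj_symm, inner_conj_symm] at h2
    have h3 := congrArg conj h2
    rw [map_add, map_neg, map_sub, inner_conj_symm, inner_conj_symm, inner_conj_symm, map_zero] at h3
    linear_combination h1 - h3
  refine ⟨g, Set.range f', ?_, ?_, ?_⟩
  · intro s x
    have h1 : P (u s (f x)) (u s (g x)) := hPu s _ _ (hfg x)
    have h2 : ∀ p q, P p q → inner ℂ (u s x - u s (f x)) p + conj (inner ℂ (0 - u s (g x)) q) = 0 := by
      intro p q hpq
      have h3 := hort x _ _ (hPu s⁻¹ p q hpq)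
      have e1 : inner ℂ (x - f x) (u s⁻¹ p) = inner ℂ (u s x - u s (f x)) p := by
        rw [← hu.inner_inv s⁻¹, inv_inv, map_sub]
      have e2 : inner ℂ (0 - g x) (u s⁻¹ q) = inner ℂ (0 - u s (g x)) q := by
        rw [← hu.inner_inv s⁻¹, inv_inv, map_sub, map_zero]
      rw [e1, e2] at h3
      exact h3
    exact (h.pr_unique (hfg (u s x)) (hort (u s x)) h1 h2).2
  · rw [Submodule.topologicalClosure_eq_top_iff, Submodule.eq_bot_iff]
    intro y hy
    have h1 : ∀ d, inner ℂ d (g y) = 0 := by
      intro d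
      rw [← key, ← inner_conj_symm, (Submodule.mem_orthogonal _ _).1 hy _ (Submodule.subset_span ⟨d, rfl⟩), map_zero]
    have h2 : g y = 0 := inner_self_eq_zero.1 (h1 (g y))
    have h3 : f y = 0 := hP0 _ (by rw [← h2]; exact hfg y)
    refine hPt y fun p q hpq => ?_
    have h4 := hort y p q hpq
    rw [h2, h3, sub_zero, sub_zero, inner_zero_left, map_zero, add_zero] at h4
    exact h4
  · rintro _ ⟨d, rfl⟩
    exact ⟨d, fun x => key x d⟩

end AntiRel

end Pool.Agent.Helper89.FP
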